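import Pool.Agent.Work.MP_a2fcf1_an_fs.Interface

/-! # Block CON: the two conservation laws (helper63) -/

set_option autoImplicit false

namespace Pool.SQGF

open Finset Set
open Pool.Agent.Work.MP_a2fcf1_an_h64 (cr sc eu n1 ex fc GloballyRegular)

theorem CON_eu_neg (k : ℤ × ℤ) : eu (-k) = eu k := by
  unfold eu
  simp

theorem p_CON (h1 : Stmt_TRI) : Stmt_CON := by
  intro B x hB hx
  constructor
  · rw [h1 B x (fun _ => 1) hB hx (fun _ => rfl)]
    have h2 : ∀ j l : ℤ × ℤ, Ph (fun _ => 1) j l = 0 := by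
      intro j l
      unfold Ph
      ring
    simp [h2]
  · rw [h1 B x (fun k => 1 / eu k) hB hx (fun k => by simp only [CON_eu_neg])]
    have h2 : ∀ j l : ℤ × ℤ, Ph (fun k => 1 / eu k) j l = 0 := by
      intro j l
      unfold Ph
      ring
    simp only [h2, mul_zero, zero_mul, Finset.sum_const_zero]

end Pool.SQGF
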