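import Pool.Agent.Work.MP_a2fcf1_an_fs.Interface

/-! # Block LAT: sums over lattice points (helper67) -/

set_option autoImplicit false

namespace Pool.SQGF

open Finset
open Pool.Agent.Work.MP_a2fcf1_an_h64 (cr sc eu n1 ex fc GloballyRegular)

/-- The sup norm of a frequency. -/
def LAT_N (k : ℤ × ℤ) : ℕ := max k.1.natAbs k.2.natAbs

theorem LAT_N_pos (k : ℤ × ℤ) (hk : k ≠ 0) : 1 ≤ LAT_N k := by
  unfold LAT_N
  by_contra h
  apply hk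
  have h1 : k.1.natAbs = 0 := by omega
  have h2 : k.2.natAbs = 0 := by omega
  exact Prod.ext (Int.natAbs_eq_zero.mp h1) (Int.natAbs_eq_zero.mp h2)

theorem LAT_N_le (k : ℤ × ℤ) : (LAT_N k : ℝ) ≤ eu k := by
  unfold LAT_N eu
  apply Real.le_sqrt_of_sq_le
  rcases le_total k.1.natAbs k.2.natAbs with h | h
  · rw [max_eq_right h]
    have : ((k.2.natAbs : ℕ) : ℝ) ^ 2 = (k.2 : ℝ) ^ 2 := by
      rw [Nat.cast_natAbs, Int.cast_abs, sq_abs]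
    rw [this]
    nlinarith [sq_nonneg (k.1 : ℝ)]
  · rw [max_eq_left h]
    have : ((k.1.natAbs : ℕ) : ℝ) ^ 2 = (k.1 : ℝ) ^ 2 := by
      rw [Nat.cast_natAbs, Int.cast_abs, sq_abs]
    rw [this]
    nlinarith [sq_nonneg (k.2 : ℝ)]

/-- Sums over shells. -/
theorem LAT_shell (F : Finset (ℤ × ℤ)) (g : ℕ → ℝ) (m : ℕ) (hg : ∀ n, 0 ≤ g n)
    (hF : ∀ k ∈ F, LAT_N k ∈ Finset.Icc 1 m) :
    ∑ k ∈ F, g (LAT_N k) ≤ ∑ n ∈ Finset.Icc 1 m, 8 * (n : ℝ) * g n := by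
  classical
  rw [← Finset.sum_fiberwise_of_maps_to hF (fun k => g (LAT_N k))]
  apply Finset.sum_le_sum
  intro n hn
  have h1 : ∑ k ∈ F with LAT_N k = n, g (LAT_N k) = ∑ k ∈ F with LAT_N k = n, g n := by
    apply Finset.sum_congr rfl
    intro k hk
    rw [(Finset.mem_filter.mp hk).2]
  rw [h1, Finset.sum_const, nsmul_eq_mul]
  apply mul_le_mul_of_nonneg_right _ (hg n)
  have h2 : (F.filter (fun k => LAT_N k = n)) ⊆ (Finset.box n : Finset (ℤ × ℤ)) := by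
    intro k hk
    rw [Int.mem_box]
    exact (Finset.mem_filter.mp hk).2
  have h3 := Finset.card_le_card h2
  have h4 : n ≠ 0 := by
    have := (Finset.mem_Icc.mp hn).1
    omega
  rw [Int.card_box h4] at h3
  exact_mod_cast h3

/-- The telescoping inequality. -/
theorem LAT_tele (β : ℝ) (hβ : 0 < β) (hβ2 : β ≤ 2) (n : ℕ) :
    ((n + 1 : ℕ) : ℝ) * ((n + 1 : ℕ) : ℝ) ^ (β - 2) ≤
      2 / β * (((n + 1 : ℕ) : ℝ) ^ β - (n : ℝ) ^ β) := by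
  have hn : (0 : ℝ) < ((n + 1 : ℕ) : ℝ) := by positivity
  have hn0 : (0 : ℝ) ≤ (n : ℝ) := by positivity
  have e1 : ((n + 1 : ℕ) : ℝ) * ((n + 1 : ℕ) : ℝ) ^ (β - 2) = ((n + 1 : ℕ) : ℝ) ^ (β - 1) := by
    have : β - 1 = 1 + (β - 2) := by ring
    rw [this, Real.rpow_add hn, Real.rpow_one]
  have e2 : ((n + 1 : ℕ) : ℝ) ^ β = ((n + 1 : ℕ) : ℝ) * ((n + 1 : ℕ) : ℝ) ^ (β - 1) := by
    have : β = 1 + (β - 1) := by ring
    conv_lhs => rw [this]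
    rw [Real.rpow_add hn, Real.rpow_one]
  rw [e1]
  have hp : 0 < ((n + 1 : ℕ) : ℝ) ^ (β - 1) := Real.rpow_pos_of_pos hn _
  have hc : ((n + 1 : ℕ) : ℝ) = (n : ℝ) + 1 := by push_cast; ring
  rcases le_total β 1 with h | h
  · have hb : (n : ℝ) ^ β ≤ ((n + 1 : ℕ) : ℝ) ^ β - β * ((n + 1 : ℕ) : ℝ) ^ (β - 1) := by
      have h1 : (n : ℝ) = ((n + 1 : ℕ) : ℝ) * (1 + (-(1 / ((n + 1 : ℕ) : ℝ)))) := by
        field_simp
        rw [hc]; ring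
      have h2 : (-1 : ℝ) ≤ -(1 / ((n + 1 : ℕ) : ℝ)) := by
        have : 1 / ((n + 1 : ℕ) : ℝ) ≤ 1 := by
          rw [div_le_one hn]
          rw [hc]; linarith
        linarith
      have h3 := rpow_one_add_le_one_add_mul_self h2 hβ.le h
      have h4 : (n : ℝ) ^ β = ((n + 1 : ℕ) : ℝ) ^ β * (1 + (-(1 / ((n + 1 : ℕ) : ℝ)))) ^ β := by
        rw [← Real.mul_rpow hn.le (by linarith), ← h1]
      rw [h4]
      calc ((n + 1 : ℕ) : ℝ) ^ β * (1 + (-(1 / ((n + 1 : ℕ) : ℝ)))) ^ β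
          ≤ ((n + 1 : ℕ) : ℝ) ^ β * (1 + β * (-(1 / ((n + 1 : ℕ) : ℝ)))) :=
            mul_le_mul_of_nonneg_left h3 (Real.rpow_nonneg hn.le _)
        _ = ((n + 1 : ℕ) : ℝ) ^ β - β * ((n + 1 : ℕ) : ℝ) ^ (β - 1) := by
            rw [e2]
            field_simp
            ring
    have : 2 / β * (β * ((n + 1 : ℕ) : ℝ) ^ (β - 1)) ≤
        2 / β * (((n + 1 : ℕ) : ℝ) ^ β - (n : ℝ) ^ β) := by
      apply mul_le_mul_of_nonneg_left _ (by positivity)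
      linarith
    have e3 : 2 / β * (β * ((n + 1 : ℕ) : ℝ) ^ (β - 1)) = 2 * ((n + 1 : ℕ) : ℝ) ^ (β - 1) := by
      field_simp
    rw [e3] at this
    linarith
  · have hb : (n : ℝ) ^ β ≤ (n : ℝ) * ((n + 1 : ℕ) : ℝ) ^ (β - 1) := by
      rcases Nat.eq_zero_or_pos n with h0 | h0
      · subst h0
        simp [Real.zero_rpow hβ.ne']
      · have hn1 : (0 : ℝ) < (n : ℝ) := by exact_mod_cast h0
        have : β = 1 + (β - 1) := by ring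
        conv_lhs => rw [this]
        rw [Real.rpow_add hn1, Real.rpow_one]
        apply mul_le_mul_of_nonneg_left _ hn0
        apply Real.rpow_le_rpow hn0 _ (by linarith)
        rw [hc]; linarith
    have h5 : ((n + 1 : ℕ) : ℝ) ^ (β - 1) ≤ ((n + 1 : ℕ) : ℝ) ^ β - (n : ℝ) ^ β := by
      rw [e2]
      have : ((n + 1 : ℕ) : ℝ) * ((n + 1 : ℕ) : ℝ) ^ (β - 1) =
          (n : ℝ) * ((n + 1 : ℕ) : ℝ) ^ (β - 1) + ((n + 1 : ℕ) : ℝ) ^ (β - 1) := by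
        rw [hc]; ring
      linarith
    have h6 : (1 : ℝ) ≤ 2 / β := by
      rw [le_div_iff₀ hβ]; linarith
    calc ((n + 1 : ℕ) : ℝ) ^ (β - 1) ≤ ((n + 1 : ℕ) : ℝ) ^ β - (n : ℝ) ^ β := h5
      _ = 1 * (((n + 1 : ℕ) : ℝ) ^ β - (n : ℝ) ^ β) := by ring
      _ ≤ 2 / β * (((n + 1 : ℕ) : ℝ) ^ β - (n : ℝ) ^ β) := by
          apply mul_le_mul_of_nonneg_right h6
          linarith

theorem LAT_sum (β : ℝ) (hβ : 0 < β) (hβ2 : β ≤ 2) (m : ℕ) :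
    ∑ n ∈ Finset.Icc 1 m, 8 * (n : ℝ) * (n : ℝ) ^ (β - 2) ≤ 16 / β * (m : ℝ) ^ β := by
  induction m with
  | zero => simp [Real.zero_rpow hβ.ne']
  | succ m ih =>
    rw [Finset.sum_Icc_succ_top (by omega)]
    have h := LAT_tele β hβ hβ2 m
    have e : 16 / β * ((m + 1 : ℕ) : ℝ) ^ β = 16 / β * (m : ℝ) ^ β +
        8 * (2 / β * (((m + 1 : ℕ) : ℝ) ^ β - (m : ℝ) ^ β)) := by ring
    rw [e]
    have : 8 * ((m + 1 : ℕ) : ℝ) * ((m + 1 : ℕ) : ℝ) ^ (β - 2) =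
      8 * (((m + 1 : ℕ) : ℝ) * ((m + 1 : ℕ) : ℝ) ^ (β - 2)) := by ring
    rw [this]
    linarith

theorem LAT_sum4 (m : ℕ) :
    ∑ n ∈ Finset.Icc 1 (m + 1), 8 * (n : ℝ) * (n : ℝ) ^ (-4 : ℝ) ≤ 16 - 8 / ((m : ℝ) + 1) := by
  induction m with
  | zero => norm_num
  | succ m ih =>
    rw [Finset.sum_Icc_succ_top (by omega)]
    have e : ((m + 1 + 1 : ℕ) : ℝ) ^ (-4 : ℝ) = 1 / ((m : ℝ) + 2) ^ 4 := by
      rw [Real.rpow_neg (by positivity)]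
      have : ((m + 1 + 1 : ℕ) : ℝ) = (m : ℝ) + 2 := by push_cast; ring
      rw [this]
      have : ((m : ℝ) + 2) ^ (4 : ℝ) = ((m : ℝ) + 2) ^ 4 := by
        exact_mod_cast Real.rpow_natCast ((m : ℝ) + 2) 4
      rw [this, one_div]
    rw [e]
    have hm : (0 : ℝ) ≤ m := by positivity
    have h1 : 8 * ((m + 1 + 1 : ℕ) : ℝ) * (1 / ((m : ℝ) + 2) ^ 4) ≤
        8 / ((m : ℝ) + 1) - 8 / (((m + 1 : ℕ) : ℝ) + 1) := by
      have e1 : ((m + 1 + 1 : ℕ) : ℝ) = (m : ℝ) + 2 := by push_cast; ring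
      have e2 : (((m + 1 : ℕ) : ℝ) + 1) = (m : ℝ) + 2 := by push_cast; ring
      rw [e1, e2]
      have e3 : 8 / ((m : ℝ) + 1) - 8 / ((m : ℝ) + 2) = 8 / (((m : ℝ) + 1) * ((m : ℝ) + 2)) := by
        field_simp
        ring
      have e4 : 8 * ((m : ℝ) + 2) * (1 / ((m : ℝ) + 2) ^ 4) = 8 / ((m : ℝ) + 2) ^ 3 := by
        field_simp
      rw [e3, e4]
      apply div_le_div_of_nonneg_left (by norm_num) (by positivity)
      nlinarith [sq_nonneg ((m : ℝ) + 1), mul_nonneg hm hm, mul_nonneg hm (mul_nonneg hm hm)]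
    linarith

theorem p_LAT : Stmt_LAT := by
  constructor
  · intro β R F hβ hβ2 hR hF
    have hmap : ∀ k ∈ F, LAT_N k ∈ Finset.Icc 1 ⌊R⌋₊ := by
      intro k hk
      obtain ⟨h1, h2⟩ := hF k hk
      rw [Finset.mem_Icc]
      refine ⟨LAT_N_pos k h1, ?_⟩
      exact Nat.le_floor ((LAT_N_le k).trans h2)
    calc ∑ k ∈ F, eu k ^ (β - 2) ≤ ∑ k ∈ F, ((LAT_N k : ℕ) : ℝ) ^ (β - 2) := by
          apply Finset.sum_le_sum
          intro k hk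
          have h1 : (0 : ℝ) < (LAT_N k : ℝ) := by
            exact_mod_cast LAT_N_pos k (hF k hk).1
          exact Real.rpow_le_rpow_of_nonpos h1 (LAT_N_le k) (by linarith)
      _ ≤ ∑ n ∈ Finset.Icc 1 ⌊R⌋₊, 8 * (n : ℝ) * (n : ℝ) ^ (β - 2) :=
          LAT_shell F (fun n => (n : ℝ) ^ (β - 2)) ⌊R⌋₊
            (fun n => Real.rpow_nonneg (Nat.cast_nonneg n) _) hmap
      _ ≤ 16 / β * ((⌊R⌋₊ : ℕ) : ℝ) ^ β := LAT_sum β hβ hβ2 _
      _ ≤ 16 / β * R ^ β := by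
          apply mul_le_mul_of_nonneg_left _ (by positivity)
          exact Real.rpow_le_rpow (Nat.cast_nonneg _) (Nat.floor_le hR) hβ.le
  · intro F hF
    set m : ℕ := F.sup LAT_N with hm
    have hmap : ∀ k ∈ F, LAT_N k ∈ Finset.Icc 1 (m + 1) := by
      intro k hk
      rw [Finset.mem_Icc]
      refine ⟨LAT_N_pos k (hF k hk), ?_⟩
      have : LAT_N k ≤ m := Finset.le_sup (f := LAT_N) hk
      omega
    calc ∑ k ∈ F, eu k ^ (-4 : ℝ) ≤ ∑ k ∈ F, ((LAT_N k : ℕ) : ℝ) ^ (-4 : ℝ) := by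
          apply Finset.sum_le_sum
          intro k hk
          have h1 : (0 : ℝ) < (LAT_N k : ℝ) := by
            exact_mod_cast LAT_N_pos k (hF k hk)
          exact Real.rpow_le_rpow_of_nonpos h1 (LAT_N_le k) (by norm_num)
      _ ≤ ∑ n ∈ Finset.Icc 1 (m + 1), 8 * (n : ℝ) * (n : ℝ) ^ (-4 : ℝ) :=
          LAT_shell F (fun n => (n : ℝ) ^ (-4 : ℝ)) (m + 1)
            (fun n => Real.rpow_nonneg (Nat.cast_nonneg n) _) hmap
      _ ≤ 16 - 8 / ((m : ℝ) + 1) := LAT_sum4 m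
      _ ≤ 16 := by
          have : 0 ≤ 8 / ((m : ℝ) + 1) := by positivity
          linarith

end Pool.SQGF
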