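import Pool.Agent.Work.MP_a2fcf1_an_fs.Interface

/-! # LLB: the gradient in terms of the norm of `H³` -/

set_option autoImplicit false

namespace Pool.SQGF

open Finset Set
open Pool.Agent.Work.MP_a2fcf1_an_h64 (cr sc eu n1 ex fc GloballyRegular eu_nonneg eu_pos)

noncomputable section

theorem LLB_card (M : ℕ) (hM : 1 ≤ M) (F : Finset (ℤ × ℤ)) (hF : ∀ k ∈ F, nq k = M) :
    F.card ≤ 9 * M := by
  classical
  have h1 : F.card ≤ ((Finset.Icc (-(M : ℤ)) M) ×ˢ (Finset.univ : Finset Bool)).card := by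
    refine Finset.card_le_card_of_injOn (fun k => (k.1, decide (0 ≤ k.2))) ?_ ?_
    · intro k hk
      have h := hF k hk
      unfold nq at h
      rw [Finset.mem_coe, Finset.mem_product, Finset.mem_Icc]
      have h2 : |k.1| ≤ (M : ℤ) := by
        have h3 : |k.1| ≤ k.1 ^ 2 := by
          rcases eq_or_ne k.1 0 with h0 | h0
          · rw [h0]
            simp
          · have h4 : 1 ≤ |k.1| := Int.one_le_abs h0
            rw [← sq_abs]
            nlinarith
        nlinarith [sq_nonneg k.2]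
      exact ⟨abs_le.mp h2, Finset.mem_univ _⟩
    · intro k hk k' hk' he
      have h := hF k hk
      have h' := hF k' hk'
      unfold nq at h h'
      simp only [Prod.mk.injEq, decide_eq_decide] at he
      obtain ⟨e1, e2⟩ := he
      refine Prod.ext e1 ?_
      rw [e1] at h
      have h3 : k.2 ^ 2 = k'.2 ^ 2 := by linarith
      rcases sq_eq_sq_iff_eq_or_eq_neg.mp h3 with h4 | h4
      · exact h4
      · by_cases h5 : 0 ≤ k.2
        · have := e2.mp h5
          omega
        · have : ¬ 0 ≤ k'.2 := fun h6 => h5 (e2.mpr h6)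
          omega
  rw [Finset.card_product, Int.card_Icc, Finset.card_univ, Fintype.card_bool] at h1
  have h2 : ((M : ℤ) + 1 - -(M : ℤ)).toNat = 2 * M + 1 := by omega
  rw [h2] at h1
  omega

theorem LLB_sq (k : ℤ × ℤ) : eu k ^ 2 = (nq k : ℝ) := by
  unfold Pool.Agent.Work.MP_a2fcf1_an_h64.eu nq
  rw [Real.sq_sqrt (by positivity)]
  push_cast
  ring

theorem LLB_first (M : ℕ) (A : ℝ) (B : Finset (ℤ × ℤ)) (x : ℤ × ℤ → ℂ) (hM : 1 ≤ M)
    (hA : 0 ≤ A) (hT : TT B x ≤ A ^ 2) :
    ∑ j ∈ B.filter (fun j => nq j = M), eu j * ‖x j‖ ≤ 3 * M * A := by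
  have hM0 : (0 : ℝ) ≤ M := Nat.cast_nonneg M
  refine (Real.sum_mul_le_sqrt_mul_sqrt _ _ _).trans ?_
  have h1 : ∑ j ∈ B.filter (fun j => nq j = M), eu j ^ 2 ≤ (3 * (M : ℝ)) ^ 2 := by
    have h2 : ∑ j ∈ B.filter (fun j => nq j = M), eu j ^ 2 =
        ∑ j ∈ B.filter (fun j => nq j = M), (M : ℝ) := by
      refine Finset.sum_congr rfl fun j hj => ?_
      rw [LLB_sq, (Finset.mem_filter.mp hj).2]
      norm_cast
    rw [h2, Finset.sum_const, nsmul_eq_mul]
    have h3 := LLB_card M hM (B.filter (fun j => nq j = M))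
      (fun k hk => (Finset.mem_filter.mp hk).2)
    have h4 : ((B.filter (fun j => nq j = M)).card : ℝ) ≤ 9 * M := by exact_mod_cast h3
    nlinarith
  have h2 : ∑ j ∈ B.filter (fun j => nq j = M), ‖x j‖ ^ 2 ≤ A ^ 2 := by
    refine le_trans ?_ hT
    exact Finset.sum_le_sum_of_subset_of_nonneg (Finset.filter_subset _ _)
      (fun _ _ _ => by positivity)
  calc _ ≤ √((3 * (M : ℝ)) ^ 2) * √(A ^ 2) :=
        mul_le_mul (Real.sqrt_le_sqrt h1) (Real.sqrt_le_sqrt h2) (Real.sqrt_nonneg _)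
          (Real.sqrt_nonneg _)
    _ = 3 * M * A := by rw [Real.sqrt_sq (by positivity), Real.sqrt_sq hA]

theorem p_LLB (h1 : Stmt_LAT) : Stmt_LLB := by
  intro M A R B x hM hA hFr hT
  have hB0 : ∀ k ∈ B, k ≠ 0 := by
    intro k hk h0
    have h := hFr.2 k hk
    rw [h0] at h
    unfold nq at h
    simp only [Prod.fst_zero, Prod.snd_zero] at h
    omega
  have hle : LL B x R ≤ ∑ j ∈ B, eu j * ‖x j‖ := by
    unfold LL
    refine Finset.sum_le_sum fun j _ => ?_
    split_ifs
    · exact le_rfl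
    · exact mul_nonneg (eu_nonneg j) (norm_nonneg _)
  have hsplit : ∑ j ∈ B, eu j * ‖x j‖ = ∑ j ∈ B.filter (fun j => nq j = M), eu j * ‖x j‖ +
      ∑ j ∈ B.filter (fun j => ¬ nq j = M), eu j * ‖x j‖ :=
    (Finset.sum_filter_add_sum_filter_not B _ _).symm
  have h2 : ∑ j ∈ B.filter (fun j => ¬ nq j = M), eu j * ‖x j‖ ≤ 4 * √(Y B M 3 x) := by
    have e1 : ∑ j ∈ B.filter (fun j => ¬ nq j = M), eu j * ‖x j‖ =
        ∑ j ∈ B.filter (fun j => ¬ nq j = M), eu j ^ (-2 : ℝ) * (eu j ^ (3 : ℝ) * ‖x j‖) := by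
      refine Finset.sum_congr rfl fun j hj => ?_
      have h3 := eu_pos (hB0 j (Finset.mem_filter.mp hj).1)
      rw [← mul_assoc, ← Real.rpow_add h3]
      norm_num
    rw [e1]
    refine (Real.sum_mul_le_sqrt_mul_sqrt _ _ _).trans ?_
    have h4 : ∑ j ∈ B.filter (fun j => ¬ nq j = M), (eu j ^ (-2 : ℝ)) ^ 2 ≤ 4 ^ 2 := by
      have h5 := h1.2 (B.filter (fun j => ¬ nq j = M))
        (fun k hk => hB0 k (Finset.mem_filter.mp hk).1)
      have e2 : ∑ j ∈ B.filter (fun j => ¬ nq j = M), (eu j ^ (-2 : ℝ)) ^ 2 =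
          ∑ j ∈ B.filter (fun j => ¬ nq j = M), eu j ^ (-4 : ℝ) := by
        refine Finset.sum_congr rfl fun j _ => ?_
        rw [← Real.rpow_natCast, ← Real.rpow_mul (eu_nonneg j)]
        norm_num
      rw [e2]
      linarith
    have h5 : ∑ j ∈ B.filter (fun j => ¬ nq j = M), (eu j ^ (3 : ℝ) * ‖x j‖) ^ 2 ≤
        Y B M 3 x := by
      unfold Y
      calc _ ≤ ∑ j ∈ B.filter (fun j => ¬ nq j = M), wt M 3 j * ‖x j‖ ^ 2 := by
            refine Finset.sum_le_sum fun j hj => ?_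
            obtain ⟨hj1, hj2⟩ := Finset.mem_filter.mp hj
            have h6 : (M : ℤ) < nq j := lt_of_le_of_ne (hFr.2 j hj1) (fun h => hj2 h.symm)
            unfold wt
            rw [if_pos h6, mul_pow, ← Real.rpow_natCast, ← Real.rpow_mul (eu_nonneg j)]
            refine le_of_eq ?_
            norm_num
        _ ≤ _ := by
            refine Finset.sum_le_sum_of_subset_of_nonneg (Finset.filter_subset _ _)
              (fun j _ _ => ?_)
            refine mul_nonneg ?_ (by positivity)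
            unfold wt
            split_ifs
            · exact Real.rpow_nonneg (eu_nonneg j) _
            · exact le_rfl
    calc _ ≤ √((4 : ℝ) ^ 2) * √(Y B M 3 x) :=
          mul_le_mul (Real.sqrt_le_sqrt h4) (Real.sqrt_le_sqrt h5) (Real.sqrt_nonneg _)
            (Real.sqrt_nonneg _)
      _ = 4 * √(Y B M 3 x) := by rw [Real.sqrt_sq (by norm_num)]
  have h3 := LLB_first M A B x hM hA hT
  linarith

end

end Pool.SQGF
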