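import Pool.Agent.Work.MP_a2fcf1_an_fs.Interface

/-! # Block PHI: the weight of a triad (helper34) -/

set_option autoImplicit false

namespace Pool.SQGF

open Finset Set
open Pool.Agent.Work.MP_a2fcf1_an_h64 (cr sc eu n1 ex fc GloballyRegular)
open Pool.Agent.Work.MP_a2fcf1_an_h64

theorem PHI_nq (k : ℤ × ℤ) : (nq k : ℝ) = eu k ^ 2 := by
  unfold nq eu
  rw [Real.sq_sqrt (by positivity)]
  push_cast
  ring

theorem PHI_nq_le {a b : ℤ × ℤ} (h : eu a ≤ eu b) : nq a ≤ nq b := by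
  have h1 : (nq a : ℝ) ≤ nq b := by
    rw [PHI_nq, PHI_nq]
    exact pow_le_pow_left₀ (eu_nonneg a) h 2
  exact_mod_cast h1

theorem PHI_gg_nonneg (M : ℕ) (s : ℝ) (a b c : ℤ × ℤ) : 0 ≤ gg M s a b c := by
  unfold gg
  split_ifs
  · have := eu_nonneg a
    have := eu_nonneg b
    have := eu_nonneg c
    positivity
  · exact le_rfl

theorem PHI_gg_comm (M : ℕ) (s : ℝ) (a b c : ℤ × ℤ) : gg M s a b c = gg M s a c b := by
  unfold gg
  by_cases h : eu a ≤ eu b ∧ eu a ≤ eu c ∧ (M : ℤ) < nq b ∧ (M : ℤ) < nq c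
  · rw [if_pos h, if_pos ⟨h.2.1, h.1, h.2.2.2, h.2.2.1⟩]
    ring
  · rw [if_neg h, if_neg (fun h' => h ⟨h'.2.1, h'.1, h'.2.2.2, h'.2.2.1⟩)]

/-- the real inequality -/
theorem PHI_core (s p q r P C : ℝ) (hs : 1 / 2 ≤ s) (hp : 0 < p) (hpq : p ≤ q) (hqr : q ≤ r)
    (hr : r ≤ p + q) (hP0 : 0 ≤ P) (hPq : P ≤ q ^ (2 * s)) (hC : |C| ≤ p * q) :
    |C * (r ^ (2 * s) * (1 / p - 1 / q) + P * (1 / q - 1 / r) + q ^ (2 * s) * (1 / r - 1 / p))| ≤
      (2 * s + 2) * 2 ^ s * (p * q ^ s * r ^ s) := by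
  have hq : 0 < q := by linarith
  have hr0 : 0 < r := by linarith
  set R : ℝ := r ^ (2 * s) with hR
  set Q : ℝ := q ^ (2 * s) with hQ
  have hR0 : 0 < R := by positivity
  have hQ0 : 0 < Q := by positivity
  have hQR : Q ≤ R := Real.rpow_le_rpow hq.le hqr (by linarith)
  -- Bernoulli
  have hB : R - Q ≤ 2 * s * ((r - q) / r) * R := by
    have h1 := one_add_mul_self_le_rpow_one_add (s := q / r - 1) (p := 2 * s)
      (by have : 0 < q / r := by positivity
          linarith) (by linarith)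
    have h2 : 1 + (q / r - 1) = q / r := by ring
    rw [h2, Real.div_rpow hq.le hr0.le, ← hQ, ← hR, le_div_iff₀ hR0] at h1
    have h3 : q / r - 1 = -((r - q) / r) := by
      field_simp
      ring
    rw [h3] at h1
    nlinarith
  have e1 : q * (R - Q) ≤ 2 * s * p * R := by
    have h1 := mul_le_mul_of_nonneg_left hB hq.le
    refine h1.trans ?_
    have h2 : q * (2 * s * ((r - q) / r) * R) = 2 * s * ((q / r) * (r - q)) * R := by
      field_simp
    rw [h2]
    have h3 : (q / r) * (r - q) ≤ 1 * p := by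
      refine mul_le_mul ?_ (by linarith) (by linarith) (by norm_num)
      rw [div_le_one hr0]
      exact hqr
    rw [one_mul] at h3
    have h4 : 2 * s * ((q / r) * (r - q)) ≤ 2 * s * p :=
      mul_le_mul_of_nonneg_left h3 (by linarith)
    exact mul_le_mul_of_nonneg_right h4 hR0.le
  have e1' : 0 ≤ q * (R - Q) := mul_nonneg hq.le (by linarith)
  have e2 : p * (R - P) ≤ p * R := mul_le_mul_of_nonneg_left (by linarith) hp.le
  have e2' : 0 ≤ p * (R - P) := mul_nonneg hp.le (by linarith)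
  have e3 : p * (q / r) * (Q - P) ≤ p * R := by
    have h1 : p * (q / r) ≤ p * 1 := by
      refine mul_le_mul_of_nonneg_left ?_ hp.le
      rw [div_le_one hr0]
      exact hqr
    rw [mul_one] at h1
    exact mul_le_mul h1 (by linarith) (by linarith) hp.le
  have e3' : 0 ≤ p * (q / r) * (Q - P) := mul_nonneg (by positivity) (by linarith)
  have hD : p * q * (R * (1 / p - 1 / q) + P * (1 / q - 1 / r) + Q * (1 / r - 1 / p)) =
      q * (R - Q) - p * (R - P) + p * (q / r) * (Q - P) := by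
    field_simp
    ring
  have hbd : p * q * |R * (1 / p - 1 / q) + P * (1 / q - 1 / r) + Q * (1 / r - 1 / p)| ≤
      (2 * s + 2) * p * R := by
    have hpq0 : 0 < p * q := by positivity
    rw [← abs_of_pos hpq0, ← abs_mul, hD, abs_le]
    constructor <;> nlinarith
  have hRR : R ≤ 2 ^ s * q ^ s * r ^ s := by
    have h1 : R = r ^ s * r ^ s := by
      rw [hR, two_mul, Real.rpow_add hr0]
    rw [h1, ← Real.mul_rpow (by norm_num) hq.le]
    refine mul_le_mul_of_nonneg_right ?_ (by positivity)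
    exact Real.rpow_le_rpow hr0.le (by linarith) (by linarith)
  rw [abs_mul]
  calc |C| * |R * (1 / p - 1 / q) + P * (1 / q - 1 / r) + Q * (1 / r - 1 / p)|
      ≤ p * q * |R * (1 / p - 1 / q) + P * (1 / q - 1 / r) + Q * (1 / r - 1 / p)| :=
        mul_le_mul_of_nonneg_right hC (abs_nonneg _)
    _ ≤ (2 * s + 2) * p * R := hbd
    _ ≤ (2 * s + 2) * p * (2 ^ s * q ^ s * r ^ s) :=
        mul_le_mul_of_nonneg_left hRR (by positivity)
    _ = (2 * s + 2) * 2 ^ s * (p * q ^ s * r ^ s) := by ring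

/-- three frequencies with increasing lengths -/
theorem PHI_sorted (M : ℕ) (s C : ℝ) (a b c : ℤ × ℤ) (hM : 1 ≤ M) (hs : 1 / 2 ≤ s)
    (ha : (M : ℤ) ≤ nq a) (hab : eu a ≤ eu b) (hbc : eu b ≤ eu c) (htri : eu c ≤ eu a + eu b)
    (hC : |C| ≤ eu a * eu b) :
    |C * (wt M s c * (1 / eu a - 1 / eu b) + wt M s a * (1 / eu b - 1 / eu c) +
      wt M s b * (1 / eu c - 1 / eu a))| ≤ (2 * s + 2) * 2 ^ s * gg M s a b c := by
  have hK : 0 ≤ (2 * s + 2) * (2 : ℝ) ^ s := by positivity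
  have ha0 : 0 < eu a := by
    have h1 : (0 : ℝ) < eu a ^ 2 := by
      rw [← PHI_nq]
      have : 0 < nq a := by omega
      exact_mod_cast this
    exact (sq_pos_iff.mp h1).lt_of_le' (eu_nonneg a)
  by_cases hb : (M : ℤ) < nq b
  · have hc : (M : ℤ) < nq c := lt_of_lt_of_le hb (PHI_nq_le hbc)
    have h1 : wt M s c = eu c ^ (2 * s) := by
      unfold wt
      rw [if_pos hc]
    have h2 : wt M s b = eu b ^ (2 * s) := by
      unfold wt
      rw [if_pos hb]
    have h3 : 0 ≤ wt M s a ∧ wt M s a ≤ eu b ^ (2 * s) := by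
      unfold wt
      have hb0 : 0 ≤ eu b := eu_nonneg b
      split_ifs
      · exact ⟨by positivity, Real.rpow_le_rpow ha0.le hab (by linarith)⟩
      · exact ⟨le_rfl, by positivity⟩
    have h4 : gg M s a b c = eu a * eu b ^ s * eu c ^ s := by
      unfold gg
      rw [if_pos ⟨hab, hab.trans hbc, hb, hc⟩]
    rw [h1, h2, h4]
    exact PHI_core s (eu a) (eu b) (eu c) (wt M s a) C hs ha0 hab hbc htri h3.1 h3.2 hC
  · have h1 : nq a ≤ nq b := PHI_nq_le hab
    have h2 : nq a = nq b := by omega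
    have h3 : eu a = eu b := by
      have h4 : eu a ^ 2 = eu b ^ 2 := by
        rw [← PHI_nq, ← PHI_nq, h2]
      exact (pow_left_inj₀ (eu_nonneg a) (eu_nonneg b) (by norm_num)).mp h4
    have h4 : wt M s b = 0 := by
      unfold wt
      rw [if_neg hb]
    have h5 : wt M s a = 0 := by
      unfold wt
      rw [if_neg (by omega)]
    rw [h4, h5, h3]
    simp only [sub_self, mul_zero, zero_mul, add_zero, abs_zero]
    exact mul_nonneg hK (PHI_gg_nonneg _ _ _ _ _)

theorem p_PHI : Stmt_PHI := by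
  intro M s j l hM hs hj hl hjl
  set x : ℝ := eu j with hx
  set y : ℝ := eu l with hy
  set z : ℝ := eu (j + l) with hz
  have hK : 0 ≤ (2 * s + 2) * (2 : ℝ) ^ s := by positivity
  have g1 := PHI_gg_nonneg M s j l (j + l)
  have g2 := PHI_gg_nonneg M s l j (j + l)
  have g3 := PHI_gg_nonneg M s (j + l) j l
  have k1 := mul_nonneg hK g1
  have k2 := mul_nonneg hK g2
  have k3 := mul_nonneg hK g3
  have t1 : z ≤ x + y := eu_add_le j l
  have t2 := abs_le.mp (abs_eu_sub_le j l)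
  have c1 : |(cr j l : ℝ)| ≤ x * y := abs_cr_le_eu j l
  have c2 : |(cr j l : ℝ)| ≤ x * z := by
    have h := abs_cr_le_eu j (j + l)
    rwa [cr_add_right, cr_self, zero_add] at h
  have c3 : |(cr j l : ℝ)| ≤ z * y := by
    have h := abs_cr_le_eu (j + l) l
    rwa [cr_add_left, cr_self, add_zero] at h
  have expand : (2 * s + 2) * (2 : ℝ) ^ s *
      (gg M s j l (j + l) + gg M s l j (j + l) + gg M s (j + l) j l) =
      (2 * s + 2) * (2 : ℝ) ^ s * gg M s j l (j + l) +
      (2 * s + 2) * (2 : ℝ) ^ s * gg M s l j (j + l) +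
      (2 * s + 2) * (2 : ℝ) ^ s * gg M s (j + l) j l := by ring
  rw [expand]
  unfold Ph
  rw [← hx, ← hy, ← hz]
  rcases le_total x y with h1 | h1 <;> rcases le_total y z with h2 | h2 <;>
    rcases le_total x z with h3 | h3
  · -- x ≤ y ≤ z
    have h := PHI_sorted M s (cr j l : ℝ) j l (j + l) hM hs hj h1 h2 t1 c1
    linarith
  · -- x ≤ y ≤ z ≤ x
    have h := PHI_sorted M s (cr j l : ℝ) j l (j + l) hM hs hj h1 h2 t1 c1
    linarith
  · -- x ≤ z ≤ y
    have h := PHI_sorted M s (cr j l : ℝ) j (j + l) l hM hs hj h3 h2 (by linarith) c2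
    rw [PHI_gg_comm M s j (j + l) l, ← hx, ← hy, ← hz] at h
    have e : (cr j l : ℝ) * (wt M s l * (1 / x - 1 / z) + wt M s j * (1 / z - 1 / y) +
        wt M s (j + l) * (1 / y - 1 / x)) =
        -((cr j l : ℝ) * (wt M s (j + l) * (1 / x - 1 / y) + wt M s j * (1 / y - 1 / z) +
        wt M s l * (1 / z - 1 / x))) := by ring
    rw [e, abs_neg] at h
    linarith
  · -- z ≤ x ≤ y
    have h := PHI_sorted M s (cr j l : ℝ) (j + l) j l hM hs hjl h3 h1 (by linarith)
      (by rw [mul_comm]; exact c2)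
    rw [← hx, ← hy, ← hz] at h
    have e : (cr j l : ℝ) * (wt M s l * (1 / z - 1 / x) + wt M s (j + l) * (1 / x - 1 / y) +
        wt M s j * (1 / y - 1 / z)) =
        (cr j l : ℝ) * (wt M s (j + l) * (1 / x - 1 / y) + wt M s j * (1 / y - 1 / z) +
        wt M s l * (1 / z - 1 / x)) := by ring
    rw [e] at h
    linarith
  · -- y ≤ x, y ≤ z, x ≤ z
    have h := PHI_sorted M s (cr j l : ℝ) l j (j + l) hM hs hl h1 h3 (by linarith)
      (by rw [mul_comm]; exact c1)
    rw [← hx, ← hy, ← hz] at h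
    have e : (cr j l : ℝ) * (wt M s (j + l) * (1 / y - 1 / x) + wt M s l * (1 / x - 1 / z) +
        wt M s j * (1 / z - 1 / y)) =
        -((cr j l : ℝ) * (wt M s (j + l) * (1 / x - 1 / y) + wt M s j * (1 / y - 1 / z) +
        wt M s l * (1 / z - 1 / x))) := by ring
    rw [e, abs_neg] at h
    linarith
  · -- y ≤ z ≤ x
    have h := PHI_sorted M s (cr j l : ℝ) l (j + l) j hM hs hl h2 h3 (by linarith)
      (by rw [mul_comm]; exact c3)
    rw [PHI_gg_comm M s l (j + l) j, ← hx, ← hy, ← hz] at h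
    have e : (cr j l : ℝ) * (wt M s j * (1 / y - 1 / z) + wt M s l * (1 / z - 1 / x) +
        wt M s (j + l) * (1 / x - 1 / y)) =
        (cr j l : ℝ) * (wt M s (j + l) * (1 / x - 1 / y) + wt M s j * (1 / y - 1 / z) +
        wt M s l * (1 / z - 1 / x)) := by ring
    rw [e] at h
    linarith
  · -- z ≤ y ≤ x, x ≤ z: all equal
    have h := PHI_sorted M s (cr j l : ℝ) (j + l) l j hM hs hjl h2 h1 (by linarith) c3
    rw [PHI_gg_comm M s (j + l) l j, ← hx, ← hy, ← hz] at h
    have e : (cr j l : ℝ) * (wt M s j * (1 / z - 1 / y) + wt M s (j + l) * (1 / y - 1 / x) +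
        wt M s l * (1 / x - 1 / z)) =
        -((cr j l : ℝ) * (wt M s (j + l) * (1 / x - 1 / y) + wt M s j * (1 / y - 1 / z) +
        wt M s l * (1 / z - 1 / x))) := by ring
    rw [e, abs_neg] at h
    linarith
  · -- z ≤ y ≤ x
    have h := PHI_sorted M s (cr j l : ℝ) (j + l) l j hM hs hjl h2 h1 (by linarith) c3
    rw [PHI_gg_comm M s (j + l) l j, ← hx, ← hy, ← hz] at h
    have e : (cr j l : ℝ) * (wt M s j * (1 / z - 1 / y) + wt M s (j + l) * (1 / y - 1 / x) +
        wt M s l * (1 / x - 1 / z)) =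
        -((cr j l : ℝ) * (wt M s (j + l) * (1 / x - 1 / y) + wt M s j * (1 / y - 1 / z) +
        wt M s l * (1 / z - 1 / x))) := by ring
    rw [e, abs_neg] at h
    linarith

end Pool.SQGF
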