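import Pool.Agent.Work.MP_a2fcf1_an_fs.Interface

/-! Block REW (helper75) -/

set_option autoImplicit false

namespace Pool.SQGF

open Finset Set
open Pool.Agent.Work.MP_a2fcf1_an_h64 (cr sc eu n1 ex fc GloballyRegular)

theorem p_REW : Stmt_REW := by
  intro B x w hS hA
  obtain ⟨h0, hc⟩ := hA
  have h0' : ∀ k, k ∉ B → x (-k) = 0 := fun k hk => h0 _ fun h => hk (by
    have := hS _ h
    rwa [neg_neg] at this)
  have e1 : Sw B w x = ∑ k ∈ B, ∑ j ∈ B, w k * sc j (k - j) * (x j * x (k - j) * x (-k)).re := by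
    unfold Sw NB
    refine Finset.sum_congr rfl fun k _ => ?_
    rw [← hc k, Finset.mul_sum, Complex.re_sum, Finset.mul_sum]
    refine Finset.sum_congr rfl fun j _ => ?_
    have : x (-k) * (((sc j (k - j) : ℝ) : ℂ) * (x j * x (k - j))) =
        ((sc j (k - j) : ℝ) : ℂ) * (x j * x (k - j) * x (-k)) := by ring
    rw [this, Complex.re_ofReal_mul]
    ring
  rw [e1, Finset.sum_comm]
  refine Finset.sum_congr rfl fun j _ => ?_
  have e2 : ∑ k ∈ B, w k * sc j (k - j) * (x j * x (k - j) * x (-k)).re =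
      ∑' k, w k * sc j (k - j) * (x j * x (k - j) * x (-k)).re := by
    refine (tsum_eq_sum fun k hk => ?_).symm
    rw [h0' k hk, mul_zero, Complex.zero_re, mul_zero]
  have e3 : ∑ l ∈ B, w (j + l) * sc j l * (x j * x l * x (-(j + l))).re =
      ∑' l, w (j + l) * sc j l * (x j * x l * x (-(j + l))).re := by
    refine (tsum_eq_sum fun l hl => ?_).symm
    rw [h0 l hl, mul_zero, zero_mul, Complex.zero_re, mul_zero]
  rw [e2, e3, ← (Equiv.addLeft j).tsum_eq]
  refine tsum_congr fun l => ?_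
  rw [Equiv.coe_addLeft, add_sub_cancel_left]

end Pool.SQGF
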