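import Pool.Agent.Work.MP_a2fcf1_an_fs.Interface

/-! # Block SB: bound of the transfer (helper34) -/

set_option autoImplicit false

namespace Pool.SQGF

open Finset Set
open Pool.Agent.Work.MP_a2fcf1_an_h64 (cr sc eu n1 ex fc GloballyRegular)
open Pool.Agent.Work.MP_a2fcf1_an_h64

theorem SB_nq_neg (k : ℤ × ℤ) : nq (-k) = nq k := by
  unfold nq
  simp

theorem SB_wt_neg (M : ℕ) (s : ℝ) (k : ℤ × ℤ) : wt M s (-k) = wt M s k := by
  unfold wt
  rw [SB_nq_neg, eu_neg]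

theorem SB_gg_nonneg (M : ℕ) (s : ℝ) (a b c : ℤ × ℤ) : 0 ≤ gg M s a b c := by
  unfold gg
  split_ifs
  · have := eu_nonneg a
    have := eu_nonneg b
    have := eu_nonneg c
    positivity
  · exact le_rfl

theorem SB_gg_comm (M : ℕ) (s : ℝ) (a b c : ℤ × ℤ) : gg M s a b c = gg M s a c b := by
  unfold gg
  by_cases h : eu a ≤ eu b ∧ eu a ≤ eu c ∧ (M : ℤ) < nq b ∧ (M : ℤ) < nq c
  · rw [if_pos h, if_pos ⟨h.2.1, h.1, h.2.2.2, h.2.2.1⟩]
    ring
  · rw [if_neg h, if_neg (fun h' => h ⟨h'.2.1, h'.1, h'.2.2.2, h'.2.2.1⟩)]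

theorem SB_gg_neg (M : ℕ) (s : ℝ) (a b c : ℤ × ℤ) : gg M s (-a) b (-c) = gg M s a b c := by
  unfold gg
  rw [SB_nq_neg, eu_neg, eu_neg]

theorem SB_norm_neg {B : Finset (ℤ × ℤ)} {x : ℤ × ℤ → ℂ} (hx : Adm B x) (k : ℤ × ℤ) :
    ‖x (-k)‖ = ‖x k‖ := by
  rw [hx.2 k, Complex.norm_conj]

/-- the pairs of a triad -/
def SB_P (B : Finset (ℤ × ℤ)) : Finset ((ℤ × ℤ) × (ℤ × ℤ)) :=
  (B ×ˢ B).filter (fun p => p.1 + p.2 ∈ B)

theorem SB_memP {B : Finset (ℤ × ℤ)} {p : (ℤ × ℤ) × (ℤ × ℤ)} :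
    p ∈ SB_P B ↔ (p.1 ∈ B ∧ p.2 ∈ B) ∧ p.1 + p.2 ∈ B := by
  unfold SB_P
  rw [Finset.mem_filter, Finset.mem_product]

/-- swapping -/
theorem SB_swap (B : Finset (ℤ × ℤ)) (f : (ℤ × ℤ) → (ℤ × ℤ) → ℝ) :
    ∑ p ∈ SB_P B, f p.2 p.1 = ∑ p ∈ SB_P B, f p.1 p.2 := by
  refine Finset.sum_nbij' (fun p => (p.2, p.1)) (fun p => (p.2, p.1)) ?_ ?_ ?_ ?_ ?_
  · intro p hp
    rw [SB_memP] at hp ⊢
    exact ⟨⟨hp.1.2, hp.1.1⟩, by rw [add_comm]; exact hp.2⟩
  · intro p hp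
    rw [SB_memP] at hp ⊢
    exact ⟨⟨hp.1.2, hp.1.1⟩, by rw [add_comm]; exact hp.2⟩
  · intro p _; rfl
  · intro p _; rfl
  · intro p _; rfl

/-- `(j, l) -> (-(j + l), l)` -/
theorem SB_rot (B : Finset (ℤ × ℤ)) (hB : Sym B) (f : (ℤ × ℤ) → (ℤ × ℤ) → ℝ) :
    ∑ p ∈ SB_P B, f (-(p.1 + p.2)) p.2 = ∑ p ∈ SB_P B, f p.1 p.2 := by
  have hmem : ∀ p ∈ SB_P B, ((-(p.1 + p.2), p.2) : (ℤ × ℤ) × (ℤ × ℤ)) ∈ SB_P B := by
    intro p hp
    rw [SB_memP] at hp ⊢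
    refine ⟨⟨hB _ hp.2, hp.1.2⟩, ?_⟩
    have h : -(p.1 + p.2) + p.2 = -p.1 := by abel
    simp only
    rw [h]
    exact hB _ hp.1.1
  refine Finset.sum_nbij' (fun p => (-(p.1 + p.2), p.2)) (fun p => (-(p.1 + p.2), p.2))
    hmem hmem ?_ ?_ ?_
  · intro p _
    refine Prod.ext ?_ rfl
    simp only
    abel
  · intro p _
    refine Prod.ext ?_ rfl
    simp only
    abel
  · intro p _; rfl

/-- `(j, l) -> (-j, j + l)` -/
theorem SB_flip (B : Finset (ℤ × ℤ)) (hB : Sym B) (f : (ℤ × ℤ) → (ℤ × ℤ) → ℝ) :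
    ∑ p ∈ SB_P B, f (-p.1) (p.1 + p.2) = ∑ p ∈ SB_P B, f p.1 p.2 := by
  have hmem : ∀ p ∈ SB_P B, ((-p.1, p.1 + p.2) : (ℤ × ℤ) × (ℤ × ℤ)) ∈ SB_P B := by
    intro p hp
    rw [SB_memP] at hp ⊢
    refine ⟨⟨hB _ hp.1.1, hp.2⟩, ?_⟩
    have h : -p.1 + (p.1 + p.2) = p.2 := by abel
    simp only
    rw [h]
    exact hp.1.2
  refine Finset.sum_nbij' (fun p => (-p.1, p.1 + p.2)) (fun p => (-p.1, p.1 + p.2))
    hmem hmem ?_ ?_ ?_
  · intro p _
    refine Prod.ext ?_ ?_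
    · simp only
      abel
    · simp only
      abel
  · intro p _
    refine Prod.ext ?_ ?_
    · simp only
      abel
    · simp only
      abel
  · intro p _; rfl

theorem p_SB (hTRI : Stmt_TRI) (hPHI : Stmt_PHI) : Stmt_SB := by
  intro M s B x hM hs hFr hx
  obtain ⟨hSym, hBM⟩ := hFr
  set K : ℝ := (2 * s + 2) * 2 ^ s with hK
  have hK0 : 0 ≤ K := by positivity
  set N : ℤ × ℤ → ℝ := fun k => ‖x k‖ with hN
  have hN0 : ∀ k, 0 ≤ N k := fun k => norm_nonneg _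
  have hNneg : ∀ k, N (-k) = N k := fun k => SB_norm_neg hx k
  -- the sum over the triads with smallest member `j`
  set T : ℤ × ℤ → ℤ × ℤ → ℤ × ℤ → ℝ := fun a b c => gg M s a b c * (N a * N b * N c) with hT
  set S1 : ℝ := ∑ p ∈ SB_P B, T p.1 p.2 (p.1 + p.2) with hS1
  have hS2 : ∑ p ∈ SB_P B, T p.2 p.1 (p.1 + p.2) = S1 := by
    rw [hS1]
    have h := SB_swap B (fun a b => T a b (a + b))
    rw [← h]
    refine Finset.sum_congr rfl fun p _ => ?_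
    rw [add_comm p.1 p.2]
  have hS3 : ∑ p ∈ SB_P B, T (p.1 + p.2) p.1 p.2 = S1 := by
    rw [hS1]
    have h := SB_rot B hSym (fun a b => T a b (a + b))
    rw [← h]
    refine Finset.sum_congr rfl fun p _ => ?_
    simp only [hT]
    have e : -(p.1 + p.2) + p.2 = -p.1 := by abel
    rw [e, SB_gg_neg, hNneg, hNneg, SB_gg_comm M s (p.1 + p.2) p.1 p.2]
    ring
  -- step 1
  have hstep1 : |Sw B (wt M s) x| ≤ K / 2 * S1 := by
    rw [hTRI B x (wt M s) hSym hx (SB_wt_neg M s)]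
    rw [← Finset.sum_product' (f := fun j l => (cr j l : ℝ) * Ph (wt M s) j l *
      (x j * x l * x (-(j + l))).re)]
    have h1 : ∑ p ∈ B ×ˢ B, (cr p.1 p.2 : ℝ) * Ph (wt M s) p.1 p.2 *
        (x p.1 * x p.2 * x (-(p.1 + p.2))).re =
        ∑ p ∈ SB_P B, (cr p.1 p.2 : ℝ) * Ph (wt M s) p.1 p.2 *
        (x p.1 * x p.2 * x (-(p.1 + p.2))).re := by
      unfold SB_P
      rw [Finset.sum_filter]
      refine Finset.sum_congr rfl fun p _ => ?_
      split_ifs with h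
      · rfl
      · have h2 : x (-(p.1 + p.2)) = 0 := by
          rw [hx.2, hx.1 _ h, map_zero]
        rw [h2, mul_zero, Complex.zero_re, mul_zero]
    rw [h1, abs_mul, abs_of_pos (by norm_num : (0 : ℝ) < 1 / 6)]
    have h2 : |∑ p ∈ SB_P B, (cr p.1 p.2 : ℝ) * Ph (wt M s) p.1 p.2 *
        (x p.1 * x p.2 * x (-(p.1 + p.2))).re| ≤
        ∑ p ∈ SB_P B, K * (T p.1 p.2 (p.1 + p.2) + T p.2 p.1 (p.1 + p.2) +
          T (p.1 + p.2) p.1 p.2) := by
      refine (Finset.abs_sum_le_sum_abs _ _).trans (Finset.sum_le_sum fun p hp => ?_)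
      rw [SB_memP] at hp
      have h3 := hPHI M s p.1 p.2 hM hs (hBM _ hp.1.1) (hBM _ hp.1.2) (hBM _ hp.2)
      have h4 : |(x p.1 * x p.2 * x (-(p.1 + p.2))).re| ≤ N p.1 * N p.2 * N (p.1 + p.2) := by
        refine (Complex.abs_re_le_norm _).trans (le_of_eq ?_)
        rw [norm_mul, norm_mul, SB_norm_neg hx]
      rw [abs_mul]
      refine (mul_le_mul h3 h4 (abs_nonneg _) ?_).trans (le_of_eq ?_)
      · have g1 := SB_gg_nonneg M s p.1 p.2 (p.1 + p.2)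
        have g2 := SB_gg_nonneg M s p.2 p.1 (p.1 + p.2)
        have g3 := SB_gg_nonneg M s (p.1 + p.2) p.1 p.2
        positivity
      · simp only [hT]
        ring
    rw [← Finset.mul_sum, Finset.sum_add_distrib, Finset.sum_add_distrib, hS2, hS3, ← hS1] at h2
    linarith
  -- step 2
  set c : ℤ × ℤ → ℤ × ℤ → ℝ := fun j l =>
    if eu j ≤ eu l ∧ eu j ≤ eu (j + l) ∧ (M : ℤ) < nq l ∧ (M : ℤ) < nq (j + l) then 1 else 0
    with hc
  set F : ℝ := ∑ p ∈ SB_P B, c p.1 p.2 * (eu p.1 * N p.1) * (eu p.2 ^ (2 * s) * N p.2 ^ 2)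
    with hF
  have hsq : ∀ k : ℤ × ℤ, (eu k ^ s * N k) ^ 2 = eu k ^ (2 * s) * N k ^ 2 := by
    intro k
    rw [mul_pow, ← Real.rpow_natCast (eu k ^ s) 2, ← Real.rpow_mul (eu_nonneg k)]
    congr 2
    push_cast
    ring
  have hstep2 : S1 ≤ F := by
    have h1 : ∑ p ∈ SB_P B, c p.1 p.2 * (eu p.1 * N p.1) *
        (eu (p.1 + p.2) ^ (2 * s) * N (p.1 + p.2) ^ 2) = F := by
      rw [hF]
      have h := SB_flip B hSym (fun a b => c a b * (eu a * N a) * (eu b ^ (2 * s) * N b ^ 2))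
      rw [← h]
      refine Finset.sum_congr rfl fun p _ => ?_
      have e : -p.1 + (p.1 + p.2) = p.2 := by abel
      have h2 : c (-p.1) (p.1 + p.2) = c p.1 p.2 := by
        simp only [hc]
        rw [e, eu_neg]
        by_cases h : eu p.1 ≤ eu p.2 ∧ eu p.1 ≤ eu (p.1 + p.2) ∧ (M : ℤ) < nq p.2 ∧
          (M : ℤ) < nq (p.1 + p.2)
        · rw [if_pos h, if_pos ⟨h.2.1, h.1, h.2.2.2, h.2.2.1⟩]
        · rw [if_neg h, if_neg (fun h' => h ⟨h'.2.1, h'.1, h'.2.2.2, h'.2.2.1⟩)]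
      rw [h2, eu_neg, hNneg]
    have h2 : S1 ≤ ∑ p ∈ SB_P B, (1 / 2 * (c p.1 p.2 * (eu p.1 * N p.1) *
        (eu p.2 ^ (2 * s) * N p.2 ^ 2)) + 1 / 2 * (c p.1 p.2 * (eu p.1 * N p.1) *
        (eu (p.1 + p.2) ^ (2 * s) * N (p.1 + p.2) ^ 2))) := by
      rw [hS1]
      refine Finset.sum_le_sum fun p _ => ?_
      simp only [hT, hc]
      unfold gg
      split_ifs with h
      · rw [← hsq, ← hsq]
        have h3 := sq_nonneg (eu p.2 ^ s * N p.2 - eu (p.1 + p.2) ^ s * N (p.1 + p.2))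
        have h4 : 0 ≤ eu p.1 * N p.1 := mul_nonneg (eu_nonneg _) (hN0 _)
        have h5 := mul_nonneg h4 h3
        nlinarith
      · simp
    rw [Finset.sum_add_distrib, ← Finset.mul_sum, ← Finset.mul_sum, ← hF, h1] at h2
    linarith
  have hstep3 : F ≤ ∑ l ∈ B, wt M s l * ‖x l‖ ^ 2 * LL B x (eu l) := by
    have h1 : F ≤ ∑ p ∈ B ×ˢ B, (if eu p.1 ≤ eu p.2 then eu p.1 * N p.1 else 0) *
        (wt M s p.2 * N p.2 ^ 2) := by
      rw [hF]
      unfold SB_P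
      rw [Finset.sum_filter]
      refine Finset.sum_le_sum fun p _ => ?_
      have h2 : 0 ≤ (if eu p.1 ≤ eu p.2 then eu p.1 * N p.1 else 0) *
          (wt M s p.2 * N p.2 ^ 2) := by
        refine mul_nonneg ?_ (mul_nonneg ?_ (by positivity))
        · split_ifs
          · exact mul_nonneg (eu_nonneg _) (hN0 _)
          · exact le_rfl
        · unfold wt
          have := eu_nonneg p.2
          split_ifs
          · positivity
          · exact le_rfl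
      by_cases h : p.1 + p.2 ∈ B
      · rw [if_pos h]
        by_cases h' : eu p.1 ≤ eu p.2 ∧ eu p.1 ≤ eu (p.1 + p.2) ∧ (M : ℤ) < nq p.2 ∧
          (M : ℤ) < nq (p.1 + p.2)
        · have hcv : c p.1 p.2 = 1 := if_pos h'
          have h4 : wt M s p.2 = eu p.2 ^ (2 * s) := by
            unfold wt
            rw [if_pos h'.2.2.1]
          rw [hcv, h4, if_pos h'.1]
          linarith
        · have hcv : c p.1 p.2 = 0 := if_neg h'
          rw [hcv, zero_mul, zero_mul]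
          exact h2
      · rw [if_neg h]
        exact h2
    refine h1.trans (le_of_eq ?_)
    rw [Finset.sum_product_right]
    refine Finset.sum_congr rfl fun l _ => ?_
    unfold LL
    simp only [hN]
    rw [← Finset.sum_mul, mul_comm]
  have hfin : K / 2 = (s + 1) * 2 ^ s := by
    rw [hK]
    ring
  rw [← hfin]
  refine hstep1.trans (mul_le_mul_of_nonneg_left (hstep2.trans hstep3) (by positivity))

end Pool.SQGF
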