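import Pool.Agent.Work.MP_a2fcf1_an_fs.Interface

set_option autoImplicit false

namespace Pool.SQGF

open Finset Set
open Pool.Agent.Work.MP_a2fcf1_an_h64 (cr sc eu n1 ex fc GloballyRegular)

theorem p_SBB (h1 : Stmt_SB) (h2 : Stmt_LLB) : Stmt_SBB := by
  intro M s A B x hM hs hA hFr hAdm hTT
  refine (h1 M s B x hM hs hFr hAdm).trans ?_
  have hc : (0 : ℝ) ≤ (s + 1) * 2 ^ s := by
    have : (0 : ℝ) ≤ s + 1 := by linarith
    positivity
  refine mul_le_mul_of_nonneg_left ?_ hc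
  unfold Y
  rw [Finset.mul_sum]
  refine Finset.sum_le_sum fun l _ => ?_
  have hw : 0 ≤ wt M s l * ‖x l‖ ^ 2 := by
    unfold wt
    split_ifs
    · have : (0 : ℝ) ≤ eu l := by
        unfold eu
        positivity
      positivity
    · simp
  have := h2 M A (eu l) B x hM hA hFr hTT
  unfold Y at this
  calc wt M s l * ‖x l‖ ^ 2 * LL B x (eu l)
      ≤ wt M s l * ‖x l‖ ^ 2 * (3 * M * A + 4 * √(∑ k ∈ B, wt M 3 k * ‖x k‖ ^ 2)) :=
        mul_le_mul_of_nonneg_left this hw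
    _ = _ := by ring

end Pool.SQGF
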