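import Pool.Agent.Work.MP_a2fcf1_an_fs.Interface

/-! Block TRI (helper75) -/

set_option autoImplicit false

namespace Pool.SQGF

open Finset Set
open Pool.Agent.Work.MP_a2fcf1_an_h64 (cr sc eu n1 ex fc GloballyRegular cr_add_right cr_add_left
  cr_neg_right cr_neg_left cr_self cr_swap eu_neg)

/-- the rotation of a triad -/
def TRI_T : (ℤ × ℤ) × (ℤ × ℤ) ≃ (ℤ × ℤ) × (ℤ × ℤ) where
  toFun p := (p.2, -(p.1 + p.2))
  invFun p := (-(p.1 + p.2), p.1)
  left_inv p := by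
    ext <;> simp
  right_inv p := by
    ext <;> simp

theorem p_TRI (h : Stmt_REW) : Stmt_TRI := by
  intro B x w hS hA hw
  rw [h B x w hS hA]
  obtain ⟨h0, hc⟩ := hA
  set g : (ℤ × ℤ) × (ℤ × ℤ) → ℝ := fun p =>
    w (p.1 + p.2) * sc p.1 p.2 * (x p.1 * x p.2 * x (-(p.1 + p.2))).re with hg
  set r : (ℤ × ℤ) × (ℤ × ℤ) → ℝ := fun p => (x p.1 * x p.2 * x (-(p.1 + p.2))).re with hr
  have hr0 : ∀ p, p ∉ B ×ˢ B → r p = 0 := by
    intro p hp
    rw [Finset.mem_product, not_and_or] at hp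
    change (x p.1 * x p.2 * x (-(p.1 + p.2))).re = 0
    rcases hp with hp | hp
    · rw [h0 _ hp, zero_mul, zero_mul, Complex.zero_re]
    · rw [h0 _ hp, mul_zero, zero_mul, Complex.zero_re]
  have g1 : ∀ p, g (TRI_T p) = w p.1 * sc p.2 (-(p.1 + p.2)) * r p := by
    intro p
    obtain ⟨j, l⟩ := p
    change w (l + -(j + l)) * sc l (-(j + l)) * (x l * x (-(j + l)) * x (-(l + -(j + l)))).re =
      w j * sc l (-(j + l)) * (x j * x l * x (-(j + l))).re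
    have a1 : l + -(j + l) = -j := by abel
    rw [a1, hw, neg_neg]
    have a2 : x l * x (-(j + l)) * x j = x j * x l * x (-(j + l)) := by ring
    rw [a2]
  have g2 : ∀ p, g (TRI_T (TRI_T p)) = w p.2 * sc (-(p.1 + p.2)) p.1 * r p := by
    intro p
    obtain ⟨j, l⟩ := p
    change w (-(j + l) + -(l + -(j + l))) * sc (-(j + l)) (-(l + -(j + l))) *
      (x (-(j + l)) * x (-(l + -(j + l))) * x (-(-(j + l) + -(l + -(j + l))))).re =
      w l * sc (-(j + l)) j * (x j * x l * x (-(j + l))).re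
    have a1 : -(l + -(j + l)) = j := by abel
    rw [a1]
    have a3 : -(j + l) + j = -l := by abel
    rw [a3, hw, neg_neg]
    have a2 : x (-(j + l)) * x j * x l = x j * x l * x (-(j + l)) := by ring
    rw [a2]
  have s0 : ∑ j ∈ B, ∑ l ∈ B, w (j + l) * sc j l * (x j * x l * x (-(j + l))).re =
      ∑' p, g p := by
    rw [← Finset.sum_product', tsum_eq_sum (s := B ×ˢ B)]
    intro p hp
    have := hr0 p hp
    change w (p.1 + p.2) * sc p.1 p.2 * r p = 0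
    rw [this, mul_zero]
  have s1 : ∑' p, g p = ∑ p ∈ B ×ˢ B, w p.1 * sc p.2 (-(p.1 + p.2)) * r p := by
    rw [← TRI_T.tsum_eq g, tsum_congr g1, tsum_eq_sum (s := B ×ˢ B)]
    intro p hp
    rw [hr0 p hp, mul_zero]
  have s2 : ∑' p, g p = ∑ p ∈ B ×ˢ B, w p.2 * sc (-(p.1 + p.2)) p.1 * r p := by
    rw [← TRI_T.tsum_eq g, ← TRI_T.tsum_eq (fun p => g (TRI_T p)), tsum_congr g2,
      tsum_eq_sum (s := B ×ˢ B)]
    intro p hp
    rw [hr0 p hp, mul_zero]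
  have s3 : ∑' p, g p = ∑ p ∈ B ×ˢ B, w (p.1 + p.2) * sc p.1 p.2 * r p := by
    rw [tsum_eq_sum (s := B ×ˢ B)]
    intro p hp
    change w (p.1 + p.2) * sc p.1 p.2 * r p = 0
    rw [hr0 p hp, mul_zero]
  have s4 : 3 * ∑' p, g p = ∑ p ∈ B ×ˢ B,
      (w (p.1 + p.2) * sc p.1 p.2 * r p + w p.1 * sc p.2 (-(p.1 + p.2)) * r p +
        w p.2 * sc (-(p.1 + p.2)) p.1 * r p) := by
    rw [Finset.sum_add_distrib, Finset.sum_add_distrib, ← s1, ← s2, ← s3]
    ring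
  rw [s0]
  have s5 : ∑ j ∈ B, ∑ l ∈ B, (cr j l : ℝ) * Ph w j l * (x j * x l * x (-(j + l))).re =
      ∑ p ∈ B ×ˢ B, (cr p.1 p.2 : ℝ) * Ph w p.1 p.2 * r p := by
    rw [Finset.sum_product]
  have s6 : ∀ p : (ℤ × ℤ) × (ℤ × ℤ),
      w (p.1 + p.2) * sc p.1 p.2 * r p + w p.1 * sc p.2 (-(p.1 + p.2)) * r p +
        w p.2 * sc (-(p.1 + p.2)) p.1 * r p =
      1 / 2 * ((cr p.1 p.2 : ℝ) * Ph w p.1 p.2 * r p) := by
    intro p
    obtain ⟨j, l⟩ := p
    have c1 : cr l (-(j + l)) = cr j l := by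
      rw [cr_neg_right, cr_add_right, cr_self, add_zero, cr_swap, neg_neg]
    have c2 : cr (-(j + l)) j = cr j l := by
      rw [cr_neg_left, cr_add_left, cr_self, zero_add, cr_swap, neg_neg]
    simp only [sc, Ph, c1, c2, eu_neg]
    ring
  rw [s5]
  have s7 : 3 * ∑' p, g p = 1 / 2 * ∑ p ∈ B ×ˢ B, (cr p.1 p.2 : ℝ) * Ph w p.1 p.2 * r p := by
    rw [s4, Finset.mul_sum]
    exact Finset.sum_congr rfl fun p _ => s6 p
  linarith

end Pool.SQGF
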