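import Pool.Agent.Work.MP_a2fcf1_an_fs.Interface

set_option autoImplicit false

namespace Pool.SQGF

open Finset Set
open Pool.Agent.Work.MP_a2fcf1_an_h64 (cr sc eu n1 ex fc GloballyRegular)

lemma APS_eu_nonneg (k : ℤ × ℤ) : 0 ≤ eu k := by
  unfold eu
  exact Real.sqrt_nonneg _

lemma APS_eu_pos {M : ℕ} {k : ℤ × ℤ} (h : (M : ℤ) < nq k) : 0 < eu k := by
  unfold eu
  apply Real.sqrt_pos.mpr
  have h1 : (0 : ℤ) < nq k := lt_of_le_of_lt (by positivity) h
  have h2 : ((0 : ℤ) : ℝ) < ((nq k : ℤ) : ℝ) := by exact_mod_cast h1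
  unfold nq at h2
  push_cast at h2
  exact h2

lemma APS_wt_nonneg (M : ℕ) (s : ℝ) (k : ℤ × ℤ) : 0 ≤ wt M s k := by
  unfold wt
  split_ifs
  · exact Real.rpow_nonneg (APS_eu_nonneg k) _
  · exact le_rfl

lemma APS_Y_nonneg (B : Finset (ℤ × ℤ)) (M : ℕ) (s : ℝ) (x : ℤ × ℤ → ℂ) : 0 ≤ Y B M s x := by
  unfold Y
  exact Finset.sum_nonneg fun k _ => mul_nonneg (APS_wt_nonneg M s k) (by positivity)

lemma APS_wt_mul (M : ℕ) (s α : ℝ) (k : ℤ × ℤ) :
    wt M s k * eu k ^ (2 * α) = wt M (s + α) k := by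
  unfold wt
  split_ifs with h
  · rw [← Real.rpow_add (APS_eu_pos h)]
    congr 1
    ring
  · simp

theorem p_APS (h1 : Stmt_EN) (h2 : Stmt_L2D) (h3 : Stmt_SBB) (h4 : Stmt_GRW) (h5 : Stmt_YNG) :
    Stmt_APS := by
  intro M B κ α T s A Q x hM hκ hα hα2 hs hA hT hFr hG hTT hQ
  have hs0 : 0 < s := by linarith
  set K : ℝ := (s + 1) * 2 ^ s with hK
  have hK0 : 0 ≤ K := by positivity
  set G : ℝ := K * (3 * M * A + 4 * √Q) with hGdef
  have hG0 : 0 ≤ G := by positivity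
  set Y0 : ℝ := Y B M 0 (fun k => x k 0) with hY0
  have hY00 : 0 ≤ Y0 := APS_Y_nonneg _ _ _ _
  set D : ℝ := 2 * G * (G / κ) ^ (s / α) * (2 * (M + 1) * Y0) with hD
  have hp0 : 0 ≤ (G / κ) ^ (s / α) := by positivity
  have hD0 : 0 ≤ D := by positivity
  have hmain := h4 (fun t => ∑ k ∈ B, wt M s k * ‖x k t‖ ^ 2)
    (fun t => -(2 * κ * ∑ k ∈ B, wt M s k * eu k ^ (2 * α) * ‖x k t‖ ^ 2) -
        2 * Sw B (wt M s) (fun k => x k t)) κ D T hκ hD0 hT
    (h1 B κ α T x (wt M s) hG) ?_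
  · have e1 : (G / κ) ^ (1 + s / α) = (G / κ) * (G / κ) ^ (s / α) := by
      rw [Real.rpow_add_of_nonneg (by positivity) (by norm_num) (by positivity), Real.rpow_one]
    have e2 : D / (2 * κ) = 2 * (M + 1) * (G / κ) ^ (1 + s / α) * Y0 := by
      rw [e1, hD]
      field_simp
    have := hmain
    rw [e2] at this
    exact this
  · intro t ht
    have ht' : t ∈ Icc 0 T := ⟨ht.1, ht.2.le⟩
    obtain ⟨ha, hb⟩ := h2 M B κ α T x hM hκ hα hFr hG t ht'
    have hexp1 : Real.exp (-(2 * κ * t)) ≤ 1 := by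
      rw [Real.exp_le_one_iff]
      have : 0 ≤ 2 * κ * t := by
        have := ht.1
        positivity
      linarith
    have hTT0 : 0 ≤ TT B (fun k => x k 0) := by
      unfold TT
      positivity
    have hTTt : TT B (fun k => x k t) ≤ A ^ 2 := by
      calc TT B (fun k => x k t) ≤ Real.exp (-(2 * κ * t)) * TT B (fun k => x k 0) := ha
        _ ≤ 1 * TT B (fun k => x k 0) := mul_le_mul_of_nonneg_right hexp1 hTT0
        _ = TT B (fun k => x k 0) := one_mul _
        _ ≤ A ^ 2 := hTT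
    have hSw := h3 M s A B (fun k => x k t) hM hs hA hFr (hG.adm t ht') hTTt
    set Ys : ℝ := Y B M s (fun k => x k t) with hYs
    have hYs0 : 0 ≤ Ys := APS_Y_nonneg _ _ _ _
    have hsq : √(Y B M 3 (fun k => x k t)) ≤ √Q := Real.sqrt_le_sqrt (hQ t ht')
    have hSw2 : |Sw B (wt M s) (fun k => x k t)| ≤ G * Ys := by
      refine hSw.trans ?_
      have : K * ((3 * M * A + 4 * √(Y B M 3 (fun k => x k t))) * Ys) ≤
          K * ((3 * M * A + 4 * √Q) * Ys) := by
        apply mul_le_mul_of_nonneg_left _ hK0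
        apply mul_le_mul_of_nonneg_right _ hYs0
        linarith
      refine this.trans (le_of_eq ?_)
      rw [hGdef]
      ring
    have hY := h5 M α s (2 * κ) (2 * G) B (fun k => x k t) hM hα hs0 (by positivity)
      (by positivity) hFr
    have e3 : 2 * G / (2 * κ) = G / κ := by
      field_simp
    rw [e3] at hY
    have e4 : ∑ k ∈ B, wt M s k * eu k ^ (2 * α) * ‖x k t‖ ^ 2 =
        Y B M (s + α) (fun k => x k t) := by
      unfold Y
      exact Finset.sum_congr rfl fun k _ => by rw [APS_wt_mul]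
    have e5 := neg_le_of_abs_le hSw2
    show -(2 * κ * ∑ k ∈ B, wt M s k * eu k ^ (2 * α) * ‖x k t‖ ^ 2) -
        2 * Sw B (wt M s) (fun k => x k t) ≤ D * Real.exp (-(2 * κ * t))
    rw [e4]
    have e6 : 2 * G * (G / κ) ^ (s / α) * Y B M 0 (fun k => x k t) ≤
        D * Real.exp (-(2 * κ * t)) := by
      calc 2 * G * (G / κ) ^ (s / α) * Y B M 0 (fun k => x k t)
          ≤ 2 * G * (G / κ) ^ (s / α) * (2 * (M + 1) * Real.exp (-(2 * κ * t)) * Y0) :=
            mul_le_mul_of_nonneg_left hb (by positivity)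
        _ = D * Real.exp (-(2 * κ * t)) := by
            rw [hD]
            ring
    linarith

end Pool.SQGF
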