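import Pool.Agent.Work.MP_a2fcf1_an_fs.Interface
import Pool.Agent.Work.MP_a2fcf1_an_h64.PDE

/-! # Block BRI: rapidly decreasing solutions of the coefficient system are smooth solutions

Adapted from the files of helper64 (exponential decay) to rapid decay. -/

set_option autoImplicit false

namespace Pool.SQGF

open Set
open scoped ContDiff
open Pool.Agent.Work.MP_a2fcf1_an_h64 hiding Dec Good GoodAll conv_bound hasFDerivWithinAt_ser
  continuousOn_ser contDiffOn_ser contDiffOn_ser_infty goodAll_of_system symmetrise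
  globallyRegular_of_coeffs

namespace Bri

/-- A summable weight. -/
noncomputable def wg (k : ℤ × ℤ) : ℝ := ((1 + (n1 k : ℝ)) ^ 4)⁻¹

theorem one_le (k : ℤ × ℤ) : (1 : ℝ) ≤ 1 + n1 k := by
  have : (0 : ℝ) ≤ n1 k := Nat.cast_nonneg _
  linarith

theorem wg_pos (k : ℤ × ℤ) : 0 < wg k := by
  have := one_le k
  unfold wg
  positivity

theorem summable_wg : Summable wg := by
  have h1 : Summable fun z : ℤ => ((1 + |(z : ℝ)|) ^ 2)⁻¹ := by
    have h : Summable fun n : ℕ => ((1 + (n : ℝ)) ^ 2)⁻¹ := by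
      have h0 : Summable fun n : ℕ => 1 / ((n : ℝ)) ^ 2 := Real.summable_one_div_nat_pow.mpr one_lt_two
      have h2 := (summable_nat_add_iff 1).mpr h0
      refine h2.congr fun n => ?_
      push_cast
      rw [one_div, add_comm]
    apply Summable.of_nat_of_neg
    · refine h.congr fun n => ?_
      simp
    · refine h.congr fun n => ?_
      simp
  have h2 := h1.mul_of_nonneg h1 (fun _ => by positivity) (fun _ => by positivity)
  refine Summable.of_nonneg_of_le (fun k => (wg_pos k).le) (fun k => ?_) h2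
  unfold wg
  rw [← mul_inv]
  apply inv_anti₀ (by positivity)
  rw [n1_cast]
  have ha : 0 ≤ |(k.1 : ℝ)| := abs_nonneg _
  have hb : 0 ≤ |(k.2 : ℝ)| := abs_nonneg _
  calc (1 + |(k.1 : ℝ)|) ^ 2 * (1 + |(k.2 : ℝ)|) ^ 2
      = ((1 + |(k.1 : ℝ)|) * (1 + |(k.2 : ℝ)|)) ^ 2 := by ring
    _ ≤ ((1 + (|(k.1 : ℝ)| + |(k.2 : ℝ)|)) * (1 + (|(k.1 : ℝ)| + |(k.2 : ℝ)|))) ^ 2 := by
        gcongr <;> linarith
    _ = _ := by ring

/-- Nonnegative constants. -/
theorem RD.bd {b : ℤ × ℤ → ℝ → ℂ} (hb : RD b) (m : ℕ) :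
    ∃ C : ℝ, 0 ≤ C ∧ ∀ k t, 0 ≤ t → ‖b k t‖ ≤ C * ((1 + (n1 k : ℝ)) ^ m)⁻¹ := by
  obtain ⟨C, hC⟩ := hb m
  have hC0 : 0 ≤ C := by
    refine le_trans ?_ (hC 0 0 le_rfl)
    positivity
  refine ⟨C, hC0, fun k t ht => ?_⟩
  have := one_le k
  rw [← div_eq_mul_inv, le_div_iff₀ (by positivity)]
  exact hC k t ht

theorem RD.of_bd {b : ℤ × ℤ → ℝ → ℂ}
    (h : ∀ m : ℕ, ∃ C : ℝ, ∀ k t, 0 ≤ t → ‖b k t‖ ≤ C * ((1 + (n1 k : ℝ)) ^ m)⁻¹) : RD b := by
  intro m
  obtain ⟨C, hC⟩ := h m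
  refine ⟨C, fun k t ht => ?_⟩
  have := one_le k
  have h1 := hC k t ht
  rwa [← div_eq_mul_inv, le_div_iff₀ (by positivity)] at h1

/-- Decay with a linear weight. -/
theorem RD.w5 {b : ℤ × ℤ → ℝ → ℂ} (hb : RD b) :
    ∃ C : ℝ, 0 ≤ C ∧ ∀ k t, 0 ≤ t → (1 + (n1 k : ℝ)) * ‖b k t‖ ≤ C * wg k := by
  obtain ⟨C, hC0, hC⟩ := RD.bd hb 5
  refine ⟨C, hC0, fun k t ht => ?_⟩
  have h1 := one_le k
  calc (1 + (n1 k : ℝ)) * ‖b k t‖ ≤ (1 + (n1 k : ℝ)) * (C * ((1 + (n1 k : ℝ)) ^ 5)⁻¹) :=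
        mul_le_mul_of_nonneg_left (hC k t ht) (by linarith)
    _ = C * wg k := by
        unfold wg
        field_simp

theorem RD.w4 {b : ℤ × ℤ → ℝ → ℂ} (hb : RD b) :
    ∃ C : ℝ, 0 ≤ C ∧ ∀ k t, 0 ≤ t → ‖b k t‖ ≤ C * wg k := by
  obtain ⟨C, hC0, hC⟩ := RD.bd hb 4
  exact ⟨C, hC0, fun k t ht => hC k t ht⟩

/-- Families with `n` rapidly decreasing time derivatives. -/
def GR : ℕ → (ℤ × ℤ → ℝ → ℂ) → Prop
  | 0, b => RD b ∧ ∀ k, ContinuousOn (b k) (Ici 0)
  | (n + 1), b => RD b ∧ ∃ b' : ℤ × ℤ → ℝ → ℂ, GR n b' ∧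
      ∀ k t, 0 ≤ t → HasDerivWithinAt (b k) (b' k t) (Ici 0) t

theorem GR.dec {n : ℕ} {b : ℤ × ℤ → ℝ → ℂ} (h : GR n b) : RD b := by
  cases n with
  | zero => exact h.1
  | succ n => exact h.1

theorem GR.cont {n : ℕ} {b : ℤ × ℤ → ℝ → ℂ} (h : GR n b) (k : ℤ × ℤ) :
    ContinuousOn (b k) (Ici 0) := by
  cases n with
  | zero => exact h.2 k
  | succ n =>
    obtain ⟨-, b', -, hb⟩ := h
    intro t ht
    exact (hb k t ht).continuousWithinAt

theorem GR.zero_of {n : ℕ} {b : ℤ × ℤ → ℝ → ℂ} (h : GR n b) : GR 0 b := ⟨h.dec, h.cont⟩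

theorem GR.pred {n : ℕ} {b : ℤ × ℤ → ℝ → ℂ} (h : GR (n + 1) b) : GR n b := by
  induction n generalizing b with
  | zero => exact h.zero_of
  | succ n ih =>
    obtain ⟨hd, b', hb', hb⟩ := h
    exact ⟨hd, b', ih hb', hb⟩

theorem RD.add {b g : ℤ × ℤ → ℝ → ℂ} (hb : RD b) (hg : RD g) :
    RD fun k t => b k t + g k t := by
  intro m
  obtain ⟨C, h⟩ := hb m
  obtain ⟨C', h'⟩ := hg m
  refine ⟨C + C', fun k t ht => ?_⟩
  have h0 := one_le k
  calc ‖b k t + g k t‖ * (1 + (n1 k : ℝ)) ^ m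
      ≤ (‖b k t‖ + ‖g k t‖) * (1 + (n1 k : ℝ)) ^ m :=
        mul_le_mul_of_nonneg_right (norm_add_le _ _) (by positivity)
    _ = ‖b k t‖ * (1 + (n1 k : ℝ)) ^ m + ‖g k t‖ * (1 + (n1 k : ℝ)) ^ m := by ring
    _ ≤ C + C' := add_le_add (h k t ht) (h' k t ht)

theorem GR.add {n : ℕ} {b g : ℤ × ℤ → ℝ → ℂ} (hb : GR n b) (hg : GR n g) :
    GR n fun k t => b k t + g k t := by
  induction n generalizing b g with
  | zero => exact ⟨RD.add hb.dec hg.dec, fun k => (hb.cont k).add (hg.cont k)⟩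
  | succ n ih =>
    obtain ⟨hd, b', hb', hb1⟩ := hb
    obtain ⟨hd', g', hg', hg1⟩ := hg
    exact ⟨RD.add hd hd', fun k t => b' k t + g' k t, ih hb' hg',
      fun k t ht => (hb1 k t ht).add (hg1 k t ht)⟩

theorem RD.mul {m : ℤ × ℤ → ℂ} (hm : Lin1 m) {b : ℤ × ℤ → ℝ → ℂ} (hb : RD b) :
    RD fun k t => m k * b k t := by
  intro p
  obtain ⟨M, hM, hm⟩ := hm
  obtain ⟨C, h⟩ := hb (p + 1)
  refine ⟨M * C, fun k t ht => ?_⟩
  have h0 := one_le k
  rw [norm_mul]
  calc ‖m k‖ * ‖b k t‖ * (1 + (n1 k : ℝ)) ^ p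
      ≤ (M * (1 + n1 k)) * ‖b k t‖ * (1 + (n1 k : ℝ)) ^ p := by
        gcongr
        exact hm k
    _ = M * (‖b k t‖ * (1 + (n1 k : ℝ)) ^ (p + 1)) := by ring
    _ ≤ M * C := mul_le_mul_of_nonneg_left (h k t ht) hM

theorem GR.mul {m : ℤ × ℤ → ℂ} (hm : Lin1 m) {n : ℕ} {b : ℤ × ℤ → ℝ → ℂ} (hb : GR n b) :
    GR n fun k t => m k * b k t := by
  induction n generalizing b with
  | zero => exact ⟨RD.mul hm hb.dec, fun k => continuousOn_const.mul (hb.cont k)⟩
  | succ n ih =>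
    obtain ⟨hd, b', hb', hb1⟩ := hb
    exact ⟨RD.mul hm hd, fun k t => m k * b' k t, ih hb',
      fun k t ht => (hb1 k t ht).const_mul (m k)⟩

theorem conv_bound {c : ℤ × ℤ → ℤ × ℤ → ℝ} (hc : AdmC c) {b g : ℤ × ℤ → ℝ → ℂ}
    (hb : RD b) (hg : RD g) (m : ℕ) :
    ∃ C : ℝ, 0 ≤ C ∧ ∀ k j t, 0 ≤ t →
      ‖((c k j : ℝ) : ℂ) * (b j t * g (k - j) t)‖ ≤
        C * ((1 + (n1 k : ℝ)) ^ m)⁻¹ * wg j := by
  obtain ⟨C, hC, h⟩ := RD.bd hb (m + 5)
  obtain ⟨C', hC', h'⟩ := RD.bd hg (m + 1)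
  refine ⟨C * C', mul_nonneg hC hC', fun k j t ht => ?_⟩
  set l := k - j with hl
  have hj := one_le j
  have hl1 := one_le l
  have hk1 := one_le k
  have hk : 1 + (n1 k : ℝ) ≤ (1 + n1 j) * (1 + n1 l) := by
    have := n1_add_le j l
    rw [hl, add_sub_cancel] at this
    have h2 : (n1 k : ℝ) ≤ n1 j + n1 l := by rw [hl]; exact_mod_cast this
    nlinarith [mul_nonneg (by linarith : (0:ℝ) ≤ n1 j) (by linarith : (0:ℝ) ≤ n1 l)]
  have hcc : |c k j| ≤ (1 + n1 j) * (1 + n1 l) := by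
    refine (hc k j).trans ?_
    nlinarith [mul_nonneg (by linarith : (0:ℝ) ≤ n1 j) (by linarith : (0:ℝ) ≤ n1 l)]
  rw [norm_mul, norm_mul, Complex.norm_real, Real.norm_eq_abs]
  calc |c k j| * (‖b j t‖ * ‖g l t‖)
      ≤ ((1 + n1 j) * (1 + n1 l)) * ((C * ((1 + (n1 j : ℝ)) ^ (m + 5))⁻¹) *
          (C' * ((1 + (n1 l : ℝ)) ^ (m + 1))⁻¹)) := by
        apply mul_le_mul hcc _ (by positivity) (by positivity)
        exact mul_le_mul (h j t ht) (h' l t ht) (norm_nonneg _) (by positivity)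
    _ = C * C' * (((1 + (n1 j : ℝ)) * (1 + n1 l)) ^ m)⁻¹ * wg j := by
        unfold wg
        rw [mul_pow]
        field_simp
        ring
    _ ≤ C * C' * ((1 + (n1 k : ℝ)) ^ m)⁻¹ * wg j := by
        have hw := (wg_pos j).le
        have hCC := mul_nonneg hC hC'
        gcongr

theorem RD.conv {c : ℤ × ℤ → ℤ × ℤ → ℝ} (hc : AdmC c) {b g : ℤ × ℤ → ℝ → ℂ}
    (hb : RD b) (hg : RD g) : RD (conv c b g) := by
  apply RD.of_bd
  intro m
  obtain ⟨C, hC, h⟩ := conv_bound hc hb hg m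
  refine ⟨C * ∑' j : ℤ × ℤ, wg j, fun k t ht => ?_⟩
  have hs := summable_wg.mul_left (C * ((1 + (n1 k : ℝ)) ^ m)⁻¹)
  have := tsum_of_norm_bounded hs.hasSum (fun j => h k j t ht)
  rw [tsum_mul_left] at this
  calc ‖Pool.Agent.Work.MP_a2fcf1_an_h64.conv c b g k t‖
      ≤ C * ((1 + (n1 k : ℝ)) ^ m)⁻¹ * ∑' j : ℤ × ℤ, wg j := this
    _ = _ := by ring

theorem GR.conv {c : ℤ × ℤ → ℤ × ℤ → ℝ} (hc : AdmC c) {n : ℕ} {b g : ℤ × ℤ → ℝ → ℂ}
    (hb : GR n b) (hg : GR n g) : GR n (conv c b g) := by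
  induction n generalizing b g with
  | zero =>
    refine ⟨RD.conv hc hb.dec hg.dec, fun k => ?_⟩
    obtain ⟨C, hC, h⟩ := conv_bound hc hb.dec hg.dec 0
    unfold Pool.Agent.Work.MP_a2fcf1_an_h64.conv
    apply continuousOn_tsum (u := fun j => C * ((1 + (n1 k : ℝ)) ^ 0)⁻¹ * wg j)
    · intro j
      exact continuousOn_const.mul ((hb.cont j).mul (hg.cont (k - j)))
    · exact summable_wg.mul_left _
    · intro j t ht
      exact h k j t ht
  | succ n ih =>
    have hb0 := hb.pred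
    have hg0 := hg.pred
    obtain ⟨hd, b', hb', hb1⟩ := hb
    obtain ⟨hd', g', hg', hg1⟩ := hg
    refine ⟨RD.conv hc hd hd', fun k t => Pool.Agent.Work.MP_a2fcf1_an_h64.conv c b' g k t +
      Pool.Agent.Work.MP_a2fcf1_an_h64.conv c b g' k t, (ih hb' hg0).add (ih hb0 hg'),
      fun k t ht => ?_⟩
    obtain ⟨C1, hC1, h1⟩ := conv_bound hc hb'.dec hd' 0
    obtain ⟨C2, hC2, h2⟩ := conv_bound hc hd hg'.dec 0
    obtain ⟨C3, hC3, h3⟩ := conv_bound hc hd hd' 0
    have s1 := summable_wg.mul_left (C1 * ((1 + (n1 k : ℝ)) ^ 0)⁻¹)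
    have s2 := summable_wg.mul_left (C2 * ((1 + (n1 k : ℝ)) ^ 0)⁻¹)
    have s3 := summable_wg.mul_left (C3 * ((1 + (n1 k : ℝ)) ^ 0)⁻¹)
    have key := hasDerivWithinAt_tsum_Ici
      (g := fun j t => ((c k j : ℝ) : ℂ) * (b j t * g (k - j) t))
      (g' := fun j t => ((c k j : ℝ) : ℂ) * (b' j t * g (k - j) t) +
        ((c k j : ℝ) : ℂ) * (b j t * g' (k - j) t))
      (fun j t ht => by
        have := ((hb1 j t ht).mul (hg1 (k - j) t ht)).const_mul ((c k j : ℝ) : ℂ)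
        refine this.congr_deriv ?_
        ring)
      (s1.add s2)
      (fun j t ht => (norm_add_le _ _).trans (add_le_add (h1 k j t ht) (h2 k j t ht)))
      (Summable.of_norm_bounded s3 fun j => h3 k j 0 le_rfl) ht
    refine key.congr_deriv ?_
    unfold Pool.Agent.Work.MP_a2fcf1_an_h64.conv
    rw [Summable.tsum_add]
    · exact Summable.of_norm_bounded s1 fun j => h1 k j t ht
    · exact Summable.of_norm_bounded s2 fun j => h2 k j t ht

theorem RD.summable {b : ℤ × ℤ → ℝ → ℂ} (hb : RD b) {t : ℝ} (ht : 0 ≤ t) :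
    Summable fun k => ‖b k t‖ := by
  obtain ⟨C, hC, h⟩ := RD.w4 hb
  exact Summable.of_nonneg_of_le (fun _ => norm_nonneg _) (fun k => h k t ht)
    (summable_wg.mul_left C)

theorem RD.summable_ex {b : ℤ × ℤ → ℝ → ℂ} (hb : RD b) {t : ℝ} (ht : 0 ≤ t) (x : ℝ × ℝ) :
    Summable fun k => b k t * ex k x := by
  apply Summable.of_norm
  refine (RD.summable hb ht).congr fun k => ?_
  rw [norm_mul, norm_ex, mul_one]

theorem hasFDerivWithinAt_ser {b b' : ℤ × ℤ → ℝ → ℂ} (hb : RD b) (hb' : RD b')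
    (h : ∀ k t, 0 ≤ t → HasDerivWithinAt (b k) (b' k t) (Ici 0) t) {p : ℝ × (ℝ × ℝ)}
    (hp : p ∈ Half) :
    HasFDerivWithinAt (ser b) (lf (ser b' p, ser (fun k t => m1 k * b k t) p,
      ser (fun k t => m2 k * b k t) p)) Half p := by
  have hp0 : 0 ≤ p.1 := mem_Half.mp hp
  have sb := RD.summable_ex hb hp0 p.2
  have sb' := RD.summable_ex hb' hp0 p.2
  have s1 := RD.summable_ex (RD.mul lin1_m1 hb) hp0 p.2
  have s2 := RD.summable_ex (RD.mul lin1_m2 hb) hp0 p.2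
  obtain ⟨C, hC, hbd⟩ := RD.w5 hb
  obtain ⟨C', hC', hbd'⟩ := RD.w4 hb'
  set v : ℤ × ℤ → ℝ := fun k => C' * wg k + 6 * (C * wg k) with hv
  have hvs : Summable v := (summable_wg.mul_left C').add ((summable_wg.mul_left C).mul_left 6)
  have key : HasFDerivAt (fun q : ℝ × (ℝ × ℝ) => ∑' k, refl (b k) q.1 * ex k q.2)
      (∑' k, lf (b' k |p.1| * ex k p.2, m1 k * (refl (b k) p.1 * ex k p.2),
        m2 k * (refl (b k) p.1 * ex k p.2))) p := by
    apply hasFDerivAt_tsum hvs (fun k q => hasFDerivAt_term (h k) k q) (x₀ := (0, 0))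
    · intro k q
      refine (norm_lf_le _).trans ?_
      simp only [norm_mul, norm_ex, mul_one]
      have h1 := hbd' k |q.1| (abs_nonneg _)
      have hk1 := one_le k
      have hbk : ∀ t, 0 ≤ t → ‖b k t‖ ≤ C * wg k / (1 + n1 k) := by
        intro t ht
        rw [le_div_iff₀ (by linarith), mul_comm]
        exact hbd k t ht
      have h2 := norm_refl_le hbk q.1
      have h3 := norm_m1_le k
      have h4 := norm_m2_le k
      have hn0 : (0 : ℝ) ≤ n1 k := Nat.cast_nonneg _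
      have hw := mul_nonneg hC (wg_pos k).le
      have h6 : ‖m1 k‖ * ‖refl (b k) q.1‖ ≤ n1 k * (3 * (C * wg k / (1 + n1 k))) :=
        mul_le_mul h3 h2 (norm_nonneg _) hn0
      have h7 : ‖m2 k‖ * ‖refl (b k) q.1‖ ≤ n1 k * (3 * (C * wg k / (1 + n1 k))) :=
        mul_le_mul h4 h2 (norm_nonneg _) hn0
      have h8 : (n1 k : ℝ) * (3 * (C * wg k / (1 + n1 k))) ≤ 3 * (C * wg k) := by
        have : (n1 k : ℝ) * (3 * (C * wg k / (1 + n1 k))) =
            3 * (C * wg k) * (n1 k / (1 + n1 k)) := by ring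
        rw [this]
        have h9 : (n1 k : ℝ) / (1 + n1 k) ≤ 1 := by
          rw [div_le_one (by linarith)]
          linarith
        calc 3 * (C * wg k) * (n1 k / (1 + n1 k)) ≤ 3 * (C * wg k) * 1 :=
              mul_le_mul_of_nonneg_left h9 (by positivity)
          _ = _ := mul_one _
      rw [hv]
      simp only
      linarith
    · have h0 := RD.summable_ex hb le_rfl (0 : ℝ × ℝ)
      refine h0.congr fun k => ?_
      rw [refl_of_nonneg _ le_rfl]
  have e : ∑' k, lf (b' k |p.1| * ex k p.2, m1 k * (refl (b k) p.1 * ex k p.2),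
        m2 k * (refl (b k) p.1 * ex k p.2)) =
      lf (ser b' p, ser (fun k t => m1 k * b k t) p, ser (fun k t => m2 k * b k t) p) := by
    have h1 : HasSum (fun k => (b' k p.1 * ex k p.2, m1 k * b k p.1 * ex k p.2,
        m2 k * b k p.1 * ex k p.2))
        (ser b' p, ser (fun k t => m1 k * b k t) p, ser (fun k t => m2 k * b k t) p) :=
      sb'.hasSum.prodMk (s1.hasSum.prodMk s2.hasSum)
    have h2 := lfL.hasSum h1
    rw [← lfL_apply (ser b' p, _), ← h2.tsum_eq]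
    apply tsum_congr
    intro k
    rw [lfL_apply, abs_of_nonneg hp0, refl_of_nonneg _ hp0, mul_assoc, mul_assoc]
  rw [e] at key
  refine key.hasFDerivWithinAt.congr (fun q hq => ?_) ?_
  · exact tsum_congr fun k => by rw [refl_of_nonneg _ (mem_Half.mp hq)]
  · exact tsum_congr fun k => by rw [refl_of_nonneg _ hp0]

theorem continuousOn_ser {b : ℤ × ℤ → ℝ → ℂ} (hb : GR 0 b) : ContinuousOn (ser b) Half := by
  obtain ⟨hd, hc⟩ := hb
  obtain ⟨C, hC, hbd⟩ := RD.w4 hd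
  unfold ser
  apply continuousOn_tsum (u := fun k => C * wg k)
  · intro k
    have h1 : ContinuousOn (fun p : ℝ × (ℝ × ℝ) => b k p.1) Half :=
      (hc k).comp continuousOn_fst (fun p hp => mem_Half.mp hp)
    have h2 : Continuous fun p : ℝ × (ℝ × ℝ) => ex k p.2 := (continuous_ex k).comp continuous_snd
    exact h1.mul h2.continuousOn
  · exact summable_wg.mul_left _
  · intro k p hp
    rw [norm_mul, norm_ex, mul_one]
    exact hbd k p.1 (mem_Half.mp hp)

theorem contDiffOn_ser {n : ℕ} {b : ℤ × ℤ → ℝ → ℂ} (hb : GR n b) :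
    ContDiffOn ℝ n (ser b) Half := by
  induction n generalizing b with
  | zero =>
    rw [Nat.cast_zero, contDiffOn_zero]
    exact continuousOn_ser hb
  | succ n ih =>
    have hp := hb.pred
    obtain ⟨hd, b', hb', h⟩ := hb
    push_cast
    rw [contDiffOn_succ_iff_hasFDerivWithinAt_of_uniqueDiffOn uniqueDiffOn_Half]
    refine ⟨fun hcon => ?_, fun p => lf (ser b' p, ser (fun k t => m1 k * b k t) p,
      ser (fun k t => m2 k * b k t) p), ?_, fun p hp => hasFDerivWithinAt_ser hd hb'.dec h hp⟩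
    · exact absurd hcon (by simp)
    · have h1 := ih hb'
      have h2 := ih (GR.mul lin1_m1 hp)
      have h3 := ih (GR.mul lin1_m2 hp)
      have h4 := h1.prodMk (h2.prodMk h3)
      exact lfL.contDiff.comp_contDiffOn h4

theorem contDiffOn_ser_infty {b : ℤ × ℤ → ℝ → ℂ} (hb : ∀ n, GR n b) :
    ContDiffOn ℝ ∞ (ser b) Half := by
  rw [contDiffOn_infty]
  exact fun n => contDiffOn_ser (hb n)

theorem goodAll_of_system {a : ℤ × ℤ → ℝ → ℂ} {m : ℤ × ℤ → ℂ} {c : ℤ × ℤ → ℤ × ℤ → ℝ}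
    (hd : RD a) (hm : Lin1 m) (hc : AdmC c)
    (h : ∀ k t, 0 ≤ t → HasDerivWithinAt (a k) (m k * a k t + -1 * conv c a a k t) (Ici 0) t) :
    ∀ n, GR n a := by
  intro n
  have h1 : Lin1 fun _ => (-1 : ℂ) := by
    refine ⟨1, zero_le_one, fun k => ?_⟩
    have : (0 : ℝ) ≤ n1 k := Nat.cast_nonneg _
    simp
  induction n with
  | zero => exact ⟨hd, fun k t ht => (h k t ht).continuousWithinAt⟩
  | succ n ih =>
    exact ⟨hd, fun k t => m k * a k t + -1 * conv c a a k t,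
      (GR.mul hm ih).add (GR.mul h1 (GR.conv hc ih ih)), h⟩

theorem RD.at {b : ℤ × ℤ → ℝ → ℂ} (hb : RD b) {t : ℝ} (ht : 0 ≤ t) :
    RD fun k _ => b k t := by
  intro m
  obtain ⟨C, h⟩ := hb m
  exact ⟨C, fun k _ _ => h k t ht⟩

theorem RD.sum0 {b : ℤ × ℤ → ℂ} (hb : RD fun k (_ : ℝ) => b k) : Summable fun k => ‖b k‖ :=
  RD.summable hb le_rfl

/-- Symmetrisation of the interaction. -/
theorem symmetrise {b : ℤ × ℤ → ℂ} (hb : RD fun k (_ : ℝ) => b k) (k : ℤ × ℤ) :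
    (∑' j, (-r2 j * b j) * (m1 (k - j) * b (k - j))) +
      (∑' j, (r1 j * b j) * (m2 (k - j) * b (k - j))) =
    ∑' j, ((sc j (k - j) : ℝ) : ℂ) * (b j * b (k - j)) := by
  have hbs := RD.sum0 hb
  have h1 := RD.sum0 (RD.mul (b := fun k _ => b k) (lin1_of_bdd (m := fun k => -r2 k)
    (fun k => by rw [norm_neg]; exact norm_r2_le k)) hb)
  have h2 := RD.sum0 (RD.mul (b := fun k _ => b k) lin1_m1 hb)
  have h3 := RD.sum0 (RD.mul (b := fun k _ => b k) (lin1_of_bdd (m := r1) norm_r1_le) hb)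
  have h4 := RD.sum0 (RD.mul (b := fun k _ => b k) lin1_m2 hb)
  -- summability of products along the convolution
  have conv_sum : ∀ {f g : ℤ × ℤ → ℂ}, Summable (fun k => ‖f k‖) → Summable (fun k => ‖g k‖) →
      Summable fun j => f j * g (k - j) := by
    intro f g hf hg
    obtain ⟨C, hC⟩ : ∃ C, ∀ j, ‖g j‖ ≤ C := by
      refine ⟨∑' j, ‖g j‖, fun j => hg.le_tsum j (fun _ _ => norm_nonneg _)⟩
    apply Summable.of_norm_bounded (hf.mul_right C)
    intro j
    rw [norm_mul]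
    exact mul_le_mul_of_nonneg_left (hC _) (norm_nonneg _)
  have s1 := conv_sum h1 h2
  have s2 := conv_sum h3 h4
  rw [← s1.tsum_add s2]
  set T : ℤ × ℤ → ℂ := fun j => (((cr j (k - j) : ℝ) / eu j : ℝ) : ℂ) * (b j * b (k - j)) with hT
  have hTe : ∀ j, (-r2 j * b j) * (m1 (k - j) * b (k - j)) +
      (r1 j * b j) * (m2 (k - j) * b (k - j)) = T j := by
    intro j
    rw [hT]
    simp only [r1, r2, m1, m2, cr]
    push_cast
    have hI : Complex.I * Complex.I = -1 := Complex.I_mul_I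
    by_cases hj : j = 0
    · subst hj; simp
    have he : ((eu j : ℝ) : ℂ) ≠ 0 := by exact_mod_cast (eu_pos hj).ne'
    field_simp
    ring_nf
    rw [Complex.I_sq]
    ring
  have hTs : Summable T := (s1.add s2).congr hTe
  rw [tsum_congr hTe]
  have hTs' : Summable fun j => T (k - j) := (Equiv.subLeft k).summable_iff.mpr hTs
  have hT' : ∑' j, T (k - j) = ∑' j, T j := (Equiv.subLeft k).tsum_eq T
  have h5 : ∑' j, ((sc j (k - j) : ℝ) : ℂ) * (b j * b (k - j)) =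
      ∑' j, ((1 / 2 : ℂ) * (T j + T (k - j))) := by
    apply tsum_congr
    intro j
    rw [hT]
    simp only [sub_sub_cancel]
    rw [sc, cr_swap j (k - j)]
    push_cast
    ring
  rw [h5, tsum_mul_left, hTs.tsum_add hTs', hT']
  ring

/-- Rapidly decreasing solutions of the coefficient system give smooth solutions. -/
theorem globallyRegular_of_coeffs {κ α : ℝ} (hκ : 0 ≤ κ) (hα0 : 0 < α) (hα : α ≤ 1 / 2)
    {a : ℤ × ℤ → ℝ → ℂ} (hdec : RD a)
    (hsym : ∀ k t, 0 ≤ t → a (-k) t = (starRingEnd ℂ) (a k t))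
    (hode : ∀ k t, 0 ≤ t → HasDerivWithinAt (a k)
      (-(((κ * eu k ^ (2 * α) : ℝ) : ℂ) * a k t) -
        ∑' j, ((sc j (k - j) : ℝ) : ℂ) * (a j t * a (k - j) t)) (Ici 0) t)
    {θ₀ : ℝ × ℝ → ℝ} (hθ₀ : ∀ x, ((θ₀ x : ℝ) : ℂ) = ∑' k, a k 0 * ex k x) :
    GloballyRegular κ α θ₀ := by
  set m : ℤ × ℤ → ℂ := fun k => -((κ * eu k ^ (2 * α) : ℝ) : ℂ) with hm
  set c : ℤ × ℤ → ℤ × ℤ → ℝ := fun k j => sc j (k - j) with hc
  have hm1 : Lin1 m := lin1_lam hκ hα0 hα
  have hode' : ∀ k t, 0 ≤ t →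
      HasDerivWithinAt (a k) (m k * a k t + -1 * conv c a a k t) (Ici 0) t := by
    intro k t ht
    refine (hode k t ht).congr_deriv ?_
    rw [hm, hc]
    simp only [conv]
    ring
  have hgood := goodAll_of_system hdec hm1 admC_sc hode'
  have hdec' : RD fun k t => m k * a k t + -1 * conv c a a k t :=
    RD.add (RD.mul hm1 hdec) (RD.mul (lin1_of_bdd (m := fun _ => (-1 : ℂ))
      (fun _ => by simp)) (RD.conv admC_sc hdec hdec))
  refine ⟨fun t x => (ser a (t, x)).re, ?_, ?_, ?_, ?_⟩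
  · funext x
    have : ser a (0, x) = ((θ₀ x : ℝ) : ℂ) := by rw [hθ₀]; rfl
    simp only [this, Complex.ofReal_re]
  · intro t x
    constructor
    · have : ser a (t, (x.1 + 2 * Real.pi, x.2)) = ser a (t, x) :=
        tsum_congr fun k => by rw [ex_period1]
      simp only [this]
    · have : ser a (t, (x.1, x.2 + 2 * Real.pi)) = ser a (t, x) :=
        tsum_congr fun k => by rw [ex_period2]
      simp only [this]
  · exact Complex.reCLM.contDiff.comp_contDiffOn (contDiffOn_ser_infty hgood)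
  · intro t ht x
    have ht0 : 0 ≤ t := ht.le
    have hp : ((t, x) : ℝ × (ℝ × ℝ)) ∈ Half := mem_Half.mpr ht0
    have hnhds : Half ∈ nhds ((t, x) : ℝ × (ℝ × ℝ)) :=
      prod_mem_nhds (Ici_mem_nhds ht) Filter.univ_mem
    have hF := (hasFDerivWithinAt_ser hdec hdec' hode' hp).hasFDerivAt hnhds
    -- time derivative
    have dt : HasDerivAt (fun τ => ser a (τ, x))
        (ser (fun k t => m k * a k t + -1 * conv c a a k t) (t, x)) t := by
      have h1 : HasDerivAt (fun τ : ℝ => ((τ, x) : ℝ × (ℝ × ℝ))) ((1 : ℝ), (0 : ℝ × ℝ)) t :=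
        (hasDerivAt_id t).prodMk (hasDerivAt_const t x)
      have h2 := HasFDerivAt.comp_hasDerivAt t hF h1
      refine h2.congr_deriv ?_
      rw [lf_apply]
      simp
    have d1 : HasDerivAt (fun y => ser a (t, (y, x.2)))
        (ser (fun k t => m1 k * a k t) (t, x)) x.1 := by
      have h1 : HasDerivAt (fun y : ℝ => ((t, (y, x.2)) : ℝ × (ℝ × ℝ)))
          ((0 : ℝ), ((1 : ℝ), (0 : ℝ))) x.1 :=
        (hasDerivAt_const x.1 t).prodMk ((hasDerivAt_id x.1).prodMk (hasDerivAt_const x.1 x.2))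
      have h2 := HasFDerivAt.comp_hasDerivAt x.1 hF h1
      refine h2.congr_deriv ?_
      rw [lf_apply]
      simp
    have d2 : HasDerivAt (fun y => ser a (t, (x.1, y)))
        (ser (fun k t => m2 k * a k t) (t, x)) x.2 := by
      have h1 : HasDerivAt (fun y : ℝ => ((t, (x.1, y)) : ℝ × (ℝ × ℝ)))
          ((0 : ℝ), ((0 : ℝ), (1 : ℝ))) x.2 :=
        (hasDerivAt_const x.2 t).prodMk ((hasDerivAt_const x.2 x.1).prodMk (hasDerivAt_id x.2))
      have h2 := HasFDerivAt.comp_hasDerivAt x.2 hF h1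
      refine h2.congr_deriv ?_
      rw [lf_apply]
      simp
    have hreal : ∀ s, 0 ≤ s → ∀ y, (((ser a (s, y)).re : ℝ) : ℂ) = ser a (s, y) :=
      fun s hs y => ser_real (fun k => hsym k s hs) y
    have edt := deriv_re dt (by
      filter_upwards [Ioi_mem_nhds ht] with s hs
      exact hreal s (le_of_lt hs) x)
    have ed1 := deriv_re d1 (Filter.Eventually.of_forall fun y => hreal t ht0 (y, x.2))
    have ed2 := deriv_re d2 (Filter.Eventually.of_forall fun y => hreal t ht0 (x.1, y))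
    -- Fourier coefficients
    have hdt := RD.at hdec ht0
    have hsum := RD.sum0 hdt
    have hfc : ∀ k, fc (fun x => (ser a (t, x)).re) k = a k t :=
      fun k => fc_eq hsum (fun y => hreal t ht0 y) k
    have er1 : riesz1 (fun x => (ser a (t, x)).re) x = ∑' k, (r1 k * a k t) * ex k x := by
      unfold riesz1 mult
      exact tsum_congr fun k => by rw [hfc]; rfl
    have er2 : -riesz2 (fun x => (ser a (t, x)).re) x = ∑' k, (-r2 k * a k t) * ex k x := by
      unfold riesz2 mult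
      rw [← tsum_neg]
      exact tsum_congr fun k => by rw [hfc, r2]; ring
    have efl : fracLap α (fun x => (ser a (t, x)).re) x =
        ∑' k, (((eu k ^ (2 * α) : ℝ) : ℂ) * a k t) * ex k x := by
      unfold fracLap mult
      exact tsum_congr fun k => by rw [hfc]
    have h1 := RD.sum0 (RD.mul (b := fun k _ => a k t) (lin1_of_bdd (m := fun k => -r2 k)
      (fun k => by rw [norm_neg]; exact norm_r2_le k)) hdt)
    have h2 := RD.sum0 (RD.mul (b := fun k _ => a k t) lin1_m1 hdt)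
    have h3 := RD.sum0 (RD.mul (b := fun k _ => a k t) (lin1_of_bdd (m := r1) norm_r1_le) hdt)
    have h4 := RD.sum0 (RD.mul (b := fun k _ => a k t) lin1_m2 hdt)
    have c1 := cauchy h1 h2 x
    have c2 := cauchy h3 h4 x
    have c3 := c1.add c2
    have hN : HasSum (fun k => conv c a a k t * ex k x)
        ((∑' k, (-r2 k * a k t) * ex k x) * (∑' k, (m1 k * a k t) * ex k x) +
          (∑' k, (r1 k * a k t) * ex k x) * (∑' k, (m2 k * a k t) * ex k x)) := by
      refine c3.congr_fun ?_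
      intro k
      rw [← add_mul]
      congr 1
      exact (symmetrise hdt k).symm
    have hL : HasSum (fun k => (m k * a k t) * ex k x) (ser (fun k t => m k * a k t) (t, x)) :=
      (RD.summable_ex (RD.mul hm1 hdec) ht0 x).hasSum
    have hT : HasSum (fun k => (m k * a k t + -1 * conv c a a k t) * ex k x)
        (ser (fun k t => m k * a k t + -1 * conv c a a k t) (t, x)) :=
      (RD.summable_ex hdec' ht0 x).hasSum
    have hT2 := hL.sub hN
    have hfun : (fun k => (m k * a k t) * ex k x - conv c a a k t * ex k x) =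
        fun k => (m k * a k t + -1 * conv c a a k t) * ex k x := by
      funext k
      ring
    rw [hfun] at hT2
    have e3 := hT.unique hT2
    have e4 : (κ : ℂ) * ∑' k, (((eu k ^ (2 * α) : ℝ) : ℂ) * a k t) * ex k x =
        -ser (fun k t => m k * a k t) (t, x) := by
      unfold ser
      rw [← tsum_mul_left, ← tsum_neg]
      apply tsum_congr
      intro k
      rw [hm]
      push_cast
      ring
    have e5 : ser (fun k t => m1 k * a k t) (t, x) = ∑' k, (m1 k * a k t) * ex k x := rfl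
    have e6 : ser (fun k t => m2 k * a k t) (t, x) = ∑' k, (m2 k * a k t) * ex k x := rfl
    rw [edt, ed1, ed2, er1, er2, efl, e4, e3, e5, e6]
    ring


end Bri

theorem p_BRI : Stmt_BRI := fun _ _ _ _ h1 h2 h3 h4 h5 h6 h7 =>
  Bri.globallyRegular_of_coeffs h1 h2 h3 h4 h5 h6 h7

end Pool.SQGF
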