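import Pool.Agent.Work.MP_a2fcf1_an_fs.Interface

set_option autoImplicit false

namespace Pool.SQGF

open Finset Set

theorem BST_cont {B : Finset (ℤ × ℤ)} {κ α T : ℝ} {x : ℤ × ℤ → ℝ → ℂ} (h : GS B κ α T x) (M : ℕ)
    (s : ℝ) : ContinuousOn (fun t => Y B M s (fun k => x k t)) (Icc 0 T) := by
  unfold Y
  apply continuousOn_finsetSum
  intro k hk
  apply ContinuousOn.mul continuousOn_const
  apply ContinuousOn.pow
  apply ContinuousOn.norm
  exact fun t ht => (h.ode k hk t ht).continuousWithinAt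

theorem BST_res {B : Finset (ℤ × ℤ)} {κ α T : ℝ} {x : ℤ × ℤ → ℝ → ℂ} (h : GS B κ α T x) {t : ℝ}
    (ht : t ≤ T) : GS B κ α t x := by
  refine ⟨fun s hs => h.adm s ⟨hs.1, hs.2.trans ht⟩, fun k hk s hs => ?_⟩
  exact (h.ode k hk s ⟨hs.1, hs.2.trans ht⟩).mono (Icc_subset_Icc le_rfl ht)

theorem BST_pow {K M A κ α : ℝ} (hK : 0 ≤ K) (hM : 0 ≤ M) (hA : 0 ≤ A) (hκ : 0 < κ) (hα : 0 < α)
    (hα' : α < 1 / 2) :
    (6 * K * M * A / κ) ^ (1 + (2 - 2 * α) / α) ≤
      (6 * K * M) ^ (1 + (2 - 2 * α) / α) * (1 + A ^ 2 / κ ^ 2) ^ (1 / α - 1 / 2) := by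
  have e1 : 6 * K * M * A / κ = (6 * K * M) * (A / κ) := by ring
  rw [e1, Real.mul_rpow (by positivity) (by positivity)]
  apply mul_le_mul_of_nonneg_left _ (by positivity)
  have e2 : 1 + (2 - 2 * α) / α = 2 * (1 / α - 1 / 2) := by
    field_simp
    ring
  have hp : 0 ≤ 1 / α - 1 / 2 := by
    have : 2 ≤ 1 / α := by
      rw [le_div_iff₀ hα]
      linarith
    linarith
  have hAκ : 0 ≤ A / κ := by positivity
  rw [e2, Real.rpow_mul hAκ, Real.rpow_two]
  apply Real.rpow_le_rpow (by positivity) _ hp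
  rw [div_pow]
  linarith

theorem p_BST (h1 : Stmt_INT) : Stmt_BST := by
  intro M α hM hα hα'
  set σ : ℝ := 2 - 2 * α with hσ
  set K : ℝ := (σ + 1) * 2 ^ σ with hK
  set D : ℝ := (M + 1) * (6 * K * M) ^ (1 + σ / α) with hD
  have hσ1 : 1 < σ := by rw [hσ]; linarith
  have hK0 : 0 ≤ K := by positivity
  have hM0 : (0 : ℝ) ≤ M := Nat.cast_nonneg M
  have hD0 : 0 ≤ D := by positivity
  refine ⟨α / 16384 / (2 * (1 + D)), by positivity, ?_⟩
  intro B κ T A x hκ hA hT hFr hGS hTT hY1 hY0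
  set θ : ℝ := α / 16384 * κ ^ 2 with hθ
  have hθ0 : 0 < θ := by positivity
  set c : ℝ := α / 16384 / (2 * (1 + D)) with hc
  have hcD : (1 + D) * (c * κ ^ 2) = θ / 2 := by
    rw [hc, hθ]
    field_simp
  have hYn : 0 ≤ Y B M 0 (fun k => x k 0) := by
    unfold Y
    apply Finset.sum_nonneg
    intro k _
    unfold wt
    split_ifs
    · have := Pool.Agent.Work.MP_a2fcf1_an_h64.eu_nonneg k
      positivity
    · simp
  -- the a priori bound on a shorter interval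
  have key : ∀ t ∈ Icc (0 : ℝ) T, (∀ s ∈ Ico (0 : ℝ) t, Y B M σ (fun k => x k s) ≤ θ) →
      Y B M σ (fun k => x k t) ≤ θ / 2 := by
    intro t ht hs
    have h := h1 M B κ α t σ A x hM hκ hα hα' (by linarith) (by rw [hσ]; linarith) hA ht.1 hFr
      (BST_res hGS ht.2) hTT hs
    have h2 := BST_pow hK0 hM0 hA hκ hα hα'
    have e1 : 6 * ((σ + 1) * 2 ^ σ) * (M : ℝ) * A / κ = 6 * K * M * A / κ := by rw [hK]
    rw [e1] at h
    have h3 : (M + 1) * (6 * K * M * A / κ) ^ (1 + σ / α) * Y B M 0 (fun k => x k 0) ≤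
        D * (c * κ ^ 2) := by
      calc (M + 1) * (6 * K * M * A / κ) ^ (1 + σ / α) * Y B M 0 (fun k => x k 0)
          ≤ (M + 1) * ((6 * K * M) ^ (1 + σ / α) * (1 + A ^ 2 / κ ^ 2) ^ (1 / α - 1 / 2)) *
              Y B M 0 (fun k => x k 0) := by
            apply mul_le_mul_of_nonneg_right _ hYn
            exact mul_le_mul_of_nonneg_left h2 (by positivity)
        _ = D * ((1 + A ^ 2 / κ ^ 2) ^ (1 / α - 1 / 2) * Y B M 0 (fun k => x k 0)) := by
            rw [hD]; ring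
        _ ≤ D * (c * κ ^ 2) := mul_le_mul_of_nonneg_left hY0 hD0
    have h4 : Y B M σ (fun k => x k t) ≤ c * κ ^ 2 + D * (c * κ ^ 2) :=
      h.trans (add_le_add hY1 h3)
    rw [← hcD]
    linarith
  intro t0 ht0
  by_contra hcon
  push Not at hcon
  have hcont := (BST_cont hGS M σ).mono (Icc_subset_Icc le_rfl ht0.2)
  have hclosed : IsClosed (Icc 0 t0 ∩ (fun t => Y B M σ (fun k => x k t)) ⁻¹' Ici θ) :=
    hcont.preimage_isClosed_of_isClosed isClosed_Icc isClosed_Ici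
  have hcomp : IsCompact (Icc 0 t0 ∩ (fun t => Y B M σ (fun k => x k t)) ⁻¹' Ici θ) :=
    isCompact_Icc.of_isClosed_subset hclosed inter_subset_left
  obtain ⟨t1, ht1, hmin⟩ := hcomp.exists_isLeast ⟨t0, ⟨ht0.1, le_rfl⟩, hcon.le⟩
  have h5 := key t1 ⟨ht1.1.1, ht1.1.2.trans ht0.2⟩ (by
    intro s hs
    by_contra h6
    push Not at h6
    have h7 := hmin ⟨⟨hs.1, hs.2.le.trans ht1.1.2⟩, h6.le⟩
    exact absurd hs.2 (not_lt.2 h7))
  have h8 : θ ≤ Y B M σ (fun k => x k t1) := ht1.2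
  linarith

end Pool.SQGF
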