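import Pool.Agent.Work.MP_a2fcf1_an_fs.Interface

/-! # Block DAT: the norms of the truncated data -/

set_option autoImplicit false

namespace Pool.SQGF

open Finset Set
open Pool.Agent.Work.MP_a2fcf1_an_h64 (cr sc eu n1 ex fc GloballyRegular eu_nonneg)

noncomputable section

theorem DAT_wt_nonneg (M : ℕ) (s : ℝ) (k : ℤ × ℤ) : 0 ≤ wt M s k := by
  unfold wt
  split_ifs
  · exact Real.rpow_nonneg (eu_nonneg k) _
  · exact le_rfl

theorem DAT_wt_le (M : ℕ) (s : ℝ) (m : ℕ) (hs : 0 ≤ s) (hm : 2 * s ≤ m) (k : ℤ × ℤ) :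
    wt M s k ≤ (1 + eu k) ^ m := by
  have he := eu_nonneg k
  unfold wt
  split_ifs
  · calc eu k ^ (2 * s) ≤ (1 + eu k) ^ (2 * s) :=
          Real.rpow_le_rpow he (by linarith) (by linarith)
      _ ≤ (1 + eu k) ^ ((m : ℕ) : ℝ) :=
          Real.rpow_le_rpow_of_exponent_le (by linarith) hm
      _ = (1 + eu k) ^ m := Real.rpow_natCast _ _
  · positivity

theorem p_DAT : Stmt_DAT := by
  intro M Γ a hM hΓ hs
  have hsum : Summable fun k => ‖a k‖ := by
    have := hs 0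
    simpa using this
  set S : ℝ := ∑' k, ‖a k‖ with hS
  have hb : ∀ k, ‖a k‖ ≤ S := fun k => hsum.le_tsum k fun j _ => norm_nonneg _
  have hmem : ∀ (n : ℕ) (k : ℤ × ℤ), k ∈ BB Γ n ↔
      ((-(n : ℤ) ≤ k.1 ∧ k.1 ≤ n) ∧ (-(n : ℤ) ≤ k.2 ∧ k.2 ≤ n)) ∧ k ∈ Γ ∧ k ≠ 0 := by
    intro n k
    unfold BB
    simp only [Finset.mem_filter, Finset.mem_product, Finset.mem_Icc]
  refine ⟨fun n => ⟨fun k hk => ?_, fun k hk => ?_⟩, fun n => ?_, fun n s hs0 => ?_⟩
  · rw [hmem] at hk ⊢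
    obtain ⟨⟨⟨h1, h2⟩, h3, h4⟩, h5, h6⟩ := hk
    refine ⟨⟨⟨?_, ?_⟩, ?_, ?_⟩, Γ.neg_mem h5, neg_ne_zero.mpr h6⟩
    · simp only [Prod.fst_neg]; omega
    · simp only [Prod.fst_neg]; omega
    · simp only [Prod.snd_neg]; omega
    · simp only [Prod.snd_neg]; omega
  · rw [hmem] at hk
    exact hΓ k hk.2.1 hk.2.2
  · have h1 : TT (BB Γ n) a = ∑ k ∈ BB Γ n, if k = 0 then 0 else ‖a k‖ ^ 2 := by
      unfold TT
      refine Finset.sum_congr rfl fun k hk => ?_
      rw [if_neg ((hmem n k).mp hk).2.2]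
    rw [h1]
    refine Summable.sum_le_tsum _ (fun k _ => by split_ifs <;> positivity) ?_
    refine Summable.of_nonneg_of_le (fun k => by split_ifs <;> positivity) (fun k => ?_)
      (hsum.mul_left S)
    split_ifs
    · have := hb k
      have h0 := norm_nonneg (a k)
      exact mul_nonneg (h0.trans this) h0
    · rw [sq]
      exact mul_le_mul_of_nonneg_right (hb k) (norm_nonneg _)
  · unfold Y
    refine Summable.sum_le_tsum _
      (fun k _ => mul_nonneg (DAT_wt_nonneg M s k) (by positivity)) ?_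
    obtain ⟨m, hm⟩ := exists_nat_ge (2 * s)
    refine Summable.of_nonneg_of_le
      (fun k => mul_nonneg (DAT_wt_nonneg M s k) (by positivity)) (fun k => ?_)
      ((hs m).mul_left S)
    have h1 := DAT_wt_le M s m hs0 hm k
    have h2 := hb k
    have h0 := norm_nonneg (a k)
    have h3 : 0 ≤ (1 + eu k) ^ m := by
      have := eu_nonneg k
      positivity
    calc wt M s k * ‖a k‖ ^ 2 ≤ (1 + eu k) ^ m * (S * ‖a k‖) := by
          apply mul_le_mul h1 _ (by positivity) h3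
          rw [sq]
          exact mul_le_mul_of_nonneg_right h2 h0
      _ = S * ((1 + eu k) ^ m * ‖a k‖) := by ring

end

end Pool.SQGF
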