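import Pool.Agent.Work.MP_a2fcf1_an_fs.Interface

/-! Block EN (helper75) -/

set_option autoImplicit false

namespace Pool.SQGF

open Finset Set
open Pool.Agent.Work.MP_a2fcf1_an_h64 (cr sc eu n1 ex fc GloballyRegular)

theorem p_EN : Stmt_EN := by
  intro B κ α T x w hx t ht
  have h1 : ∀ k ∈ B, HasDerivWithinAt (fun t => w k * ‖x k t‖ ^ 2)
      (w k * (2 * inner ℝ (x k t) (-(((κ * eu k ^ (2 * α) : ℝ) : ℂ) * x k t) -
        NB B (fun j => x j t) k))) (Icc 0 T) t :=
    fun k hk => ((hx.ode k hk t ht).norm_sq).const_mul (w k)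
  have h2 := HasDerivWithinAt.fun_sum h1
  refine h2.congr_deriv ?_
  have h3 : ∀ k ∈ B, w k * (2 * inner ℝ (x k t) (-(((κ * eu k ^ (2 * α) : ℝ) : ℂ) * x k t) -
        NB B (fun j => x j t) k)) =
      -(2 * κ * (w k * eu k ^ (2 * α) * ‖x k t‖ ^ 2)) -
        2 * (w k * ((starRingEnd ℂ) (x k t) * NB B (fun j => x j t) k).re) := by
    intro k _
    rw [Complex.inner]
    have h4 : (-(((κ * eu k ^ (2 * α) : ℝ) : ℂ) * x k t) - NB B (fun j => x j t) k) *
        (starRingEnd ℂ) (x k t) =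
        -(((κ * eu k ^ (2 * α) : ℝ) : ℂ) * (x k t * (starRingEnd ℂ) (x k t))) -
          (starRingEnd ℂ) (x k t) * NB B (fun j => x j t) k := by ring
    rw [h4, Complex.mul_conj, Complex.sub_re, Complex.neg_re, ← Complex.ofReal_mul,
      Complex.ofReal_re, Complex.normSq_eq_norm_sq]
    ring
  rw [Finset.sum_congr rfl h3, Finset.sum_sub_distrib, Finset.sum_neg_distrib, ← Finset.mul_sum,
    ← Finset.mul_sum]
  rfl

end Pool.SQGF
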