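import Pool.Agent.Work.MP_a2fcf1_an_fs.Interface
set_option autoImplicit false

/-! Block GAL: Galerkin solutions exist for all times. -/

namespace Pool.SQGF

open Finset Set
open Pool.Agent.Work.MP_a2fcf1_an_h64 (cr sc eu n1 ex fc GloballyRegular)

noncomputable section

theorem GAL_ode {E : Type} [NormedAddCommGroup E] [NormedSpace ℝ E] [CompleteSpace E] (W : E → E)
    (hC : ContDiff ℝ 1 W) (hW : HasCompactSupport W) (T : ℝ) (hT : 0 ≤ T) (x₀ : E) :
    ∃ x : ℝ → E, x 0 = x₀ ∧ ∀ t ∈ Icc (0 : ℝ) T, HasDerivWithinAt x (W (x t)) (Icc 0 T) t := by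
  obtain ⟨K, hK⟩ := ContDiff.lipschitzWith_of_hasCompactSupport (𝕂 := ℝ) hW hC one_ne_zero
  obtain ⟨C, hCb⟩ := hC.continuous.bounded_above_of_compact_support hW
  have hC0 : 0 ≤ C := (norm_nonneg _).trans (hCb 0)
  have hP : IsPicardLindelof (fun _ => W) (tmin := 0) (tmax := T) ⟨0, by simp [hT]⟩ x₀
      (⟨C * T, mul_nonneg hC0 hT⟩) 0 ⟨C, hC0⟩ K := by
    refine IsPicardLindelof.of_time_independent (fun x _ => hCb x) hK.lipschitzOnWith ?_
    simp only [sub_zero, sub_self, max_eq_left hT, NNReal.coe_zero]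
    exact le_rfl
  exact IsPicardLindelof.exists_eq_forall_mem_Icc_hasDerivWithinAt₀ hP

/-- extension by zero -/
def GAL_ext (B : Finset (ℤ × ℤ)) (x : B → ℂ) (j : ℤ × ℤ) : ℂ := if h : j ∈ B then x ⟨j, h⟩ else 0

theorem GAL_ext_mem {B : Finset (ℤ × ℤ)} (x : B → ℂ) {j : ℤ × ℤ} (h : j ∈ B) :
    GAL_ext B x j = x ⟨j, h⟩ := by
  unfold GAL_ext
  rw [dif_pos h]

theorem GAL_ext_not {B : Finset (ℤ × ℤ)} (x : B → ℂ) {j : ℤ × ℤ} (h : j ∉ B) :
    GAL_ext B x j = 0 := by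
  unfold GAL_ext
  rw [dif_neg h]

/-- the vector field -/
def GAL_V (B : Finset (ℤ × ℤ)) (κ α : ℝ) (x : B → ℂ) (k : B) : ℂ :=
  -(((κ * eu k ^ (2 * α) : ℝ) : ℂ) * x k) - NB B (GAL_ext B x) k

theorem GAL_ext_contDiff (B : Finset (ℤ × ℤ)) (j : ℤ × ℤ) :
    ContDiff ℝ 1 (fun x : B → ℂ => GAL_ext B x j) := by
  by_cases h : j ∈ B
  · have h1 : (fun x : B → ℂ => GAL_ext B x j) = fun x => x ⟨j, h⟩ := by
      funext x
      exact GAL_ext_mem x h
    rw [h1]
    fun_prop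
  · have h1 : (fun x : B → ℂ => GAL_ext B x j) = fun x => 0 := by
      funext x
      exact GAL_ext_not x h
    rw [h1]
    exact contDiff_const

theorem GAL_V_contDiff (B : Finset (ℤ × ℤ)) (κ α : ℝ) (k : B) :
    ContDiff ℝ 1 (fun x : B → ℂ => GAL_V B κ α x k) := by
  unfold GAL_V NB
  have h1 : ContDiff ℝ 1 (fun x : B → ℂ => x k) := by fun_prop
  refine ((contDiff_const.mul h1).neg).sub ?_
  refine ContDiff.sum fun j _ => ?_
  exact contDiff_const.mul ((GAL_ext_contDiff B j).mul (GAL_ext_contDiff B _))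

/-- the symmetrised vector field -/
def GAL_PV (B : Finset (ℤ × ℤ)) (κ α : ℝ) (hs : Sym B) (x : B → ℂ) (k : B) : ℂ :=
  (1 / 2 : ℂ) * (GAL_V B κ α x k + (starRingEnd ℂ) (GAL_V B κ α x ⟨-k, hs k k.2⟩))

theorem GAL_PV_contDiff (B : Finset (ℤ × ℤ)) (κ α : ℝ) (hs : Sym B) :
    ContDiff ℝ 1 (fun x : B → ℂ => GAL_PV B κ α hs x) := by
  rw [contDiff_pi]
  intro k
  unfold GAL_PV
  refine contDiff_const.mul ((GAL_V_contDiff B κ α k).add ?_)
  exact Complex.conjCLE.contDiff.comp (GAL_V_contDiff B κ α ⟨-k, hs k k.2⟩)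

theorem GAL_PV_sym (B : Finset (ℤ × ℤ)) (κ α : ℝ) (hs : Sym B) (x : B → ℂ) (k : B) :
    (starRingEnd ℂ) (GAL_PV B κ α hs x ⟨-k, hs k k.2⟩) = GAL_PV B κ α hs x k := by
  have h1 : (⟨-(-(k : ℤ × ℤ)), hs _ (hs k k.2)⟩ : B) = k := by
    apply Subtype.ext
    exact neg_neg _
  unfold GAL_PV
  simp only [h1]
  rw [map_mul, map_add, Complex.conj_conj, add_comm]
  congr 1
  rw [map_div₀, map_one, map_ofNat]

theorem GAL_NB_sym {B : Finset (ℤ × ℤ)} (hs : Sym B) {x : ℤ × ℤ → ℂ}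
    (hx : ∀ k, x (-k) = (starRingEnd ℂ) (x k)) (k : ℤ × ℤ) :
    NB B x (-k) = (starRingEnd ℂ) (NB B x k) := by
  unfold NB
  rw [map_sum]
  refine Finset.sum_nbij' (fun j => -j) (fun j => -j) (fun j hj => hs j hj) (fun j hj => hs j hj)
    (fun j _ => neg_neg j) (fun j _ => neg_neg j) ?_
  intro j _
  have h1 : -k - j = -(k - -j) := by ring
  have h2 : sc j (-(k - -j)) = sc (-j) (k - -j) := by
    have := Pool.Agent.Work.MP_a2fcf1_an_h64.sc_neg_neg (-j) (k - -j)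
    rw [neg_neg] at this
    exact this
  rw [map_mul, map_mul, Complex.conj_ofReal, h1, h2, ← hx, ← hx, neg_neg]

theorem GAL_V_sym {B : Finset (ℤ × ℤ)} {κ α : ℝ} (hs : Sym B) {x : B → ℂ}
    (hx : ∀ k, GAL_ext B x (-k) = (starRingEnd ℂ) (GAL_ext B x k)) (k : B) :
    GAL_V B κ α x ⟨-k, hs k k.2⟩ = (starRingEnd ℂ) (GAL_V B κ α x k) := by
  unfold GAL_V
  rw [map_sub, map_neg, map_mul, Complex.conj_ofReal, ← GAL_NB_sym hs hx]
  have h1 : x ⟨-k, hs k k.2⟩ = (starRingEnd ℂ) (x k) := by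
    have := hx k
    rw [GAL_ext_mem x (hs k k.2), GAL_ext_mem x k.2] at this
    exact this
  rw [h1]
  simp

theorem p_GAL (hCON : Stmt_CON) : Stmt_GAL := by
  intro B κ α T a hκ hα hT hs ha
  set x₀ : B → ℂ := fun k => a k with hx₀
  set e0 : ℝ := ∑ k : B, ‖x₀ k‖ ^ 2 with he0
  have he0' : 0 ≤ e0 := Finset.sum_nonneg fun k _ => by positivity
  set R : ℝ := √e0 + 1 with hR
  have hR0 : 0 < R := by positivity
  let φ : ContDiffBump (0 : B → ℂ) := ⟨R, R + 1, hR0, by linarith⟩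
  set W : (B → ℂ) → (B → ℂ) := fun x => φ x • GAL_PV B κ α hs x with hW
  have hWC : ContDiff ℝ 1 W := φ.contDiff.smul (GAL_PV_contDiff B κ α hs)
  have hWS : HasCompactSupport W := φ.hasCompactSupport.smul_right
  obtain ⟨X, hX0, hX⟩ := GAL_ode W hWC hWS T hT x₀
  have hXk : ∀ k : B, ∀ t ∈ Icc (0 : ℝ) T,
      HasDerivWithinAt (fun t => X t k) (W (X t) k) (Icc 0 T) t := by
    intro k t ht
    exact hasDerivWithinAt_pi.1 (hX t ht) k
  have hWk : ∀ x : B → ℂ, ∀ k : B, W x k = ((φ x : ℝ) : ℂ) * GAL_PV B κ α hs x k := by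
    intro x k
    rw [hW]
    simp
  -- symmetry
  have hsymk : ∀ k : B, ∀ t ∈ Icc (0 : ℝ) T, X t ⟨-k, hs k k.2⟩ = (starRingEnd ℂ) (X t k) := by
    intro k t ht
    have hD : ∀ t ∈ Icc (0 : ℝ) T, HasDerivWithinAt
        (fun t => X t ⟨-k, hs k k.2⟩ - (starRingEnd ℂ) (X t k)) 0 (Icc 0 T) t := by
      intro t ht
      have h1 := hXk ⟨-k, hs k k.2⟩ t ht
      have h2 := hXk k t ht
      have h3 : HasDerivWithinAt (fun t => (starRingEnd ℂ) (X t k)) ((starRingEnd ℂ) (W (X t) k))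
          (Icc 0 T) t :=
        (Complex.conjCLE.toContinuousLinearMap.hasFDerivAt.comp_hasDerivWithinAt t h2)
      have h4 := h1.sub h3
      have h5 : W (X t) ⟨-k, hs k k.2⟩ - (starRingEnd ℂ) (W (X t) k) = 0 := by
        rw [hWk, hWk, map_mul, Complex.conj_ofReal, ← GAL_PV_sym B κ α hs (X t) k, Complex.conj_conj,
          sub_self]
      rw [h5] at h4
      exact h4
    have h0 := constant_of_derivWithin_zero (fun t ht => (hD t ht).differentiableWithinAt)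
      (fun t ht => (hD t ⟨ht.1, ht.2.le⟩).derivWithin
        (uniqueDiffOn_Icc (lt_of_le_of_lt ht.1 ht.2) t ⟨ht.1, ht.2.le⟩)) t ht
    have h1 : X 0 ⟨-k, hs k k.2⟩ - (starRingEnd ℂ) (X 0 k) = 0 := by
      rw [hX0, hx₀]
      simp only
      rw [ha, sub_self]
    rw [h1] at h0
    exact sub_eq_zero.1 h0
  have hsym : ∀ t ∈ Icc (0 : ℝ) T, ∀ k, GAL_ext B (X t) (-k) = (starRingEnd ℂ) (GAL_ext B (X t) k) := by
    intro t ht k
    by_cases hk : k ∈ B
    · rw [GAL_ext_mem _ (hs k hk), GAL_ext_mem _ hk]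
      exact hsymk ⟨k, hk⟩ t ht
    · have hk' : -k ∉ B := fun h => hk (by have := hs _ h; rwa [neg_neg] at this)
      rw [GAL_ext_not _ hk, GAL_ext_not _ hk', map_zero]
  have hadm : ∀ t ∈ Icc (0 : ℝ) T, Adm B (GAL_ext B (X t)) := fun t ht =>
    ⟨fun k hk => GAL_ext_not _ hk, hsym t ht⟩
  have hPV : ∀ t ∈ Icc (0 : ℝ) T, ∀ k, GAL_PV B κ α hs (X t) k = GAL_V B κ α (X t) k := by
    intro t ht k
    unfold GAL_PV
    rw [GAL_V_sym hs (hsym t ht) k, Complex.conj_conj]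
    ring
  -- energy
  have hen : ∀ t ∈ Icc (0 : ℝ) T, HasDerivWithinAt (fun t => ∑ k : B, ‖X t k‖ ^ 2)
      (∑ k : B, 2 * inner ℝ (X t k) (W (X t) k)) (Icc 0 T) t := by
    intro t ht
    exact HasDerivWithinAt.fun_sum fun k _ => (hXk k t ht).norm_sq
  have hen' : ∀ t ∈ Icc (0 : ℝ) T, ∑ k : B, 2 * inner ℝ (X t k) (W (X t) k) ≤ 0 := by
    intro t ht
    have hc := (hCON B (GAL_ext B (X t)) hs (hadm t ht)).1
    unfold Sw at hc
    have h1 : ∀ k : B, 2 * inner ℝ (X t k) (W (X t) k) =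
        (2 * φ (X t)) * (-(κ * eu k ^ (2 * α) * ‖X t k‖ ^ 2) -
          (1 * ((starRingEnd ℂ) (GAL_ext B (X t) k) * NB B (GAL_ext B (X t)) k).re)) := by
      intro k
      rw [hWk, hPV t ht k, GAL_V, Complex.inner, GAL_ext_mem _ k.2, ← Complex.normSq_eq_norm_sq,
        Complex.normSq_apply]
      simp only [Complex.mul_re, Complex.mul_im, Complex.sub_re, Complex.sub_im, Complex.neg_re,
        Complex.neg_im, Complex.conj_re, Complex.conj_im, Complex.ofReal_re, Complex.ofReal_im]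
      ring
    rw [Finset.sum_congr rfl fun k _ => h1 k, ← Finset.mul_sum, Finset.sum_sub_distrib]
    have h2 : ∑ k : B, (1 * ((starRingEnd ℂ) (GAL_ext B (X t) k) * NB B (GAL_ext B (X t)) k).re) = 0 := by
      rw [← hc]
      exact Finset.sum_coe_sort B (fun k =>
        1 * ((starRingEnd ℂ) (GAL_ext B (X t) k) * NB B (GAL_ext B (X t)) k).re)
    rw [h2, sub_zero, Finset.sum_neg_distrib]
    have h3 : 0 ≤ ∑ k : B, κ * eu k ^ (2 * α) * ‖X t k‖ ^ 2 := by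
      refine Finset.sum_nonneg fun k _ => ?_
      have := Pool.Agent.Work.MP_a2fcf1_an_h64.eu_nonneg k
      positivity
    have h4 : 0 ≤ φ (X t) := φ.nonneg
    nlinarith
  have hanti : AntitoneOn (fun t => ∑ k : B, ‖X t k‖ ^ 2) (Icc (0 : ℝ) T) := by
    refine antitoneOn_of_hasDerivWithinAt_nonpos (convex_Icc 0 T)
      (fun t ht => (hen t ht).continuousWithinAt)
      (fun t ht => (hen t (interior_subset ht)).mono interior_subset)
      (fun t ht => hen' t (interior_subset ht))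
  have hφ : ∀ t ∈ Icc (0 : ℝ) T, φ (X t) = 1 := by
    intro t ht
    apply φ.one_of_mem_closedBall
    rw [mem_closedBall_zero_iff]
    change ‖X t‖ ≤ R
    rw [pi_norm_le_iff_of_nonneg hR0.le]
    intro k
    have h1 : ∑ k : B, ‖X t k‖ ^ 2 ≤ e0 := by
      have := hanti (left_mem_Icc.2 hT) ht ht.1
      simp only at this
      rw [hX0] at this
      exact this
    have h2 : ‖X t k‖ ^ 2 ≤ e0 :=
      (Finset.single_le_sum (f := fun k : B => ‖X t k‖ ^ 2) (fun k _ => by positivity)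
        (Finset.mem_univ k)).trans h1
    have h3 : ‖X t k‖ ≤ √e0 := Real.le_sqrt_of_sq_le h2
    rw [hR]
    linarith
  refine ⟨fun k t => GAL_ext B (X t) k, ⟨hadm, ?_⟩, ?_⟩
  · intro k hk t ht
    have h1 := hXk ⟨k, hk⟩ t ht
    have h2 : (fun t => X t ⟨k, hk⟩) = fun t => GAL_ext B (X t) k := by
      funext t
      rw [GAL_ext_mem _ hk]
    rw [h2, hWk, hφ t ht, hPV t ht ⟨k, hk⟩, Complex.ofReal_one, one_mul, GAL_V,
      ← GAL_ext_mem (X t) hk] at h1
    exact h1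
  · intro k hk
    simp only
    rw [GAL_ext_mem _ hk, hX0]

end

end Pool.SQGF
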