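import Pool.Agent.Work.MP_a2fcf1_an_fs.Interface

/-! # Block GRW (helper36) -/

set_option autoImplicit false

namespace Pool.SQGF

open Finset Set

theorem p_GRW : Stmt_GRW := by
  intro f f' κ D T hκ hD hT hf hb
  -- `g` is antitone
  have hE : ∀ t : ℝ, HasDerivAt (fun t : ℝ => D / (2 * κ) * Real.exp (-(2 * κ * t)))
      (-(D * Real.exp (-(2 * κ * t)))) t := by
    intro t
    have h1 : HasDerivAt (fun t : ℝ => -(2 * κ * t)) (-(2 * κ)) t := by
      have h := (hasDerivAt_id t).const_mul (-(2 * κ))
      refine (h.congr_deriv (mul_one _)).congr_of_eventuallyEq ?_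
      filter_upwards with y
      simp only [id]
      ring
    have h2 := (h1.exp).const_mul (D / (2 * κ))
    refine h2.congr_deriv ?_
    field_simp
  have hg : ∀ t ∈ Icc 0 T, HasDerivWithinAt
      (fun t : ℝ => f t + D / (2 * κ) * Real.exp (-(2 * κ * t)))
      (f' t + -(D * Real.exp (-(2 * κ * t)))) (Icc 0 T) t :=
    fun t ht => (hf t ht).add (hE t).hasDerivWithinAt
  have hcont : ContinuousOn (fun t : ℝ => f t + D / (2 * κ) * Real.exp (-(2 * κ * t)))
      (Icc 0 T) := fun t ht => (hg t ht).continuousWithinAt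
  have hanti : AntitoneOn (fun t : ℝ => f t + D / (2 * κ) * Real.exp (-(2 * κ * t)))
      (Icc 0 T) := by
    apply antitoneOn_of_hasDerivWithinAt_nonpos (convex_Icc 0 T) hcont
      (f' := fun t => f' t + -(D * Real.exp (-(2 * κ * t))))
    · intro t ht
      exact (hg t (interior_subset ht)).mono interior_subset
    · intro t ht
      rw [interior_Icc] at ht
      have := hb t ⟨ht.1.le, ht.2⟩
      linarith
  have h := hanti (left_mem_Icc.mpr hT) (right_mem_Icc.mpr hT) hT
  simp only [mul_zero, neg_zero, Real.exp_zero, mul_one] at h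
  have h3 : 0 ≤ D / (2 * κ) * Real.exp (-(2 * κ * T)) := by positivity
  linarith

end Pool.SQGF
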