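import Pool.Agent.Work.MP_a2fcf1_an_fs.Interface

/-! # Block INT (helper36) -/

set_option autoImplicit false

namespace Pool.SQGF

open Finset Set
open Pool.Agent.Work.MP_a2fcf1_an_h64 (cr sc eu n1 ex fc GloballyRegular one_le_eu)

noncomputable section

theorem INT_eu {M : ℕ} {k : ℤ × ℤ} (h : (M : ℤ) < nq k) : 0 < eu k := by
  refine lt_of_lt_of_le one_pos (one_le_eu ?_)
  rintro rfl
  have h1 : nq 0 = 0 := by simp [nq]
  rw [h1] at h
  omega

theorem INT_Y_nonneg (B : Finset (ℤ × ℤ)) (M : ℕ) (s : ℝ) (x : ℤ × ℤ → ℂ) : 0 ≤ Y B M s x := by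
  unfold Y
  refine Finset.sum_nonneg fun k _ => mul_nonneg ?_ (sq_nonneg _)
  unfold wt
  split_ifs with h
  · exact Real.rpow_nonneg (INT_eu h).le _
  · exact le_rfl

theorem INT_TT_nonneg (B : Finset (ℤ × ℤ)) (x : ℤ × ℤ → ℂ) : 0 ≤ TT B x := by
  unfold TT
  positivity

theorem INT_shift (B : Finset (ℤ × ℤ)) (M : ℕ) (s α : ℝ) (x : ℤ × ℤ → ℂ) :
    ∑ k ∈ B, wt M s k * eu k ^ (2 * α) * ‖x k‖ ^ 2 = Y B M (s + α) x := by
  unfold Y
  refine Finset.sum_congr rfl fun k _ => ?_
  congr 1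
  unfold wt
  split_ifs with h
  · rw [← Real.rpow_add (INT_eu h)]
    congr 1
    ring
  · rw [zero_mul]

theorem p_INT (hEN : Stmt_EN) (hL2D : Stmt_L2D) (hSBA : Stmt_SBA) (hGRW : Stmt_GRW)
    (hYNG : Stmt_YNG) : Stmt_INT := by
  intro M B κ α T s A x hM hκ hα hα' hs hs3 hA hT hFr hGS hTT0 hcr
  set K : ℝ := (s + 1) * 2 ^ s with hK
  have h2s : (2 : ℝ) ^ s ≤ 8 := by
    calc (2 : ℝ) ^ s ≤ (2 : ℝ) ^ (3 : ℝ) := Real.rpow_le_rpow_of_exponent_le (by norm_num) hs3
      _ = 8 := by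
        have : (3 : ℝ) = ((3 : ℕ) : ℝ) := by norm_num
        rw [this, Real.rpow_natCast]
        norm_num
  have h2s0 : 0 ≤ (2 : ℝ) ^ s := Real.rpow_nonneg (by norm_num) _
  have hK0 : 0 ≤ K := mul_nonneg (by linarith) h2s0
  have hK32 : K ≤ 32 := by
    calc K ≤ 4 * 8 := mul_le_mul (by linarith) h2s h2s0 (by norm_num)
      _ = 32 := by norm_num
  set G : ℝ := 6 * K * M * A with hG
  have hM0 : (0 : ℝ) ≤ M := Nat.cast_nonneg M
  have hG0 : 0 ≤ G := by positivity
  set D : ℝ := G * (G / κ) ^ (s / α) * (2 * (M + 1) * Y B M 0 (fun k => x k 0)) with hD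
  have hGκ : 0 ≤ G / κ := div_nonneg hG0 hκ.le
  have hp0 : 0 ≤ (G / κ) ^ (s / α) := Real.rpow_nonneg hGκ _
  have hY00 := INT_Y_nonneg B M 0 (fun k => x k 0)
  have hD0 : 0 ≤ D := by positivity
  have hder : ∀ t ∈ Icc 0 T, HasDerivWithinAt (fun t => Y B M s (fun k => x k t))
      (-(2 * κ * Y B M (s + α) (fun k => x k t)) -
        2 * Sw B (wt M s) (fun k => x k t)) (Icc 0 T) t := by
    intro t ht
    have h := hEN B κ α T x (wt M s) hGS t ht
    rw [INT_shift] at h
    exact h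
  have hbound : ∀ t ∈ Ico 0 T, (-(2 * κ * Y B M (s + α) (fun k => x k t)) -
        2 * Sw B (wt M s) (fun k => x k t)) ≤ D * Real.exp (-(2 * κ * t)) := by
    intro t ht
    have htI : t ∈ Icc 0 T := ⟨ht.1, ht.2.le⟩
    obtain ⟨hT1, hT2⟩ := hL2D M B κ α T x hM hκ hα hFr hGS t htI
    have hexp : Real.exp (-(2 * κ * t)) ≤ 1 := by
      rw [Real.exp_le_one_iff]
      have : 0 ≤ 2 * κ * t := by
        have := ht.1
        positivity
      linarith
    have hTTt : TT B (fun k => x k t) ≤ A ^ 2 := by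
      refine hT1.trans (le_trans ?_ hTT0)
      calc Real.exp (-(2 * κ * t)) * TT B (fun k => x k 0)
          ≤ 1 * TT B (fun k => x k 0) :=
            mul_le_mul_of_nonneg_right hexp (INT_TT_nonneg _ _)
        _ = _ := one_mul _
    have hS := hSBA M α s A B (fun k => x k t) hM hα hα'.le hs hA hFr (hGS.adm t htI) hTTt
    rw [← hK] at hS
    have hsq : √(Y B M (2 - 2 * α) (fun k => x k t)) ≤ √α * κ / 128 := by
      rw [show √α * κ / 128 = √(α / 16384 * κ ^ 2) from ?_]
      · exact Real.sqrt_le_sqrt (hcr t ht)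
      · rw [Real.sqrt_mul (by positivity), Real.sqrt_div hα.le, Real.sqrt_sq hκ.le,
          show (16384 : ℝ) = 128 ^ 2 by norm_num, Real.sqrt_sq (by norm_num)]
        ring
    have hsα : 0 < √α := Real.sqrt_pos.mpr hα
    have hYa := INT_Y_nonneg B M (s + α) (fun k => x k t)
    have hYs := INT_Y_nonneg B M s (fun k => x k t)
    have h1 : 2 / √α * √(Y B M (2 - 2 * α) (fun k => x k t)) ≤ κ / 64 := by
      calc 2 / √α * √(Y B M (2 - 2 * α) (fun k => x k t)) ≤ 2 / √α * (√α * κ / 128) :=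
            mul_le_mul_of_nonneg_left hsq (by positivity)
        _ = κ / 64 := by
          field_simp
          norm_num
    have h2 : |Sw B (wt M s) (fun k => x k t)| ≤
        K * (3 * M * A * Y B M s (fun k => x k t) + κ / 64 * Y B M (s + α) (fun k => x k t)) := by
      refine hS.trans (mul_le_mul_of_nonneg_left ?_ hK0)
      have := mul_le_mul_of_nonneg_right h1 hYa
      linarith
    have h3 := (abs_le.mp h2).1
    have h4 : 2 * (K * (κ / 64 * Y B M (s + α) (fun k => x k t))) ≤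
        κ * Y B M (s + α) (fun k => x k t) := by
      have h5 : K * (κ * Y B M (s + α) (fun k => x k t)) ≤
          32 * (κ * Y B M (s + α) (fun k => x k t)) :=
        mul_le_mul_of_nonneg_right hK32 (by positivity)
      linarith
    have h6 := hYNG M α s κ G B (fun k => x k t) hM hα (by linarith) hκ hG0 hFr
    have h7 : G * Y B M s (fun k => x k t) = 2 * (K * (3 * M * A * Y B M s (fun k => x k t))) := by
      rw [hG]; ring
    have h8 : G * (G / κ) ^ (s / α) * Y B M 0 (fun k => x k t) ≤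
        G * (G / κ) ^ (s / α) * (2 * (M + 1) * Real.exp (-(2 * κ * t)) *
          Y B M 0 (fun k => x k 0)) :=
      mul_le_mul_of_nonneg_left hT2 (by positivity)
    have h9 : G * (G / κ) ^ (s / α) * (2 * (M + 1) * Real.exp (-(2 * κ * t)) *
          Y B M 0 (fun k => x k 0)) = D * Real.exp (-(2 * κ * t)) := by
      rw [hD]; ring
    have h10 : K * (3 * M * A * Y B M s (fun k => x k t) + κ / 64 * Y B M (s + α) (fun k => x k t))
        = K * (3 * M * A * Y B M s (fun k => x k t)) +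
          K * (κ / 64 * Y B M (s + α) (fun k => x k t)) := by ring
    rw [h10] at h3
    linarith
  have h := hGRW (fun t => Y B M s (fun k => x k t)) _ κ D T hκ hD0 hT hder hbound
  refine h.trans ?_
  have hne : 1 + s / α ≠ 0 := by
    have : 0 < s / α := div_pos (by linarith) hα
    linarith
  have h11 : D / (2 * κ) = (M + 1) * (G / κ) ^ (1 + s / α) * Y B M 0 (fun k => x k 0) := by
    rw [Real.rpow_one_add' hGκ hne, hD]
    field_simp
  have h12 : 6 * K * M * A / κ = G / κ := by rw [hG]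
  rw [h12, ← h11]

end

end Pool.SQGF
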