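import Pool.Agent.Work.MP_a2fcf1_an_fs.Interface

/-! # L2D: decay of the `L²` norm and of the part above the first shell (by helper74) -/

set_option autoImplicit false

namespace Pool.SQGF

open Finset Set
open Pool.Agent.Work.MP_a2fcf1_an_h64 (cr sc eu n1 ex fc GloballyRegular eu_nonneg)

noncomputable section

theorem L2D_eu_sq (k : ℤ × ℤ) : eu k ^ 2 = (nq k : ℝ) := by
  unfold nq
  rw [Pool.Agent.Work.MP_a2fcf1_an_h64.eu, Real.sq_sqrt (by positivity)]
  push_cast
  ring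

theorem L2D_eu_ge (k : ℤ × ℤ) (m : ℕ) (h : (m : ℤ) ≤ nq k) : √(m : ℝ) ≤ eu k := by
  rw [← Real.sqrt_sq (eu_nonneg k), L2D_eu_sq]
  refine Real.sqrt_le_sqrt ?_
  exact_mod_cast h

theorem L2D_dec (hEN : Stmt_EN) (B : Finset (ℤ × ℤ)) (κ α T : ℝ) (x : ℤ × ℤ → ℝ → ℂ)
    (w : ℤ × ℤ → ℝ) (hκ : 0 < κ) (hα : 0 < α) (hGS : GS B κ α T x) (hw : ∀ k ∈ B, 0 ≤ w k)
    (heu : ∀ k ∈ B, 1 ≤ eu k) (hS : ∀ t ∈ Icc 0 T, Sw B w (fun k => x k t) = 0) :
    ∀ t ∈ Icc 0 T, ∑ k ∈ B, w k * ‖x k t‖ ^ 2 ≤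
      Real.exp (-(2 * κ * t)) * ∑ k ∈ B, w k * ‖x k 0‖ ^ 2 := by
  intro t ht
  have hd : ∀ s ∈ Icc 0 T, HasDerivWithinAt
      (fun s => Real.exp (2 * κ * s) * ∑ k ∈ B, w k * ‖x k s‖ ^ 2)
      (Real.exp (2 * κ * s) * (2 * κ) * (∑ k ∈ B, w k * ‖x k s‖ ^ 2) +
        Real.exp (2 * κ * s) * (-(2 * κ * ∑ k ∈ B, w k * eu k ^ (2 * α) * ‖x k s‖ ^ 2) -
          2 * Sw B w (fun k => x k s))) (Icc 0 T) s := by
    intro s hs
    have h1 : HasDerivAt (fun s => Real.exp (2 * κ * s)) (Real.exp (2 * κ * s) * (2 * κ)) s := by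
      have h2 : HasDerivAt (fun s : ℝ => 2 * κ * s) (2 * κ) s := by
        simpa using (hasDerivAt_id s).const_mul (2 * κ)
      exact h2.exp
    exact h1.hasDerivWithinAt.mul (hEN B κ α T x w hGS s hs)
  have hanti : AntitoneOn (fun s => Real.exp (2 * κ * s) * ∑ k ∈ B, w k * ‖x k s‖ ^ 2)
      (Icc 0 T) := by
    refine antitoneOn_of_hasDerivWithinAt_nonpos (convex_Icc 0 T)
      (fun s hs => (hd s hs).continuousWithinAt)
      (fun s hs => (hd s (interior_subset hs)).mono interior_subset) ?_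
    intro s hs
    have hs' := interior_subset hs
    rw [hS s hs']
    have h1 : ∑ k ∈ B, w k * ‖x k s‖ ^ 2 ≤ ∑ k ∈ B, w k * eu k ^ (2 * α) * ‖x k s‖ ^ 2 := by
      refine Finset.sum_le_sum fun k hk => ?_
      refine mul_le_mul_of_nonneg_right ?_ (by positivity)
      exact le_mul_of_one_le_right (hw k hk) (Real.one_le_rpow (heu k hk) (by linarith))
    have h2 : 0 < Real.exp (2 * κ * s) := Real.exp_pos _
    have h3 : 2 * κ * ∑ k ∈ B, w k * ‖x k s‖ ^ 2 ≤
        2 * κ * ∑ k ∈ B, w k * eu k ^ (2 * α) * ‖x k s‖ ^ 2 :=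
      mul_le_mul_of_nonneg_left h1 (by linarith)
    have h4 := mul_le_mul_of_nonneg_left h3 h2.le
    nlinarith
  have h0T : (0 : ℝ) ∈ Icc 0 T := ⟨le_rfl, ht.1.trans ht.2⟩
  have h1 := hanti h0T ht ht.1
  simp only [mul_zero, Real.exp_zero, one_mul] at h1
  have h2 : Real.exp (-(2 * κ * t)) * (Real.exp (2 * κ * t) * ∑ k ∈ B, w k * ‖x k t‖ ^ 2) =
      ∑ k ∈ B, w k * ‖x k t‖ ^ 2 := by
    rw [← mul_assoc, ← Real.exp_add, neg_add_cancel, Real.exp_zero, one_mul]
  rw [← h2]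
  exact mul_le_mul_of_nonneg_left h1 (Real.exp_pos _).le

theorem p_L2D (hEN : Stmt_EN) (hCON : Stmt_CON) : Stmt_L2D := by
  intro M B κ α T x hM hκ hα hFr hGS t ht
  have hM1 : (1 : ℝ) ≤ M := by exact_mod_cast hM
  have hM0 : (0 : ℝ) < M := by linarith
  have heu : ∀ k ∈ B, √(M : ℝ) ≤ eu k := fun k hk => L2D_eu_ge k M (hFr.2 k hk)
  have hs1 : 1 ≤ √(M : ℝ) := Real.one_le_sqrt.2 hM1
  have heu1 : ∀ k ∈ B, 1 ≤ eu k := fun k hk => hs1.trans (heu k hk)
  have hcon : ∀ s ∈ Icc 0 T, _ := fun s hs => hCON B (fun k => x k s) hFr.1 (hGS.adm s hs)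
  constructor
  · have h1 := L2D_dec hEN B κ α T x (fun _ => 1) hκ hα hGS (fun _ _ => zero_le_one) heu1
      (fun s hs => (hcon s hs).1) t ht
    unfold TT
    simpa using h1
  · have hlin : ∀ s ∈ Icc 0 T, Sw B (fun k => 1 / √(M : ℝ) - 1 / eu k) (fun k => x k s) = 0 := by
      intro s hs
      obtain ⟨h1, h2⟩ := hcon s hs
      have h3 : Sw B (fun k => 1 / √(M : ℝ) - 1 / eu k) (fun k => x k s) =
          1 / √(M : ℝ) * Sw B (fun _ => 1) (fun k => x k s) -
            Sw B (fun k => 1 / eu k) (fun k => x k s) := by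
        unfold Sw
        rw [Finset.mul_sum, ← Finset.sum_sub_distrib]
        refine Finset.sum_congr rfl fun k _ => ?_
        ring
      rw [h3, h1, h2]
      ring
    have hw0 : ∀ k ∈ B, 0 ≤ 1 / √(M : ℝ) - 1 / eu k := by
      intro k hk
      rw [sub_nonneg]
      exact one_div_le_one_div_of_le (by linarith) (heu k hk)
    have h1 := L2D_dec hEN B κ α T x (fun k => 1 / √(M : ℝ) - 1 / eu k) hκ hα hGS hw0 heu1
      hlin t ht
    obtain ⟨a, ha⟩ : ∃ a : ℝ, a = √(M : ℝ) := ⟨_, rfl⟩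
    obtain ⟨b, hb⟩ : ∃ b : ℝ, b = √((M : ℝ) + 1) := ⟨_, rfl⟩
    have ha2 : a ^ 2 = M := by rw [ha, Real.sq_sqrt hM0.le]
    have hb2 : b ^ 2 = M + 1 := by rw [hb, Real.sq_sqrt (by linarith)]
    have ha0 : 0 < a := by rw [ha]; linarith
    have hab : a < b := by
      rw [ha, hb]
      exact Real.sqrt_lt_sqrt hM0.le (by linarith)
    have hb0 : 0 < b := ha0.trans hab
    rw [← ha] at h1 heu
    have hup : ∑ k ∈ B, (1 / a - 1 / eu k) * ‖x k 0‖ ^ 2 ≤
        1 / a * Y B M 0 (fun k => x k 0) := by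
      unfold Y wt
      rw [Finset.mul_sum]
      refine Finset.sum_le_sum fun k hk => ?_
      have hk1 := heu1 k hk
      rw [← mul_assoc]
      refine mul_le_mul_of_nonneg_right ?_ (by positivity)
      split_ifs with h
      · rw [mul_zero, Real.rpow_zero, mul_one]
        have : 0 ≤ 1 / eu k := by positivity
        linarith
      · have h2 : nq k = M := le_antisymm (not_lt.1 h) (hFr.2 k hk)
        have h3 : eu k = a := by
          rw [ha, ← Real.sqrt_sq (eu_nonneg k), L2D_eu_sq, h2]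
          norm_num
        rw [h3]
        simp
    have hlo : (1 / a - 1 / b) * Y B M 0 (fun k => x k t) ≤
        ∑ k ∈ B, (1 / a - 1 / eu k) * ‖x k t‖ ^ 2 := by
      unfold Y wt
      rw [Finset.mul_sum]
      refine Finset.sum_le_sum fun k hk => ?_
      rw [← mul_assoc]
      refine mul_le_mul_of_nonneg_right ?_ (by positivity)
      split_ifs with h
      · rw [mul_zero, Real.rpow_zero, mul_one]
        have h2 : b ≤ eu k := by
          have h3 := L2D_eu_ge k (M + 1) (by push_cast; omega)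
          rw [hb]
          push_cast at h3
          exact h3
        have h3 := one_div_le_one_div_of_le hb0 h2
        linarith
      · rw [mul_zero]
        have := hw0 k hk
        rw [← ha] at this
        exact this
    have hY0 : 0 ≤ Y B M 0 (fun k => x k 0) := by
      unfold Y wt
      refine Finset.sum_nonneg fun k _ => mul_nonneg ?_ (by positivity)
      split_ifs
      · exact Real.rpow_nonneg (eu_nonneg k) _
      · exact le_rfl
    have he : 0 < Real.exp (-(2 * κ * t)) := Real.exp_pos _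
    have h2 : (1 / a - 1 / b) * Y B M 0 (fun k => x k t) ≤
        Real.exp (-(2 * κ * t)) * (1 / a * Y B M 0 (fun k => x k 0)) :=
      hlo.trans (h1.trans (mul_le_mul_of_nonneg_left hup he.le))
    have h3 : b * (b + a) * a * (1 / a - 1 / b) = 1 := by
      field_simp
      nlinarith
    have h4 : b * (b + a) * a * (1 / a) ≤ 2 * (M + 1) := by
      have h5 : b * (b + a) * a * (1 / a) = b * (b + a) := by field_simp
      rw [h5]
      nlinarith
    have h6 : 0 ≤ b * (b + a) * a := by positivity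
    calc Y B M 0 (fun k => x k t)
        = b * (b + a) * a * ((1 / a - 1 / b) * Y B M 0 (fun k => x k t)) := by
          rw [← mul_assoc, h3, one_mul]
      _ ≤ b * (b + a) * a *
            (Real.exp (-(2 * κ * t)) * (1 / a * Y B M 0 (fun k => x k 0))) :=
          mul_le_mul_of_nonneg_left h2 h6
      _ = b * (b + a) * a * (1 / a) *
            (Real.exp (-(2 * κ * t)) * Y B M 0 (fun k => x k 0)) := by ring
      _ ≤ 2 * (M + 1) * (Real.exp (-(2 * κ * t)) * Y B M 0 (fun k => x k 0)) :=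
          mul_le_mul_of_nonneg_right h4 (by positivity)
      _ = 2 * (M + 1) * Real.exp (-(2 * κ * t)) * Y B M 0 (fun k => x k 0) := by ring

end

end Pool.SQGF
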