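import Pool.Agent.Work.MP_a2fcf1_an_fs.Interface
import Pool.Agent.Work.MP_a2fcf1_an_h64.Conv

set_option autoImplicit false

namespace Pool.SQGF

open Finset Set
open Pool.Agent.Work.MP_a2fcf1_an_h64 (cr sc eu n1 ex fc GloballyRegular)
open Pool.Agent.Work.MP_a2fcf1_an_h64 (z2 z2_nonneg summable_z2 abs_sc_le_eu abs_sc_le_add
  eu_nonneg eu_le_n1 n1_cast)

/-- The weight. -/
noncomputable def LIQ_w (j : ℤ × ℤ) : ℝ := z2 j.1 * z2 j.2

theorem LIQ_w_nonneg (j : ℤ × ℤ) : 0 ≤ LIQ_w j := mul_nonneg (z2_nonneg _) (z2_nonneg _)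

theorem LIQ_w_summable : Summable LIQ_w :=
  summable_z2.mul_of_nonneg summable_z2 z2_nonneg z2_nonneg

/-- The total weight. -/
noncomputable def LIQ_W : ℝ := ∑' j, LIQ_w j

theorem LIQ_W_nonneg : 0 ≤ LIQ_W := tsum_nonneg LIQ_w_nonneg

theorem LIQ_sum_w (B : Finset (ℤ × ℤ)) : ∑ j ∈ B, LIQ_w j ≤ LIQ_W :=
  LIQ_w_summable.sum_le_tsum B fun j _ => LIQ_w_nonneg j

theorem LIQ_sum_w' (B : Finset (ℤ × ℤ)) (k : ℤ × ℤ) : ∑ j ∈ B, LIQ_w (k - j) ≤ LIQ_W := by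
  have h : Function.Injective fun j : ℤ × ℤ => k - j := sub_right_injective
  have h2 : Summable fun j : ℤ × ℤ => LIQ_w (k - j) := LIQ_w_summable.comp_injective h
  calc ∑ j ∈ B, LIQ_w (k - j) ≤ ∑' j, LIQ_w (k - j) :=
        h2.sum_le_tsum B fun j _ => LIQ_w_nonneg _
    _ ≤ LIQ_W := tsum_comp_le_tsum_of_inj LIQ_w_summable LIQ_w_nonneg h

theorem LIQ_le_w {C a : ℝ} (j : ℤ × ℤ) (hC : 0 ≤ C) (h : a * (1 + (n1 j : ℝ)) ^ 4 ≤ C) :
    a ≤ C * LIQ_w j := by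
  have h0 := abs_nonneg (j.1 : ℝ)
  have h1 := abs_nonneg (j.2 : ℝ)
  have e1 : LIQ_w j = ((1 + |(j.1 : ℝ)|) ^ 2 * (1 + |(j.2 : ℝ)|) ^ 2)⁻¹ := by
    rw [LIQ_w, z2, z2, mul_inv]
  have e2 : (1 + |(j.1 : ℝ)|) ^ 2 * (1 + |(j.2 : ℝ)|) ^ 2 ≤ (1 + (n1 j : ℝ)) ^ 4 := by
    rw [n1_cast]
    calc (1 + |(j.1 : ℝ)|) ^ 2 * (1 + |(j.2 : ℝ)|) ^ 2
        ≤ (1 + (|(j.1 : ℝ)| + |(j.2 : ℝ)|)) ^ 2 * (1 + (|(j.1 : ℝ)| + |(j.2 : ℝ)|)) ^ 2 := by
          gcongr <;> linarith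
      _ = (1 + (|(j.1 : ℝ)| + |(j.2 : ℝ)|)) ^ 4 := by ring
  have e3 : 0 < (1 + |(j.1 : ℝ)|) ^ 2 * (1 + |(j.2 : ℝ)|) ^ 2 := by positivity
  rw [e1, ← div_eq_mul_inv, le_div_iff₀ e3]
  by_cases ha : 0 ≤ a
  · exact (mul_le_mul_of_nonneg_left e2 ha).trans h
  · push Not at ha
    have : a * ((1 + |(j.1 : ℝ)|) ^ 2 * (1 + |(j.2 : ℝ)|) ^ 2) ≤ 0 :=
      mul_nonpos_of_nonpos_of_nonneg ha.le e3.le
    linarith

theorem LIQ_norm_sc (j l : ℤ × ℤ) : ‖((sc j l : ℝ) : ℂ)‖ = |sc j l| := by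
  rw [Complex.norm_real, Real.norm_eq_abs]

/-- Bound of the quadratic term, uniform in the frequency. -/
theorem LIQ_NB_bound (B : Finset (ℤ × ℤ)) (y : ℤ × ℤ → ℂ) (C1 C4 : ℝ) (h1 : 0 ≤ C1)
    (h4 : 0 ≤ C4) (hy1 : ∀ j, ‖y j‖ * (1 + (n1 j : ℝ)) ≤ C1)
    (hy4 : ∀ j, ‖y j‖ ≤ C4 * LIQ_w j) (k : ℤ × ℤ) : ‖NB B y k‖ ≤ 2 * C1 * C4 * LIQ_W := by
  have hterm : ∀ j ∈ B, ‖((sc j (k - j) : ℝ) : ℂ) * (y j * y (k - j))‖ ≤
      C1 * C4 * LIQ_w (k - j) + C1 * C4 * LIQ_w j := by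
    intro j _
    rw [norm_mul, norm_mul, LIQ_norm_sc]
    have hs := abs_sc_le_add j (k - j)
    have ha := hy1 j
    have hb := hy1 (k - j)
    have hc := hy4 j
    have hd := hy4 (k - j)
    have hn := norm_nonneg (y j)
    have hn' := norm_nonneg (y (k - j))
    have hj0 : (0 : ℝ) ≤ n1 j := Nat.cast_nonneg _
    have hk0 : (0 : ℝ) ≤ n1 (k - j) := Nat.cast_nonneg _
    have ha' : (n1 j : ℝ) * ‖y j‖ ≤ C1 := by nlinarith
    have hb' : (n1 (k - j) : ℝ) * ‖y (k - j)‖ ≤ C1 := by nlinarith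
    calc |sc j (k - j)| * (‖y j‖ * ‖y (k - j)‖)
        ≤ (n1 j + n1 (k - j)) * (‖y j‖ * ‖y (k - j)‖) :=
          mul_le_mul_of_nonneg_right hs (by positivity)
      _ = (n1 j * ‖y j‖) * ‖y (k - j)‖ + (n1 (k - j) * ‖y (k - j)‖) * ‖y j‖ := by ring
      _ ≤ C1 * (C4 * LIQ_w (k - j)) + C1 * (C4 * LIQ_w j) := by
          apply add_le_add
          · exact mul_le_mul ha' hd hn' h1
          · exact mul_le_mul hb' hc hn h1
      _ = C1 * C4 * LIQ_w (k - j) + C1 * C4 * LIQ_w j := by ring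
  have hCC : 0 ≤ C1 * C4 := mul_nonneg h1 h4
  calc ‖NB B y k‖ ≤ ∑ j ∈ B, ‖((sc j (k - j) : ℝ) : ℂ) * (y j * y (k - j))‖ :=
        norm_sum_le _ _
    _ ≤ ∑ j ∈ B, (C1 * C4 * LIQ_w (k - j) + C1 * C4 * LIQ_w j) := Finset.sum_le_sum hterm
    _ = C1 * C4 * ∑ j ∈ B, LIQ_w (k - j) + C1 * C4 * ∑ j ∈ B, LIQ_w j := by
        rw [Finset.sum_add_distrib, Finset.mul_sum, Finset.mul_sum]
    _ ≤ C1 * C4 * LIQ_W + C1 * C4 * LIQ_W := by
        apply add_le_add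
        · exact mul_le_mul_of_nonneg_left (LIQ_sum_w' B k) hCC
        · exact mul_le_mul_of_nonneg_left (LIQ_sum_w B) hCC
    _ = 2 * C1 * C4 * LIQ_W := by ring

/-- Difference of the quadratic terms. -/
theorem LIQ_NB_diff (B : Finset (ℤ × ℤ)) (y z : ℤ × ℤ → ℂ) (C4 E : ℝ)
    (h4 : 0 ≤ C4) (hE : 0 ≤ E) (hy4 : ∀ j, ‖y j‖ ≤ C4 * LIQ_w j)
    (hz4 : ∀ j, ‖z j‖ ≤ C4 * LIQ_w j) (hyz : ∀ j, ‖y j - z j‖ ≤ E) (k : ℤ × ℤ) :
    ‖NB B y k - NB B z k‖ ≤ eu k * (2 * C4 * LIQ_W * E) := by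
  have hterm : ∀ j ∈ B, ‖((sc j (k - j) : ℝ) : ℂ) * (y j * y (k - j)) -
      ((sc j (k - j) : ℝ) : ℂ) * (z j * z (k - j))‖ ≤
      eu k * (E * C4 * LIQ_w (k - j) + E * C4 * LIQ_w j) := by
    intro j _
    have e : ((sc j (k - j) : ℝ) : ℂ) * (y j * y (k - j)) -
        ((sc j (k - j) : ℝ) : ℂ) * (z j * z (k - j)) =
        ((sc j (k - j) : ℝ) : ℂ) * ((y j - z j) * y (k - j) + z j * (y (k - j) - z (k - j))) := by
      ring
    rw [e, norm_mul, LIQ_norm_sc]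
    have hs := abs_sc_le_eu j (k - j)
    rw [add_sub_cancel] at hs
    apply mul_le_mul hs _ (norm_nonneg _) (eu_nonneg k)
    calc ‖(y j - z j) * y (k - j) + z j * (y (k - j) - z (k - j))‖
        ≤ ‖(y j - z j) * y (k - j)‖ + ‖z j * (y (k - j) - z (k - j))‖ := norm_add_le _ _
      _ = ‖y j - z j‖ * ‖y (k - j)‖ + ‖z j‖ * ‖y (k - j) - z (k - j)‖ := by
          rw [norm_mul, norm_mul]
      _ ≤ E * (C4 * LIQ_w (k - j)) + (C4 * LIQ_w j) * E := by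
          apply add_le_add
          · exact mul_le_mul (hyz j) (hy4 _) (norm_nonneg _) hE
          · exact mul_le_mul (hz4 j) (hyz _) (norm_nonneg _)
              (mul_nonneg h4 (LIQ_w_nonneg j))
      _ = E * C4 * LIQ_w (k - j) + E * C4 * LIQ_w j := by ring
  have hEC : 0 ≤ E * C4 := mul_nonneg hE h4
  calc ‖NB B y k - NB B z k‖ = ‖∑ j ∈ B, (((sc j (k - j) : ℝ) : ℂ) * (y j * y (k - j)) -
        ((sc j (k - j) : ℝ) : ℂ) * (z j * z (k - j)))‖ := by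
        rw [NB, NB, Finset.sum_sub_distrib]
    _ ≤ ∑ j ∈ B, ‖((sc j (k - j) : ℝ) : ℂ) * (y j * y (k - j)) -
        ((sc j (k - j) : ℝ) : ℂ) * (z j * z (k - j))‖ := norm_sum_le _ _
    _ ≤ ∑ j ∈ B, eu k * (E * C4 * LIQ_w (k - j) + E * C4 * LIQ_w j) := Finset.sum_le_sum hterm
    _ = eu k * (E * C4 * ∑ j ∈ B, LIQ_w (k - j) + E * C4 * ∑ j ∈ B, LIQ_w j) := by
        rw [← Finset.mul_sum, Finset.sum_add_distrib, Finset.mul_sum, Finset.mul_sum]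
    _ ≤ eu k * (E * C4 * LIQ_W + E * C4 * LIQ_W) := by
        apply mul_le_mul_of_nonneg_left _ (eu_nonneg k)
        apply add_le_add
        · exact mul_le_mul_of_nonneg_left (LIQ_sum_w' B k) hEC
        · exact mul_le_mul_of_nonneg_left (LIQ_sum_w B) hEC
    _ = eu k * (2 * C4 * LIQ_W * E) := by ring

theorem LIQ_eu_rpow (k : ℤ × ℤ) (α : ℝ) (hα : 0 < α) (hα' : α < 1 / 2) :
    eu k ^ (2 * α) ≤ 1 + (n1 k : ℝ) := by
  have h0 := eu_nonneg k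
  have h1 := eu_le_n1 k
  calc eu k ^ (2 * α) ≤ (1 + (n1 k : ℝ)) ^ (2 * α) :=
        Real.rpow_le_rpow h0 (by linarith) (by linarith)
    _ ≤ (1 + (n1 k : ℝ)) ^ (1 : ℝ) := by
        apply Real.rpow_le_rpow_of_exponent_le _ (by linarith)
        have : (0 : ℝ) ≤ n1 k := Nat.cast_nonneg _
        linarith
    _ = 1 + (n1 k : ℝ) := Real.rpow_one _

theorem p_LIQ : Stmt_LIQ := by
  intro κ α B x hκ hα hα' hGS hdec k
  obtain ⟨C1, hC1⟩ := hdec 1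
  obtain ⟨C4, hC4⟩ := hdec 4
  have hC1' : 0 ≤ C1 := by
    have h := hC1 0 0 0 le_rfl (by simp)
    exact le_trans (by positivity) h
  have hC4' : 0 ≤ C4 := by
    have h := hC4 0 0 0 le_rfl (by simp)
    exact le_trans (by positivity) h
  have hx1 : ∀ (n : ℕ) (t : ℝ), 0 ≤ t → t ≤ n → ∀ j, ‖x n j t‖ * (1 + (n1 j : ℝ)) ≤ C1 := by
    intro n t ht ht' j
    have h := hC1 n j t ht ht'
    rwa [pow_one] at h
  have hx4 : ∀ (n : ℕ) (t : ℝ), 0 ≤ t → t ≤ n → ∀ j, ‖x n j t‖ ≤ C4 * LIQ_w j := by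
    intro n t ht ht' j
    exact LIQ_le_w j hC4' (hC4 n j t ht ht')
  set D : ℝ := κ * C1 + 2 * C1 * C4 * LIQ_W with hD
  have hW := LIQ_W_nonneg
  have hD0 : 0 ≤ D := by positivity
  -- the velocity
  set V : ℕ → ℤ × ℤ → ℝ → ℂ := fun n j t =>
    -(((κ * eu j ^ (2 * α) : ℝ) : ℂ) * x n j t) - NB (B n) (fun i => x n i t) j with hV
  have hVb : ∀ (n : ℕ) (t : ℝ), 0 ≤ t → t ≤ n → ∀ j, ‖V n j t‖ ≤ D := by
    intro n t ht ht' j
    have h1 := LIQ_NB_bound (B n) (fun i => x n i t) C1 C4 hC1' hC4' (hx1 n t ht ht')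
      (hx4 n t ht ht') j
    have h2 : ‖((κ * eu j ^ (2 * α) : ℝ) : ℂ) * x n j t‖ ≤ κ * C1 := by
      have h3 : 0 ≤ eu j ^ (2 * α) := Real.rpow_nonneg (eu_nonneg j) _
      rw [norm_mul, Complex.norm_real, Real.norm_eq_abs, abs_of_nonneg (mul_nonneg hκ.le h3),
        mul_assoc]
      apply mul_le_mul_of_nonneg_left _ hκ.le
      calc eu j ^ (2 * α) * ‖x n j t‖ ≤ (1 + (n1 j : ℝ)) * ‖x n j t‖ :=
            mul_le_mul_of_nonneg_right (LIQ_eu_rpow j α hα hα') (norm_nonneg _)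
        _ = ‖x n j t‖ * (1 + (n1 j : ℝ)) := mul_comm _ _
        _ ≤ C1 := hx1 n t ht ht' j
    calc ‖V n j t‖ ≤ ‖-(((κ * eu j ^ (2 * α) : ℝ) : ℂ) * x n j t)‖ +
          ‖NB (B n) (fun i => x n i t) j‖ := norm_sub_le _ _
      _ ≤ κ * C1 + 2 * C1 * C4 * LIQ_W := by
          rw [norm_neg]
          exact add_le_add h2 h1
  -- Lipschitz bound
  have hLip : ∀ (n : ℕ) (s t : ℝ), 0 ≤ s → s ≤ n → 0 ≤ t → t ≤ n → ∀ j,
      ‖x n j t - x n j s‖ ≤ D * |t - s| := by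
    intro n s t hs hs' ht ht' j
    by_cases hj : j ∈ B n
    · have h := Convex.norm_image_sub_le_of_norm_hasDerivWithin_le
        (f := x n j) (f' := V n j) (s := Icc (0 : ℝ) n) (x := s) (y := t) (C := D)
        (fun u hu => (hGS n).ode j hj u hu) (fun u hu => hVb n u hu.1 hu.2 j)
        (convex_Icc _ _) ⟨hs, hs'⟩ ⟨ht, ht'⟩
      rwa [Real.norm_eq_abs] at h
    · have h1 : x n j t = 0 := ((hGS n).adm t ⟨ht, ht'⟩).1 j hj
      have h2 : x n j s = 0 := ((hGS n).adm s ⟨hs, hs'⟩).1 j hj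
      rw [h1, h2, sub_zero, norm_zero]
      positivity
  -- Lipschitz bound of the velocity
  set L : ℝ := κ * eu k ^ (2 * α) * D + eu k * (2 * C4 * LIQ_W * D) with hL
  have hek := eu_nonneg k
  have hek' : 0 ≤ eu k ^ (2 * α) := Real.rpow_nonneg hek _
  have hL0 : 0 ≤ L := by positivity
  have hVL : ∀ (n : ℕ) (s t : ℝ), 0 ≤ s → s ≤ n → 0 ≤ t → t ≤ n →
      ‖V n k t - V n k s‖ ≤ L * |t - s| := by
    intro n s t hs hs' ht ht'
    have hE : 0 ≤ D * |t - s| := by positivity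
    have h1 := LIQ_NB_diff (B n) (fun i => x n i t) (fun i => x n i s) C4 (D * |t - s|) hC4' hE
      (hx4 n t ht ht') (hx4 n s hs hs') (hLip n s t hs hs' ht ht') k
    have h2 : ‖((κ * eu k ^ (2 * α) : ℝ) : ℂ) * (x n k t - x n k s)‖ ≤
        κ * eu k ^ (2 * α) * (D * |t - s|) := by
      rw [norm_mul, Complex.norm_real, Real.norm_eq_abs, abs_of_nonneg (mul_nonneg hκ.le hek')]
      exact mul_le_mul_of_nonneg_left (hLip n s t hs hs' ht ht' k) (mul_nonneg hκ.le hek')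
    have e : V n k t - V n k s = -(((κ * eu k ^ (2 * α) : ℝ) : ℂ) * (x n k t - x n k s)) -
        (NB (B n) (fun i => x n i t) k - NB (B n) (fun i => x n i s) k) := by
      simp only [hV]
      ring
    rw [e]
    calc ‖-(((κ * eu k ^ (2 * α) : ℝ) : ℂ) * (x n k t - x n k s)) -
        (NB (B n) (fun i => x n i t) k - NB (B n) (fun i => x n i s) k)‖
        ≤ ‖-(((κ * eu k ^ (2 * α) : ℝ) : ℂ) * (x n k t - x n k s))‖ +
          ‖NB (B n) (fun i => x n i t) k - NB (B n) (fun i => x n i s) k‖ := norm_sub_le _ _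
      _ ≤ κ * eu k ^ (2 * α) * (D * |t - s|) + eu k * (2 * C4 * LIQ_W * (D * |t - s|)) := by
          rw [norm_neg]
          exact add_le_add h2 h1
      _ = L * |t - s| := by rw [hL]; ring
  refine ⟨L, fun n hk s t hs hs' ht ht' => ?_⟩
  change ‖x n k t - x n k s - ((t - s : ℝ) : ℂ) * V n k s‖ ≤ L * (t - s) ^ 2
  have hsub : uIcc s t ⊆ Icc (0 : ℝ) n := by
    intro u hu
    rw [Set.mem_uIcc] at hu
    rcases hu with ⟨h1, h2⟩ | ⟨h1, h2⟩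
    · exact ⟨hs.trans h1, h2.trans ht'⟩
    · exact ⟨ht.trans h1, h2.trans hs'⟩
  have hder : ∀ u ∈ uIcc s t, HasDerivWithinAt (fun u : ℝ => x n k u - (u : ℂ) * V n k s)
      (V n k u - V n k s) (uIcc s t) u := by
    intro u hu
    have h1 : HasDerivWithinAt (x n k) (V n k u) (uIcc s t) u :=
      ((hGS n).ode k hk u (hsub hu)).mono hsub
    have h2 : HasDerivWithinAt (fun u : ℝ => (u : ℂ) * V n k s) (V n k s) (uIcc s t) u := by
      have h3 : HasDerivWithinAt (fun u : ℝ => (u : ℂ)) 1 (uIcc s t) u :=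
        (Complex.ofRealCLM.hasDerivAt (x := u)).hasDerivWithinAt
      have h4 := h3.mul_const (V n k s)
      rwa [one_mul] at h4
    exact h1.sub h2
  have h := Convex.norm_image_sub_le_of_norm_hasDerivWithin_le
    (f := fun u : ℝ => x n k u - (u : ℂ) * V n k s) (f' := fun u => V n k u - V n k s)
    (s := uIcc s t) (x := s) (y := t) (C := L * |t - s|) hder
    (fun u hu => by
      refine (hVL n s u hs hs' (hsub hu).1 (hsub hu).2).trans ?_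
      apply mul_le_mul_of_nonneg_left _ hL0
      rw [Set.mem_uIcc] at hu
      rcases hu with ⟨h1, h2⟩ | ⟨h1, h2⟩
      · rw [abs_of_nonneg (by linarith), abs_of_nonneg (by linarith)]
        linarith
      · rw [abs_of_nonpos (by linarith), abs_of_nonpos (by linarith)]
        linarith)
    (convex_uIcc _ _) Set.left_mem_uIcc Set.right_mem_uIcc
  have e : (fun u : ℝ => x n k u - (u : ℂ) * V n k s) t -
      (fun u : ℝ => x n k u - (u : ℂ) * V n k s) s =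
      x n k t - x n k s - ((t - s : ℝ) : ℂ) * V n k s := by
    push_cast
    ring
  rw [e, Real.norm_eq_abs, mul_assoc, abs_mul_abs_self] at h
  calc ‖x n k t - x n k s - ((t - s : ℝ) : ℂ) * V n k s‖ ≤ L * ((t - s) * (t - s)) := h
    _ = L * (t - s) ^ 2 := by ring

end Pool.SQGF
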