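import Pool.Agent.Work.MP_a2fcf1_an_fs.Interface

/-! # Block LLA: the gradient in terms of the critical norm -/

set_option autoImplicit false

namespace Pool.SQGF

open Finset Set
open Pool.Agent.Work.MP_a2fcf1_an_h64 (cr sc eu n1 ex fc GloballyRegular one_le_eu eu_pos eu_nonneg)

theorem LLA_sq (k : ℤ × ℤ) : eu k ^ 2 = (nq k : ℝ) := by
  unfold eu nq
  rw [Real.sq_sqrt (by positivity)]
  push_cast
  ring

theorem LLA_card (M : ℕ) (hM : 1 ≤ M) (F : Finset (ℤ × ℤ)) (hF : ∀ k ∈ F, nq k = M) :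
    (F.card : ℝ) ≤ 9 * M := by
  set s := Nat.sqrt M with hs
  have hs1 : 1 ≤ s := Nat.sqrt_pos.2 (by omega)
  have hsM : s * s ≤ M := Nat.sqrt_le M
  have hsub : F ⊆ (Finset.Icc (-(s : ℤ)) s) ×ˢ (Finset.Icc (-(s : ℤ)) s) := by
    intro k hk
    have h := hF k hk
    unfold nq at h
    have key : ∀ z : ℤ, z ^ 2 ≤ M → -(s : ℤ) ≤ z ∧ z ≤ s := by
      intro z hz
      have h1 : z.natAbs ≤ s := by
        rw [hs, Nat.le_sqrt']
        zify
        rw [sq_abs]
        exact hz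
      omega
    have h1 := key k.1 (by nlinarith [sq_nonneg k.2])
    have h2 := key k.2 (by nlinarith [sq_nonneg k.1])
    rw [Finset.mem_product, Finset.mem_Icc, Finset.mem_Icc]
    exact ⟨h1, h2⟩
  have hc := Finset.card_le_card hsub
  rw [Finset.card_product, Int.card_Icc] at hc
  have he : ((s : ℤ) + 1 - -(s : ℤ)).toNat = 2 * s + 1 := by omega
  rw [he] at hc
  have h3 : F.card ≤ 9 * M := by nlinarith
  exact_mod_cast h3

theorem p_LLA (h1 : Stmt_LAT) : Stmt_LLA := by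
  intro M α A R B x hM hα hα' hR hA hFr hTT
  classical
  have hnorm : ∀ j, 0 ≤ ‖x j‖ := fun j => norm_nonneg _
  have hB0 : ∀ k ∈ B, k ≠ 0 := by
    intro k hk h0
    have h2 := hFr.2 k hk
    rw [h0] at h2
    unfold nq at h2
    simp at h2
    omega
  -- the splitting
  have hsplit : LL B x R ≤ ∑ j ∈ B.filter (fun j => nq j = M), eu j * ‖x j‖ +
      ∑ j ∈ B.filter (fun j => eu j ≤ R ∧ (M : ℤ) < nq j), eu j * ‖x j‖ := by
    unfold LL
    rw [Finset.sum_filter, Finset.sum_filter, ← Finset.sum_add_distrib]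
    apply Finset.sum_le_sum
    intro j hj
    have h3 : 0 ≤ eu j * ‖x j‖ := mul_nonneg (eu_nonneg j) (hnorm j)
    have h4 := hFr.2 j hj
    by_cases hR' : eu j ≤ R
    · rcases lt_or_eq_of_le h4 with h5 | h5
      · rw [if_pos hR', if_pos (⟨hR', h5⟩ : eu j ≤ R ∧ (M : ℤ) < nq j)]
        split_ifs <;> linarith
      · rw [if_pos hR', if_pos h5.symm]
        split_ifs <;> linarith
    · rw [if_neg hR']
      split_ifs <;> linarith
  -- the first shell
  have hfirst : ∑ j ∈ B.filter (fun j => nq j = M), eu j * ‖x j‖ ≤ 3 * M * A := by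
    have h5 := Real.sum_mul_le_sqrt_mul_sqrt (B.filter (fun j => nq j = M))
      (fun j => eu j) (fun j => ‖x j‖)
    have h6 : ∑ j ∈ B.filter (fun j => nq j = M), eu j ^ 2 ≤ (3 * M : ℝ) ^ 2 := by
      have h7 : ∑ j ∈ B.filter (fun j => nq j = M), eu j ^ 2 =
          ∑ _j ∈ B.filter (fun j => nq j = M), (M : ℝ) := by
        apply Finset.sum_congr rfl
        intro j hj
        rw [LLA_sq, (Finset.mem_filter.1 hj).2]
        simp
      rw [h7, Finset.sum_const, nsmul_eq_mul]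
      have h8 := LLA_card M hM (B.filter (fun j => nq j = M))
        (fun k hk => (Finset.mem_filter.1 hk).2)
      have h9 : (0 : ℝ) ≤ M := Nat.cast_nonneg M
      nlinarith
    have h10 : ∑ j ∈ B.filter (fun j => nq j = M), ‖x j‖ ^ 2 ≤ A ^ 2 := by
      refine le_trans (Finset.sum_le_sum_of_subset_of_nonneg (Finset.filter_subset _ _) ?_) hTT
      intro j _ _
      positivity
    have h11 : √(∑ j ∈ B.filter (fun j => nq j = M), eu j ^ 2) ≤ 3 * M :=
      Real.sqrt_le_iff.2 ⟨by positivity, h6⟩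
    have h12 : √(∑ j ∈ B.filter (fun j => nq j = M), ‖x j‖ ^ 2) ≤ A :=
      Real.sqrt_le_iff.2 ⟨hA, h10⟩
    calc ∑ j ∈ B.filter (fun j => nq j = M), eu j * ‖x j‖
        ≤ √(∑ j ∈ B.filter (fun j => nq j = M), eu j ^ 2) *
          √(∑ j ∈ B.filter (fun j => nq j = M), ‖x j‖ ^ 2) := h5
      _ ≤ 3 * M * A := mul_le_mul h11 h12 (Real.sqrt_nonneg _) (by positivity)
  -- the other shells
  have hsecond : ∑ j ∈ B.filter (fun j => eu j ≤ R ∧ (M : ℤ) < nq j), eu j * ‖x j‖ ≤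
      2 / √α * R ^ (2 * α) * √(Y B M (2 - 2 * α) x) := by
    set F := B.filter (fun j => eu j ≤ R ∧ (M : ℤ) < nq j) with hF
    have hF0 : ∀ k ∈ F, k ≠ 0 ∧ eu k ≤ R := fun k hk =>
      ⟨hB0 k (Finset.mem_filter.1 hk).1, (Finset.mem_filter.1 hk).2.1⟩
    have h5 := Real.sum_mul_le_sqrt_mul_sqrt F
      (fun j => eu j ^ (2 * α - 1)) (fun j => eu j ^ (2 - 2 * α) * ‖x j‖)
    have h6 : ∑ j ∈ F, eu j * ‖x j‖ =
        ∑ j ∈ F, eu j ^ (2 * α - 1) * (eu j ^ (2 - 2 * α) * ‖x j‖) := by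
      apply Finset.sum_congr rfl
      intro j hj
      have hp := eu_pos (hF0 j hj).1
      rw [← mul_assoc, ← Real.rpow_add hp]
      norm_num
    have h7 : ∑ j ∈ F, (eu j ^ (2 * α - 1)) ^ 2 ≤ (2 / √α * R ^ (2 * α)) ^ 2 := by
      have h8 := h1.1 (4 * α) R F (by linarith) (by linarith) (by linarith) hF0
      have h9 : ∑ j ∈ F, (eu j ^ (2 * α - 1)) ^ 2 = ∑ j ∈ F, eu j ^ (4 * α - 2) := by
        apply Finset.sum_congr rfl
        intro j hj
        have hp := eu_pos (hF0 j hj).1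
        rw [← Real.rpow_natCast, ← Real.rpow_mul hp.le]
        congr 1
        push_cast
        ring
      rw [h9]
      refine le_trans h8 (le_of_eq ?_)
      have hR0 : (0 : ℝ) ≤ R := by linarith
      rw [mul_pow, div_pow, Real.sq_sqrt hα.le, ← Real.rpow_natCast (R ^ (2 * α)),
        ← Real.rpow_mul hR0]
      have h10 : 2 * α * ((2 : ℕ) : ℝ) = 4 * α := by push_cast; ring
      rw [h10]
      congr 1
      field_simp
      norm_num
    have h11 : ∑ j ∈ F, (eu j ^ (2 - 2 * α) * ‖x j‖) ^ 2 ≤ Y B M (2 - 2 * α) x := by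
      unfold Y
      have h12 : ∑ j ∈ F, (eu j ^ (2 - 2 * α) * ‖x j‖) ^ 2 =
          ∑ j ∈ F, wt M (2 - 2 * α) j * ‖x j‖ ^ 2 := by
        apply Finset.sum_congr rfl
        intro j hj
        have hp := eu_pos (hF0 j hj).1
        unfold wt
        rw [if_pos (Finset.mem_filter.1 hj).2.2, mul_pow, ← Real.rpow_natCast
          (eu j ^ (2 - 2 * α)), ← Real.rpow_mul hp.le]
        congr 2
        push_cast
        ring
      rw [h12]
      apply Finset.sum_le_sum_of_subset_of_nonneg (Finset.filter_subset _ _)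
      intro j _ _
      unfold wt
      have := eu_nonneg j
      split_ifs <;> positivity
    have h13 : √(∑ j ∈ F, (eu j ^ (2 * α - 1)) ^ 2) ≤ 2 / √α * R ^ (2 * α) :=
      Real.sqrt_le_iff.2 ⟨by positivity, h7⟩
    have h14 : √(∑ j ∈ F, (eu j ^ (2 - 2 * α) * ‖x j‖) ^ 2) ≤ √(Y B M (2 - 2 * α) x) :=
      Real.sqrt_le_sqrt h11
    rw [h6]
    exact le_trans h5 (mul_le_mul h13 h14 (Real.sqrt_nonneg _) (by positivity))
  linarith

end Pool.SQGF
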