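import Pool.Agent.Work.MP_a2fcf1_an_fs.Interface

/-! # Block PTW: uniform pointwise decay from the Sobolev norms -/

set_option autoImplicit false

namespace Pool.SQGF

open Finset Set
open Pool.Agent.Work.MP_a2fcf1_an_h64 (cr sc eu n1 ex fc GloballyRegular eu_nonneg n1_le_two_eu
  one_le_eu)

noncomputable section

theorem PTW_eu_sq (k : ℤ × ℤ) : eu k ^ 2 = (nq k : ℝ) := by
  rw [eu, Real.sq_sqrt (by positivity), nq]
  push_cast
  ring

theorem p_PTW : Stmt_PTW := by
  intro M A Q m hM hA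
  refine ⟨A * (1 + 2 * √(M : ℝ)) ^ m + 3 ^ (m + 1) * √(Q (m + 1)), ?_⟩
  intro B x hF hx hT hY k
  have hC1 : 0 ≤ A * (1 + 2 * √(M : ℝ)) ^ m := by positivity
  have hC2 : 0 ≤ 3 ^ (m + 1) * √(Q (m + 1)) := by positivity
  by_cases hk : k ∈ B
  swap
  · rw [hx.1 k hk]
    simp only [norm_zero, zero_mul]
    linarith
  have hMk := hF.2 k hk
  have hn := n1_le_two_eu k
  have he0 := eu_nonneg k
  rcases hMk.eq_or_lt with hMk | hMk
  · -- first shell
    have h1 : ‖x k‖ ^ 2 ≤ A ^ 2 := by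
      refine le_trans ?_ hT
      unfold TT
      exact Finset.single_le_sum (f := fun k => ‖x k‖ ^ 2) (fun i _ => by positivity) hk
    have h2 : ‖x k‖ ≤ A := by
      rw [sq_le_sq₀ (norm_nonneg _) hA] at h1
      exact h1
    have h3 : eu k = √(M : ℝ) := by
      have h4 := PTW_eu_sq k
      rw [← hMk] at h4
      rw [← Real.sqrt_sq he0, h4]
      simp
    have h5 : ‖x k‖ * (1 + (n1 k : ℝ)) ^ m ≤ A * (1 + 2 * √(M : ℝ)) ^ m := by
      rw [h3] at hn
      gcongr
    linarith
  · -- above the first shell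
    have h1 : (1 : ℝ) ≤ eu k := by
      apply one_le_eu
      rintro rfl
      simp [nq] at hMk
      omega
    have h2 : eu k ^ (2 * (m + 1)) * ‖x k‖ ^ 2 ≤ Q (m + 1) := by
      refine le_trans ?_ (hY (m + 1) (by omega))
      unfold Y
      have h3 := Finset.single_le_sum (f := fun k => wt M ((m + 1 : ℕ) : ℝ) k * ‖x k‖ ^ 2)
        (fun i _ => by
          have : 0 ≤ wt M ((m + 1 : ℕ) : ℝ) i := by
            unfold wt
            split_ifs
            · exact Real.rpow_nonneg (eu_nonneg i) _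
            · exact le_rfl
          positivity) hk
      refine le_trans (le_of_eq ?_) h3
      simp only [wt, if_pos hMk]
      congr 1
      rw [← Real.rpow_natCast]
      congr 1
      push_cast
      ring
    have h3 : ‖x k‖ * eu k ^ (m + 1) ≤ √(Q (m + 1)) := by
      apply Real.le_sqrt_of_sq_le
      refine le_trans (le_of_eq ?_) h2
      ring
    have h4 : (1 + (n1 k : ℝ)) ^ m ≤ 3 ^ (m + 1) * eu k ^ (m + 1) := by
      calc (1 + (n1 k : ℝ)) ^ m ≤ (3 * eu k) ^ m := by
            have : 1 + (n1 k : ℝ) ≤ 3 * eu k := by linarith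
            gcongr
        _ ≤ (3 * eu k) ^ (m + 1) := by
            apply pow_le_pow_right₀ (by linarith) (by omega)
        _ = 3 ^ (m + 1) * eu k ^ (m + 1) := by rw [mul_pow]
    calc ‖x k‖ * (1 + (n1 k : ℝ)) ^ m ≤ ‖x k‖ * (3 ^ (m + 1) * eu k ^ (m + 1)) := by
          gcongr
      _ = 3 ^ (m + 1) * (‖x k‖ * eu k ^ (m + 1)) := by ring
      _ ≤ 3 ^ (m + 1) * √(Q (m + 1)) := by gcongr
      _ ≤ A * (1 + 2 * √(M : ℝ)) ^ m + 3 ^ (m + 1) * √(Q (m + 1)) := by linarith

end

end Pool.SQGF
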