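import Pool.Agent.Work.MP_a2fcf1_an_fs.Interface

/-! Block SBA (helper75) -/

set_option autoImplicit false

namespace Pool.SQGF

open Finset Set
open Pool.Agent.Work.MP_a2fcf1_an_h64 (cr sc eu n1 ex fc GloballyRegular one_le_eu)

theorem SBA_ne {M : ℕ} (hM : 1 ≤ M) {k : ℤ × ℤ} (hk : (M : ℤ) ≤ nq k) : k ≠ 0 := by
  rintro rfl
  have h1 : (1 : ℤ) ≤ M := by exact_mod_cast hM
  have h2 : nq 0 = 0 := by simp [nq]
  omega

theorem SBA_wt {M : ℕ} (hM : 1 ≤ M) (s α : ℝ) {k : ℤ × ℤ} (hk : (M : ℤ) ≤ nq k) :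
    wt M s k * eu k ^ (2 * α) = wt M (s + α) k := by
  have h1 : 0 < eu k := lt_of_lt_of_le one_pos (one_le_eu (SBA_ne hM hk))
  unfold wt
  split_ifs with h
  · rw [← Real.rpow_add h1]
    congr 1
    ring
  · rw [zero_mul]

theorem SBA_wt0 (M : ℕ) (s : ℝ) (k : ℤ × ℤ) : 0 ≤ wt M s k := by
  unfold wt
  split_ifs
  · exact Real.rpow_nonneg (Real.sqrt_nonneg _) _
  · exact le_rfl

theorem p_SBA (h1 : Stmt_SB) (h2 : Stmt_LLA) : Stmt_SBA := by
  intro M α s A B x hM hα hα' hs hA hB hx hT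
  refine (h1 M s B x hM hs hB hx).trans ?_
  have hc : 0 ≤ (s + 1) * (2 : ℝ) ^ s := mul_nonneg (by linarith) (Real.rpow_nonneg (by norm_num) _)
  refine mul_le_mul_of_nonneg_left ?_ hc
  have e1 : 3 * M * A * Y B M s x + 2 / √α * √(Y B M (2 - 2 * α) x) * Y B M (s + α) x =
      ∑ l ∈ B, (wt M s l * ‖x l‖ ^ 2 * (3 * M * A) +
        wt M (s + α) l * ‖x l‖ ^ 2 * (2 / √α * √(Y B M (2 - 2 * α) x))) := by
    rw [Finset.sum_add_distrib, ← Finset.sum_mul, ← Finset.sum_mul]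
    unfold Y
    ring
  rw [e1]
  refine Finset.sum_le_sum fun l hl => ?_
  have hl' := hB.2 l hl
  have h3 := h2 M α A (eu l) B x hM hα hα' (one_le_eu (SBA_ne hM hl')) hA hB hT
  have h4 : 0 ≤ wt M s l * ‖x l‖ ^ 2 := mul_nonneg (SBA_wt0 M s l) (by positivity)
  refine (mul_le_mul_of_nonneg_left h3 h4).trans (le_of_eq ?_)
  rw [← SBA_wt hM s α hl']
  ring

end Pool.SQGF
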