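import Pool.Agent.Work.MP_a2fcf1_an_fs.Interface
import Pool.Agent.Work.MP_a2fcf1_an_h64.Fourier
set_option autoImplicit false

/-! # Block SYM: real data have symmetric coefficients -/

namespace Pool.SQGF
open Finset Set
open Pool.Agent.Work.MP_a2fcf1_an_h64 (cr sc eu n1 ex fc GloballyRegular)
open Pool.Agent.Work.MP_a2fcf1_an_h64

theorem p_SYM : Stmt_SYM := by
  intro d θ₀ hsum hθ₀ k
  rw [← fc_eq hsum hθ₀ k, ← fc_eq hsum hθ₀ (-k)]
  unfold fc
  rw [map_mul, Complex.conj_ofReal, ← intervalIntegral.intervalIntegral_conj]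
  congr 1
  apply intervalIntegral.integral_congr
  intro y _
  simp only
  rw [← intervalIntegral.intervalIntegral_conj]
  apply intervalIntegral.integral_congr
  intro z _
  simp only
  rw [map_mul, Complex.conj_ofReal, ← ex_neg]

end Pool.SQGF
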