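import Pool.Agent.Work.MP_a2fcf1_an_fs.Interface

set_option autoImplicit false

namespace Pool.SQGF

open Finset Set
open Pool.Agent.Work.MP_a2fcf1_an_h64 (cr sc eu n1 ex fc GloballyRegular)

theorem YNG_wt (M : ℕ) (α s a G : ℝ) (k : ℤ × ℤ) (hα : 0 < α) (hs : 0 < s)
    (ha : 0 < a) (hG : 0 ≤ G) :
    G * wt M s k ≤ a * wt M (s + α) k + G * (G / a) ^ (s / α) * wt M 0 k := by
  unfold wt
  split_ifs with hk
  · have hx : 0 < eu k := by
      apply Pool.Agent.Work.MP_a2fcf1_an_h64.eu_pos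
      rintro rfl
      simp [nq] at hk
      omega
    have h0 : eu k ^ (2 * (0 : ℝ)) = 1 := by simp
    rw [h0, mul_one]
    have hadd : eu k ^ (2 * (s + α)) = eu k ^ (2 * s) * eu k ^ (2 * α) := by
      rw [← Real.rpow_add hx]
      ring_nf
    rw [hadd]
    have h1 : 0 ≤ eu k ^ (2 * s) := by positivity
    have h2 : 0 ≤ eu k ^ (2 * α) := by positivity
    rcases le_or_gt G (a * eu k ^ (2 * α)) with h | h
    · have h3 : 0 ≤ G * (G / a) ^ (s / α) := by positivity
      have h4 : G * eu k ^ (2 * s) ≤ (a * eu k ^ (2 * α)) * eu k ^ (2 * s) :=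
        mul_le_mul_of_nonneg_right h h1
      calc G * eu k ^ (2 * s) ≤ (a * eu k ^ (2 * α)) * eu k ^ (2 * s) := h4
        _ = a * (eu k ^ (2 * s) * eu k ^ (2 * α)) := by ring
        _ ≤ _ := by linarith
    · have h3 : eu k ^ (2 * s) = (eu k ^ (2 * α)) ^ (s / α) := by
        rw [← Real.rpow_mul hx.le]
        congr 1
        field_simp
      have h4 : eu k ^ (2 * α) ≤ G / a := by
        rw [le_div_iff₀ ha]
        linarith
      have h5 : eu k ^ (2 * s) ≤ (G / a) ^ (s / α) := by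
        rw [h3]
        exact Real.rpow_le_rpow h2 h4 (by positivity)
      have h6 : 0 ≤ a * (eu k ^ (2 * s) * eu k ^ (2 * α)) := by positivity
      calc G * eu k ^ (2 * s) ≤ G * (G / a) ^ (s / α) := mul_le_mul_of_nonneg_left h5 hG
        _ ≤ _ := by linarith
  · simp

theorem p_YNG : Stmt_YNG := by
  intro M α s a G B x hM hα hs ha hG hFr
  unfold Y
  rw [Finset.mul_sum, Finset.mul_sum, Finset.mul_sum, ← Finset.sum_add_distrib]
  refine Finset.sum_le_sum fun k _ => ?_
  have h := mul_le_mul_of_nonneg_right (YNG_wt M α s a G k hα hs ha hG) (sq_nonneg ‖x k‖)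
  calc G * (wt M s k * ‖x k‖ ^ 2) = G * wt M s k * ‖x k‖ ^ 2 := by ring
    _ ≤ _ := h
    _ = _ := by ring

end Pool.SQGF
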