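import Pool.Agent.Work.MP_a2fcf1_an_fs.B_INT
import Pool.Agent.Work.MP_a2fcf1_an_fs.B_BST

/-! # The improved exponent (helper50): a maximum principle instead of integration in time -/

set_option autoImplicit false

namespace Pool.SQGF

open Finset Set
open Pool.Agent.Work.MP_a2fcf1_an_h64 (cr sc eu n1 ex fc GloballyRegular one_le_eu)

noncomputable section

/-- INT2: the Sobolev norms `s ≤ 3` while the critical norm is small. -/
def Stmt_INT2 : Prop :=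
  ∀ (M : ℕ) (B : Finset (ℤ × ℤ)) (κ α T s A : ℝ) (x : ℤ × ℤ → ℝ → ℂ), 1 ≤ M → 0 < κ →
    0 < α → α < 1 / 2 → 1 / 2 ≤ s → s ≤ 3 → 0 ≤ A → 0 ≤ T → Fr M B → GS B κ α T x →
    TT B (fun k => x k 0) ≤ A ^ 2 →
    (∀ t ∈ Ico 0 T, Y B M (2 - 2 * α) (fun k => x k t) ≤ α / 16384 * κ ^ 2) →
    Y B M s (fun k => x k T) ≤ max (Y B M s (fun k => x k 0))
      (2 * (2 * (6 * ((s + 1) * 2 ^ s) * M * A) / κ) ^ (s / α) *
        (2 * (M + 1) * Y B M 0 (fun k => x k 0)))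

/-- BST2: the critical norm stays small. -/
def Stmt_BST2 : Prop :=
  ∀ (M : ℕ) (α : ℝ), 1 ≤ M → 0 < α → α < 1 / 2 → ∃ c : ℝ, 0 < c ∧
    ∀ (B : Finset (ℤ × ℤ)) (κ T A : ℝ) (x : ℤ × ℤ → ℝ → ℂ), 0 < κ → 0 ≤ A → 0 ≤ T → Fr M B →
    GS B κ α T x → TT B (fun k => x k 0) ≤ A ^ 2 →
    Y B M (2 - 2 * α) (fun k => x k 0) ≤ c * κ ^ 2 →
    (1 + A ^ 2 / κ ^ 2) ^ (1 / α - 1) * Y B M 0 (fun k => x k 0) ≤ c * κ ^ 2 →
    ∀ t ∈ Icc 0 T, Y B M (2 - 2 * α) (fun k => x k t) ≤ α / 16384 * κ ^ 2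

/-- A maximum principle for one real variable. -/
theorem MAXP (f f' : ℝ → ℝ) (T m : ℝ) (hT : 0 ≤ T)
    (hd : ∀ t ∈ Icc 0 T, HasDerivWithinAt f (f' t) (Icc 0 T) t)
    (hb : ∀ t ∈ Ico 0 T, m < f t → f' t ≤ 0) : f T ≤ max (f 0) m := by
  by_contra hcon
  push Not at hcon
  set Q : ℝ := max (f 0) m with hQ
  have hcont : ContinuousOn f (Icc 0 T) := fun t ht => (hd t ht).continuousWithinAt
  have hclosed : IsClosed (Icc 0 T ∩ f ⁻¹' Iic Q) :=
    hcont.preimage_isClosed_of_isClosed isClosed_Icc isClosed_Iic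
  have hcomp : IsCompact (Icc 0 T ∩ f ⁻¹' Iic Q) :=
    isCompact_Icc.of_isClosed_subset hclosed inter_subset_left
  obtain ⟨t1, ht1, hmax⟩ := hcomp.exists_isGreatest
    ⟨0, ⟨le_rfl, hT⟩, (le_max_left _ _ : f 0 ≤ max (f 0) m)⟩
  have ht1T : t1 < T := by
    rcases lt_or_eq_of_le ht1.1.2 with h | h
    · exact h
    · exfalso
      have h2 : f t1 ≤ Q := ht1.2
      rw [h] at h2
      linarith
  have hgt : ∀ t, t1 < t → t ≤ T → Q < f t := by
    intro t h1 h2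
    by_contra h3
    push Not at h3
    have := hmax ⟨⟨ht1.1.1.trans h1.le, h2⟩, h3⟩
    linarith
  have hanti : AntitoneOn f (Icc t1 T) := by
    apply antitoneOn_of_deriv_nonpos (convex_Icc t1 T)
      (hcont.mono (Icc_subset_Icc ht1.1.1 le_rfl))
    · intro t ht
      rw [interior_Icc] at ht
      exact ((hd t ⟨ht1.1.1.trans ht.1.le, ht.2.le⟩).hasDerivAt
        (Icc_mem_nhds (lt_of_le_of_lt ht1.1.1 ht.1) ht.2)).differentiableAt.differentiableWithinAt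
    · intro t ht
      rw [interior_Icc] at ht
      have h1 := (hd t ⟨ht1.1.1.trans ht.1.le, ht.2.le⟩).hasDerivAt
        (Icc_mem_nhds (lt_of_le_of_lt ht1.1.1 ht.1) ht.2)
      rw [h1.deriv]
      exact hb t ⟨ht1.1.1.trans ht.1.le, ht.2⟩
        (lt_of_le_of_lt (le_max_right _ _) (hgt t ht.1 ht.2.le))
  have h1 := hanti ⟨le_rfl, ht1T.le⟩ ⟨ht1T.le, le_rfl⟩ ht1T.le
  have h2 : f t1 ≤ Q := ht1.2
  linarith

theorem p_INT2 (hEN : Stmt_EN) (hL2D : Stmt_L2D) (hSBA : Stmt_SBA) (hYNG : Stmt_YNG) :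
    Stmt_INT2 := by
  intro M B κ α T s A x hM hκ hα hα' hs hs3 hA hT hFr hGS hTT0 hcr
  set K : ℝ := (s + 1) * 2 ^ s with hK
  have h2s : (2 : ℝ) ^ s ≤ 8 := by
    calc (2 : ℝ) ^ s ≤ (2 : ℝ) ^ (3 : ℝ) := Real.rpow_le_rpow_of_exponent_le (by norm_num) hs3
      _ = 8 := by
        have : (3 : ℝ) = ((3 : ℕ) : ℝ) := by norm_num
        rw [this, Real.rpow_natCast]
        norm_num
  have h2s0 : 0 ≤ (2 : ℝ) ^ s := Real.rpow_nonneg (by norm_num) _
  have hK0 : 0 ≤ K := mul_nonneg (by linarith) h2s0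
  have hK32 : K ≤ 32 := by
    calc K ≤ 4 * 8 := mul_le_mul (by linarith) h2s h2s0 (by norm_num)
      _ = 32 := by norm_num
  set G : ℝ := 6 * K * M * A with hG
  have hM0 : (0 : ℝ) ≤ M := Nat.cast_nonneg M
  have hG0 : 0 ≤ G := by positivity
  set m : ℝ := 2 * (2 * G / κ) ^ (s / α) * (2 * (M + 1) * Y B M 0 (fun k => x k 0)) with hm
  have hGκ : 0 ≤ 2 * G / κ := div_nonneg (by positivity) hκ.le
  have hp0 : 0 ≤ (2 * G / κ) ^ (s / α) := Real.rpow_nonneg hGκ _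
  have hY00 := INT_Y_nonneg B M 0 (fun k => x k 0)
  have hder : ∀ t ∈ Icc 0 T, HasDerivWithinAt (fun t => Y B M s (fun k => x k t))
      (-(2 * κ * Y B M (s + α) (fun k => x k t)) -
        2 * Sw B (wt M s) (fun k => x k t)) (Icc 0 T) t := by
    intro t ht
    have h := hEN B κ α T x (wt M s) hGS t ht
    rw [INT_shift] at h
    exact h
  have hbound : ∀ t ∈ Ico 0 T, m < Y B M s (fun k => x k t) →
      (-(2 * κ * Y B M (s + α) (fun k => x k t)) - 2 * Sw B (wt M s) (fun k => x k t)) ≤ 0 := by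
    intro t ht hmt
    have htI : t ∈ Icc 0 T := ⟨ht.1, ht.2.le⟩
    obtain ⟨hT1, hT2⟩ := hL2D M B κ α T x hM hκ hα hFr hGS t htI
    have hexp : Real.exp (-(2 * κ * t)) ≤ 1 := by
      rw [Real.exp_le_one_iff]
      have : 0 ≤ 2 * κ * t := by
        have := ht.1
        positivity
      linarith
    have hTTt : TT B (fun k => x k t) ≤ A ^ 2 := by
      refine hT1.trans (le_trans ?_ hTT0)
      calc Real.exp (-(2 * κ * t)) * TT B (fun k => x k 0)
          ≤ 1 * TT B (fun k => x k 0) :=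
            mul_le_mul_of_nonneg_right hexp (INT_TT_nonneg _ _)
        _ = _ := one_mul _
    have hS := hSBA M α s A B (fun k => x k t) hM hα hα'.le hs hA hFr (hGS.adm t htI) hTTt
    rw [← hK] at hS
    have hsq : √(Y B M (2 - 2 * α) (fun k => x k t)) ≤ √α * κ / 128 := by
      rw [show √α * κ / 128 = √(α / 16384 * κ ^ 2) from ?_]
      · exact Real.sqrt_le_sqrt (hcr t ht)
      · rw [Real.sqrt_mul (by positivity), Real.sqrt_div hα.le, Real.sqrt_sq hκ.le,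
          show (16384 : ℝ) = 128 ^ 2 by norm_num, Real.sqrt_sq (by norm_num)]
        ring
    have hsα : 0 < √α := Real.sqrt_pos.mpr hα
    have hYa := INT_Y_nonneg B M (s + α) (fun k => x k t)
    have hYs := INT_Y_nonneg B M s (fun k => x k t)
    have h1 : 2 / √α * √(Y B M (2 - 2 * α) (fun k => x k t)) ≤ κ / 64 := by
      calc 2 / √α * √(Y B M (2 - 2 * α) (fun k => x k t)) ≤ 2 / √α * (√α * κ / 128) :=
            mul_le_mul_of_nonneg_left hsq (by positivity)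
        _ = κ / 64 := by
          field_simp
          norm_num
    have h2 : |Sw B (wt M s) (fun k => x k t)| ≤
        K * (3 * M * A * Y B M s (fun k => x k t) + κ / 64 * Y B M (s + α) (fun k => x k t)) := by
      refine hS.trans (mul_le_mul_of_nonneg_left ?_ hK0)
      have := mul_le_mul_of_nonneg_right h1 hYa
      linarith
    have h3 := (abs_le.mp h2).1
    have h4 : 2 * (K * (κ / 64 * Y B M (s + α) (fun k => x k t))) ≤
        κ * Y B M (s + α) (fun k => x k t) := by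
      have h5 : K * (κ * Y B M (s + α) (fun k => x k t)) ≤
          32 * (κ * Y B M (s + α) (fun k => x k t)) :=
        mul_le_mul_of_nonneg_right hK32 (by positivity)
      linarith
    have h6 := hYNG M α s κ (2 * G) B (fun k => x k t) hM hα (by linarith) hκ (by positivity) hFr
    have h7 : G * Y B M s (fun k => x k t) = 2 * (K * (3 * M * A * Y B M s (fun k => x k t))) := by
      rw [hG]; ring
    have hY0t : Y B M 0 (fun k => x k t) ≤ 2 * (M + 1) * Y B M 0 (fun k => x k 0) := by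
      refine hT2.trans ?_
      calc 2 * (M + 1) * Real.exp (-(2 * κ * t)) * Y B M 0 (fun k => x k 0)
          ≤ 2 * (M + 1) * 1 * Y B M 0 (fun k => x k 0) := by gcongr
        _ = _ := by ring
    have h8 : 2 * G * (2 * G / κ) ^ (s / α) * Y B M 0 (fun k => x k t) ≤ G * m := by
      calc 2 * G * (2 * G / κ) ^ (s / α) * Y B M 0 (fun k => x k t)
          ≤ 2 * G * (2 * G / κ) ^ (s / α) * (2 * (M + 1) * Y B M 0 (fun k => x k 0)) :=
            mul_le_mul_of_nonneg_left hY0t (by positivity)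
        _ = G * m := by rw [hm]; ring
    have h9 : G * m ≤ G * Y B M s (fun k => x k t) := mul_le_mul_of_nonneg_left hmt.le hG0
    have h10 : K * (3 * M * A * Y B M s (fun k => x k t) + κ / 64 * Y B M (s + α) (fun k => x k t))
        = K * (3 * M * A * Y B M s (fun k => x k t)) +
          K * (κ / 64 * Y B M (s + α) (fun k => x k t)) := by ring
    rw [h10] at h3
    linarith
  have h := MAXP (fun t => Y B M s (fun k => x k t)) _ T m hT hder hbound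
  refine h.trans (max_le_max le_rfl ?_)
  rw [hm, hG, hK]

theorem BST2_pow {K M A κ α : ℝ} (hK : 0 ≤ K) (hM : 0 ≤ M) (hA : 0 ≤ A) (hκ : 0 < κ) (hα : 0 < α)
    (hα' : α < 1 / 2) :
    (12 * K * M * A / κ) ^ ((2 - 2 * α) / α) ≤
      (12 * K * M) ^ ((2 - 2 * α) / α) * (1 + A ^ 2 / κ ^ 2) ^ (1 / α - 1) := by
  have e1 : 12 * K * M * A / κ = (12 * K * M) * (A / κ) := by ring
  rw [e1, Real.mul_rpow (by positivity) (by positivity)]
  apply mul_le_mul_of_nonneg_left _ (by positivity)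
  have e2 : (2 - 2 * α) / α = 2 * (1 / α - 1) := by
    field_simp
  have hp : 0 ≤ 1 / α - 1 := by
    have : 2 ≤ 1 / α := by
      rw [le_div_iff₀ hα]
      linarith
    linarith
  have hAκ : 0 ≤ A / κ := by positivity
  rw [e2, Real.rpow_mul hAκ, Real.rpow_two]
  apply Real.rpow_le_rpow (by positivity) _ hp
  rw [div_pow]
  linarith

theorem p_BST2 (h1 : Stmt_INT2) : Stmt_BST2 := by
  intro M α hM hα hα'
  set σ : ℝ := 2 - 2 * α with hσ
  set K : ℝ := (σ + 1) * 2 ^ σ with hK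
  set D : ℝ := 4 * (M + 1) * (12 * K * M) ^ (σ / α) with hD
  have hσ1 : 1 < σ := by rw [hσ]; linarith
  have hK0 : 0 ≤ K := by positivity
  have hM0 : (0 : ℝ) ≤ M := Nat.cast_nonneg M
  have hD0 : 0 ≤ D := by positivity
  refine ⟨α / 16384 / (2 * (1 + D)), by positivity, ?_⟩
  intro B κ T A x hκ hA hT hFr hGS hTT hY1 hY0
  set θ : ℝ := α / 16384 * κ ^ 2 with hθ
  have hθ0 : 0 < θ := by positivity
  set c : ℝ := α / 16384 / (2 * (1 + D)) with hc
  have hcD : (1 + D) * (c * κ ^ 2) = θ / 2 := by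
    rw [hc, hθ]
    field_simp
  have hYn : 0 ≤ Y B M 0 (fun k => x k 0) := by
    unfold Y
    apply Finset.sum_nonneg
    intro k _
    unfold wt
    split_ifs
    · have := Pool.Agent.Work.MP_a2fcf1_an_h64.eu_nonneg k
      positivity
    · simp
  -- the a priori bound on a shorter interval
  have key : ∀ t ∈ Icc (0 : ℝ) T, (∀ s ∈ Ico (0 : ℝ) t, Y B M σ (fun k => x k s) ≤ θ) →
      Y B M σ (fun k => x k t) ≤ θ / 2 := by
    intro t ht hs
    have h := h1 M B κ α t σ A x hM hκ hα hα' (by linarith) (by rw [hσ]; linarith) hA ht.1 hFr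
      (BST_res hGS ht.2) hTT hs
    have h2 := BST2_pow hK0 hM0 hA hκ hα hα'
    have h3 : 2 * (2 * (6 * ((σ + 1) * 2 ^ σ) * M * A) / κ) ^ (σ / α) *
        (2 * (M + 1) * Y B M 0 (fun k => x k 0)) ≤ D * (c * κ ^ 2) := by
      have e1 : 2 * (6 * ((σ + 1) * 2 ^ σ) * (M : ℝ) * A) / κ = 12 * K * M * A / κ := by
        rw [hK]; ring
      rw [e1]
      calc 2 * (12 * K * M * A / κ) ^ (σ / α) * (2 * (M + 1) * Y B M 0 (fun k => x k 0))
          = 4 * (M + 1) * ((12 * K * M * A / κ) ^ (σ / α)) * Y B M 0 (fun k => x k 0) := by ring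
        _ ≤ 4 * (M + 1) * ((12 * K * M) ^ (σ / α) * (1 + A ^ 2 / κ ^ 2) ^ (1 / α - 1)) *
              Y B M 0 (fun k => x k 0) := by
            apply mul_le_mul_of_nonneg_right _ hYn
            exact mul_le_mul_of_nonneg_left h2 (by positivity)
        _ = D * ((1 + A ^ 2 / κ ^ 2) ^ (1 / α - 1) * Y B M 0 (fun k => x k 0)) := by
            rw [hD]; ring
        _ ≤ D * (c * κ ^ 2) := mul_le_mul_of_nonneg_left hY0 hD0
    have hc0 : 0 ≤ c * κ ^ 2 := by positivity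
    have h4 : Y B M σ (fun k => x k t) ≤ c * κ ^ 2 + D * (c * κ ^ 2) := by
      refine h.trans (max_le ?_ ?_)
      · have := mul_nonneg hD0 hc0
        linarith
      · linarith
    rw [← hcD]
    linarith
  intro t0 ht0
  by_contra hcon
  push Not at hcon
  have hcont := (BST_cont hGS M σ).mono (Icc_subset_Icc le_rfl ht0.2)
  have hclosed : IsClosed (Icc 0 t0 ∩ (fun t => Y B M σ (fun k => x k t)) ⁻¹' Ici θ) :=
    hcont.preimage_isClosed_of_isClosed isClosed_Icc isClosed_Ici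
  have hcomp : IsCompact (Icc 0 t0 ∩ (fun t => Y B M σ (fun k => x k t)) ⁻¹' Ici θ) :=
    isCompact_Icc.of_isClosed_subset hclosed inter_subset_left
  obtain ⟨t1, ht1, hmin⟩ := hcomp.exists_isLeast ⟨t0, ⟨ht0.1, le_rfl⟩, hcon.le⟩
  have h5 := key t1 ⟨ht1.1.1, ht1.1.2.trans ht0.2⟩ (by
    intro s hs
    by_contra h6
    push Not at h6
    have h7 := hmin ⟨⟨hs.1, hs.2.le.trans ht1.1.2⟩, h6.le⟩
    exact absurd hs.2 (not_lt.2 h7))
  have h8 : θ ≤ Y B M σ (fun k => x k t1) := ht1.2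
  linarith

/-- The theorem on coefficients. -/
theorem main2 (h1 : Stmt_INT) (h2 : Stmt_BST2) (h3 : Stmt_APS) (h4 : Stmt_GAL) (h5 : Stmt_LIM)
    (h6 : Stmt_BRI) (h7 : Stmt_SYM) (h8 : Stmt_PTW) (h9 : Stmt_DAT) (h10 : Stmt_L2D)
    (α : ℝ) (M : ℕ) (hα : 0 < α) (hα' : α < 1 / 2) (hM : 1 ≤ M) :
    ∃ c : ℝ, 0 < c ∧ ∀ (κ : ℝ) (Γ : AddSubgroup (ℤ × ℤ)) (a : ℤ × ℤ → ℂ) (θ₀ : ℝ × ℝ → ℝ),
      0 < κ → (∀ k ∈ Γ, k ≠ 0 → (M : ℤ) ≤ nq k) → (∀ k, a k ≠ 0 → k ∈ Γ) →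
      (∀ m : ℕ, Summable fun k => (1 + eu k) ^ m * ‖a k‖) →
      (∀ x, ((θ₀ x : ℝ) : ℂ) = ∑' k, a k * ex k x) →
      ∑' k, wt M (2 - 2 * α) k * ‖a k‖ ^ 2 ≤ c * κ ^ 2 →
      (1 + (∑' k, if k = 0 then 0 else ‖a k‖ ^ 2) / κ ^ 2) ^ (1 / α - 1) *
        ∑' k, wt M 0 k * ‖a k‖ ^ 2 ≤ c * κ ^ 2 →
      GloballyRegular κ α θ₀ := by
  obtain ⟨c, hc, hB⟩ := h2 M α hM hα hα'
  refine ⟨c, hc, fun κ Γ a θ₀ hκ hΓ ha hs hθ hcrit hlow => ?_⟩
  obtain ⟨hFr, hT, hY⟩ := h9 M Γ a hM hΓ hs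
  have hsum : Summable fun k => ‖a k‖ := by
    have := hs 0
    simpa using this
  have hsym := h7 a θ₀ hsum hθ
  set E : ℝ := ∑' k, if k = 0 then 0 else ‖a k‖ ^ 2 with hE
  have hE0 : 0 ≤ E := tsum_nonneg fun k => by split_ifs <;> positivity
  set A : ℝ := √E with hA
  have hA2 : A ^ 2 = E := Real.sq_sqrt hE0
  have hA0 : 0 ≤ A := Real.sqrt_nonneg _
  choose x hx hx0 using fun n : ℕ => h4 (BB Γ n) κ α n a hκ.le hα (Nat.cast_nonneg n)
    (hFr n).1 hsym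
  -- truncated data
  have hTT0 : ∀ n, TT (BB Γ n) (fun k => x n k 0) = TT (BB Γ n) a := by
    intro n
    unfold TT
    exact Finset.sum_congr rfl fun k hk => by simp only [hx0 n k hk]
  have hY0 : ∀ n s, Y (BB Γ n) M s (fun k => x n k 0) = Y (BB Γ n) M s a := by
    intro n s
    unfold Y
    exact Finset.sum_congr rfl fun k hk => by simp only [hx0 n k hk]
  have hTTA : ∀ n, TT (BB Γ n) (fun k => x n k 0) ≤ A ^ 2 := by
    intro n
    rw [hTT0, hA2]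
    exact hT n
  -- the critical norm stays small
  have hcr : ∀ n : ℕ, ∀ t ∈ Icc (0 : ℝ) n,
      Y (BB Γ n) M (2 - 2 * α) (fun k => x n k t) ≤ α / 16384 * κ ^ 2 := by
    intro n
    apply hB (BB Γ n) κ n A (x n) hκ hA0 (Nat.cast_nonneg n) (hFr n) (hx n) (hTTA n)
    · rw [hY0]
      exact (hY n _ (by linarith)).trans hcrit
    · rw [hY0, hA2]
      refine (mul_le_mul_of_nonneg_left (hY n 0 le_rfl) ?_).trans hlow
      positivity
  -- restriction of Galerkin solutions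
  have hres : ∀ n : ℕ, ∀ t ∈ Icc (0 : ℝ) n, GS (BB Γ n) κ α t (x n) := by
    intro n t ht
    refine ⟨fun s hs => (hx n).adm s ⟨hs.1, hs.2.trans ht.2⟩, fun k hk s hs => ?_⟩
    exact ((hx n).ode k hk s ⟨hs.1, hs.2.trans ht.2⟩).mono (Icc_subset_Icc le_rfl ht.2)
  have hY3 : ∃ Q3 : ℝ, ∀ n : ℕ, ∀ t ∈ Icc (0 : ℝ) n, Y (BB Γ n) M 3 (fun k => x n k t) ≤ Q3 := by
    refine ⟨(∑' k, wt M 3 k * ‖a k‖ ^ 2) + (M + 1) *
      (6 * ((3 + 1) * 2 ^ (3 : ℝ)) * M * A / κ) ^ (1 + 3 / α) *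
        (∑' k, wt M 0 k * ‖a k‖ ^ 2), fun n t ht => ?_⟩
    have h := h1 M (BB Γ n) κ α t 3 A (x n) hM hκ hα hα' (by norm_num) le_rfl hA0 ht.1 (hFr n)
      (hres n t ht) (hTTA n) (fun s hs => hcr n s ⟨hs.1, hs.2.le.trans ht.2⟩)
    rw [hY0, hY0] at h
    refine h.trans (add_le_add (hY n 3 (by norm_num)) ?_)
    exact mul_le_mul_of_nonneg_left (hY n 0 le_rfl) (by positivity)
  obtain ⟨Q3, hQ3⟩ := hY3
  have hYs : ∃ Q : ℕ → ℝ, ∀ n : ℕ, ∀ t ∈ Icc (0 : ℝ) n, ∀ p : ℕ, 1 ≤ p →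
      Y (BB Γ n) M p (fun k => x n k t) ≤ Q p := by
    refine ⟨fun p => (∑' k, wt M p k * ‖a k‖ ^ 2) + 2 * (M + 1) *
      (((p : ℝ) + 1) * 2 ^ (p : ℝ) * (3 * M * A + 4 * √Q3) / κ) ^ (1 + p / α) *
        (∑' k, wt M 0 k * ‖a k‖ ^ 2), fun n t ht p hp => ?_⟩
    have hp' : (1 : ℝ) ≤ p := by exact_mod_cast hp
    have h := h3 M (BB Γ n) κ α t p A Q3 (x n) hM hκ hα hα' (by linarith) hA0 ht.1 (hFr n)
      (hres n t ht) (hTTA n) (fun s hs => hQ3 n s ⟨hs.1, hs.2.trans ht.2⟩)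
    rw [hY0, hY0] at h
    refine h.trans (add_le_add (hY n p (by linarith)) ?_)
    exact mul_le_mul_of_nonneg_left (hY n 0 le_rfl) (by positivity)
  obtain ⟨Q, hQ⟩ := hYs
  have hdec : ∀ m : ℕ, ∃ C : ℝ, ∀ (n : ℕ) (k : ℤ × ℤ) (t : ℝ), 0 ≤ t → t ≤ n →
      ‖x n k t‖ * (1 + n1 k) ^ m ≤ C := by
    intro m
    obtain ⟨C, hC⟩ := h8 M A Q m hM hA0
    refine ⟨C, fun n k t ht0 htn => ?_⟩
    refine hC (BB Γ n) (fun k => x n k t) (hFr n) ((hx n).adm t ⟨ht0, htn⟩) ?_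
      (hQ n t ⟨ht0, htn⟩) k
    have h := (h10 M (BB Γ n) κ α n (x n) hM hκ hα (hFr n) (hx n) t ⟨ht0, htn⟩).1
    have h2 : Real.exp (-(2 * κ * t)) ≤ 1 := by
      rw [Real.exp_le_one_iff]
      have : 0 ≤ 2 * κ * t := by positivity
      linarith
    have h3 : 0 ≤ TT (BB Γ n) (fun k => x n k 0) := by
      unfold TT
      positivity
    calc TT (BB Γ n) (fun k => x n k t)
        ≤ Real.exp (-(2 * κ * t)) * TT (BB Γ n) (fun k => x n k 0) := h
      _ ≤ 1 * TT (BB Γ n) (fun k => x n k 0) := mul_le_mul_of_nonneg_right h2 h3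
      _ = TT (BB Γ n) (fun k => x n k 0) := one_mul _
      _ ≤ A ^ 2 := hTTA n
  obtain ⟨b, hb, hb0, hbs, hbo⟩ := h5 κ α Γ a x hκ hα hα' ha hsym hx hx0 hdec
  refine h6 κ α b θ₀ hκ.le hα hα'.le hb hbs hbo ?_
  intro y
  rw [hθ y]
  exact tsum_congr fun k => by rw [hb0]


end

end Pool.SQGF
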