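import Pool.Agent.Work.MP_a2fcf1_an_fs.B_REW
import Pool.Agent.Work.MP_a2fcf1_an_fs.B_TRI
import Pool.Agent.Work.MP_a2fcf1_an_fs.B_CON
import Pool.Agent.Work.MP_a2fcf1_an_fs.B_PHI
import Pool.Agent.Work.MP_a2fcf1_an_fs.B_SB
import Pool.Agent.Work.MP_a2fcf1_an_fs.B_LAT
import Pool.Agent.Work.MP_a2fcf1_an_fs.B_LLA
import Pool.Agent.Work.MP_a2fcf1_an_fs.B_LLB
import Pool.Agent.Work.MP_a2fcf1_an_fs.B_SBA
import Pool.Agent.Work.MP_a2fcf1_an_fs.B_SBB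
import Pool.Agent.Work.MP_a2fcf1_an_fs.B_EN
import Pool.Agent.Work.MP_a2fcf1_an_fs.B_L2D
import Pool.Agent.Work.MP_a2fcf1_an_fs.B_GRW
import Pool.Agent.Work.MP_a2fcf1_an_fs.B_YNG
import Pool.Agent.Work.MP_a2fcf1_an_fs.B_INT
import Pool.Agent.Work.MP_a2fcf1_an_fs.B_BST
import Pool.Agent.Work.MP_a2fcf1_an_fs.B_APS
import Pool.Agent.Work.MP_a2fcf1_an_fs.B_GAL
import Pool.Agent.Work.MP_a2fcf1_an_fs.B_LIQ
import Pool.Agent.Work.MP_a2fcf1_an_fs.B_LIM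
import Pool.Agent.Work.MP_a2fcf1_an_fs.B_SYM
import Pool.Agent.Work.MP_a2fcf1_an_fs.B_PTW
import Pool.Agent.Work.MP_a2fcf1_an_fs.B_DAT
import Pool.Agent.Work.MP_a2fcf1_an_fs.B_BRI
import Pool.Agent.Work.MP_a2fcf1_an_fs.Improved

/-! # Assembly of the theorem on large data near the first shell -/

set_option autoImplicit false

namespace Pool.SQGF

open Pool.Agent.Work.MP_a2fcf1_an_h64 (eu ex GloballyRegular)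

theorem a_TRI : Stmt_TRI := p_TRI p_REW
theorem a_CON : Stmt_CON := p_CON a_TRI
theorem a_SB : Stmt_SB := p_SB a_TRI p_PHI
theorem a_LLA : Stmt_LLA := p_LLA p_LAT
theorem a_LLB : Stmt_LLB := p_LLB p_LAT
theorem a_SBA : Stmt_SBA := p_SBA a_SB a_LLA
theorem a_SBB : Stmt_SBB := p_SBB a_SB a_LLB
theorem a_L2D : Stmt_L2D := p_L2D p_EN a_CON
theorem a_INT : Stmt_INT := p_INT p_EN a_L2D a_SBA p_GRW p_YNG
theorem a_INT2 : Stmt_INT2 := p_INT2 p_EN a_L2D a_SBA p_YNG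
theorem a_BST2 : Stmt_BST2 := p_BST2 a_INT2
theorem a_APS : Stmt_APS := p_APS p_EN a_L2D a_SBB p_GRW p_YNG
theorem a_GAL : Stmt_GAL := p_GAL a_CON
theorem a_LIM : Stmt_LIM := p_LIM p_LIQ

/-- Large data near the first shell. -/
theorem first_shell (α : ℝ) (M : ℕ) (hα : 0 < α) (hα' : α < 1 / 2) (hM : 1 ≤ M) :
    ∃ c : ℝ, 0 < c ∧ ∀ (κ : ℝ) (Γ : AddSubgroup (ℤ × ℤ)) (a : ℤ × ℤ → ℂ) (θ₀ : ℝ × ℝ → ℝ),
      0 < κ → (∀ k ∈ Γ, k ≠ 0 → (M : ℤ) ≤ k.1 ^ 2 + k.2 ^ 2) → (∀ k, a k ≠ 0 → k ∈ Γ) →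
      (∀ m : ℕ, Summable fun k => (1 + eu k) ^ m * ‖a k‖) →
      (∀ x, ((θ₀ x : ℝ) : ℂ) = ∑' k, a k * ex k x) →
      (∑' k : ℤ × ℤ, if (M : ℤ) < k.1 ^ 2 + k.2 ^ 2 then eu k ^ (4 - 4 * α) * ‖a k‖ ^ 2 else 0) ≤
        c * κ ^ 2 →
      (1 + (∑' k : ℤ × ℤ, if k = 0 then 0 else ‖a k‖ ^ 2) / κ ^ 2) ^ (1 / α - 1) *
        (∑' k : ℤ × ℤ, if (M : ℤ) < k.1 ^ 2 + k.2 ^ 2 then ‖a k‖ ^ 2 else 0) ≤ c * κ ^ 2 →
      GloballyRegular κ α θ₀ := by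
  obtain ⟨c, hc, h⟩ := main2 a_INT a_BST2 a_APS a_GAL a_LIM p_BRI p_SYM p_PTW p_DAT a_L2D α M hα hα' hM
  refine ⟨c, hc, fun κ Γ a θ₀ h1 h2 h3 h4 h5 h6 h7 => h κ Γ a θ₀ h1 h2 h3 h4 h5 ?_ ?_⟩
  · refine le_of_eq_of_le (tsum_congr fun k => ?_) h6
    unfold wt nq
    split_ifs
    · congr 2
      ring
    · simp
  · refine le_of_eq_of_le ?_ h7
    congr 1
    apply tsum_congr
    intro k
    unfold wt nq
    split_ifs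
    · simp
    · simp

end Pool.SQGF
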