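import Pool.Agent.Work.MP_a2fcf1_an_fs.Interface
set_option autoImplicit false

/-! Block LIM: passage to the limit along an ultrafilter. -/

namespace Pool.SQGF

open Finset Set Filter Topology
open Pool.Agent.Work.MP_a2fcf1_an_h64 (cr sc eu n1 ex fc GloballyRegular)

noncomputable section

theorem LIM_sum : Summable fun j : ℤ × ℤ => ((1 + (n1 j : ℝ)) ^ 4)⁻¹ := by
  have hz : Summable fun z : ℤ => ((1 + |(z : ℝ)|) ^ 2)⁻¹ := by
    have h : Summable fun n : ℕ => (((n : ℝ) + 1) ^ 2)⁻¹ := by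
      have h1 := (summable_nat_add_iff 1).mpr
        (Real.summable_nat_pow_inv.mpr (by norm_num : 1 < 2))
      simpa using h1
    apply Summable.of_nat_of_neg
    · refine h.congr fun n => ?_
      simp [add_comm]
    · refine h.congr fun n => ?_
      simp [add_comm]
  have h2 : Summable fun x : ℤ × ℤ => ((1 + |(x.1 : ℝ)|) ^ 2)⁻¹ * ((1 + |(x.2 : ℝ)|) ^ 2)⁻¹ :=
    hz.mul_of_nonneg hz (fun _ => by positivity) (fun _ => by positivity)
  refine Summable.of_nonneg_of_le (fun j => by positivity) (fun j => ?_) h2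
  rw [← mul_inv]
  apply inv_anti₀ (by positivity)
  rw [Pool.Agent.Work.MP_a2fcf1_an_h64.n1_cast]
  have ha := abs_nonneg (j.1 : ℝ)
  have hb := abs_nonneg (j.2 : ℝ)
  have h3 : (1 + |(j.1 : ℝ)|) ^ 2 ≤ (1 + (|(j.1 : ℝ)| + |(j.2 : ℝ)|)) ^ 2 :=
    pow_le_pow_left₀ (by positivity) (by linarith) 2
  have h4 : (1 + |(j.2 : ℝ)|) ^ 2 ≤ (1 + (|(j.1 : ℝ)| + |(j.2 : ℝ)|)) ^ 2 :=
    pow_le_pow_left₀ (by positivity) (by linarith) 2
  calc (1 + |(j.1 : ℝ)|) ^ 2 * (1 + |(j.2 : ℝ)|) ^ 2
      ≤ (1 + (|(j.1 : ℝ)| + |(j.2 : ℝ)|)) ^ 2 * (1 + (|(j.1 : ℝ)| + |(j.2 : ℝ)|)) ^ 2 := by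
        gcongr
    _ = _ := by ring

theorem LIM_mem_BB {Γ : AddSubgroup (ℤ × ℤ)} {n : ℕ} {k : ℤ × ℤ} :
    k ∈ BB Γ n ↔ (|k.1| ≤ n ∧ |k.2| ≤ n) ∧ k ∈ Γ ∧ k ≠ 0 := by
  classical
  unfold BB
  simp only [Finset.mem_filter, Finset.mem_product, Finset.mem_Icc, abs_le]

theorem LIM_ev (Γ : AddSubgroup (ℤ × ℤ)) {k : ℤ × ℤ} (h1 : k ∈ Γ) (h2 : k ≠ 0) :
    ∀ᶠ n : ℕ in atTop, k ∈ BB Γ n := by
  filter_upwards [eventually_ge_atTop (n1 k)] with n hn
  rw [LIM_mem_BB]
  unfold n1 at hn
  refine ⟨⟨?_, ?_⟩, h1, h2⟩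
  · rw [Int.abs_eq_natAbs]
    exact_mod_cast (by omega : k.1.natAbs ≤ n)
  · rw [Int.abs_eq_natAbs]
    exact_mod_cast (by omega : k.2.natAbs ≤ n)

theorem LIM_deriv {f : ℝ → ℂ} {v : ℂ} {s L : ℝ}
    (h : ∀ t, 0 ≤ t → ‖f t - f s - ((t - s : ℝ) : ℂ) * v‖ ≤ L * (t - s) ^ 2) :
    HasDerivWithinAt f v (Ici 0) s := by
  rw [hasDerivWithinAt_iff_isLittleO, Asymptotics.isLittleO_iff]
  intro c hc
  have h1 : ∀ᶠ t in 𝓝[Ici (0 : ℝ)] s, |t - s| < c / (|L| + 1) := by
    have h2 : ∀ᶠ t in 𝓝 s, |t - s| < c / (|L| + 1) := by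
      have h3 : 0 < c / (|L| + 1) := by positivity
      have := Metric.ball_mem_nhds s h3
      filter_upwards [this] with t ht
      rwa [Metric.mem_ball, Real.dist_eq] at ht
    exact h2.filter_mono nhdsWithin_le_nhds
  filter_upwards [h1, self_mem_nhdsWithin] with t ht ht0
  have h2 := h t ht0
  have h3 : (t - s) • v = ((t - s : ℝ) : ℂ) * v := by
    rw [Complex.real_smul]
  rw [h3]
  refine h2.trans ?_
  rw [Real.norm_eq_abs, ← sq_abs (t - s)]
  have h4 : L * |t - s| ≤ c := by
    have h5 : L * |t - s| ≤ (|L| + 1) * |t - s| :=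
      mul_le_mul_of_nonneg_right (by linarith [le_abs_self L]) (abs_nonneg _)
    have h6 : (|L| + 1) * |t - s| ≤ (|L| + 1) * (c / (|L| + 1)) :=
      mul_le_mul_of_nonneg_left ht.le (by positivity)
    have h7 : (|L| + 1) * (c / (|L| + 1)) = c := by
      have : |L| + 1 ≠ 0 := by positivity
      field_simp
    linarith
  calc L * |t - s| ^ 2 = (L * |t - s|) * |t - s| := by ring
    _ ≤ c * |t - s| := mul_le_mul_of_nonneg_right h4 (abs_nonneg _)

theorem p_LIM (hLIQ : Stmt_LIQ) : Stmt_LIM := by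
  intro κ α Γ a₀ x hκ hα hα' hΓ hsym hGS hinit hRD
  set U : Filter ℕ := (Filter.hyperfilter ℕ : Filter ℕ) with hUdef
  have hU : U ≤ atTop := Nat.hyperfilter_le_atTop
  have hUn : U.NeBot := (Filter.hyperfilter ℕ).neBot
  have hge : ∀ t : ℝ, ∀ᶠ n : ℕ in U, t ≤ n := by
    intro t
    refine Eventually.filter_mono hU ?_
    filter_upwards [eventually_ge_atTop ⌈t⌉₊] with n hn
    exact Nat.ceil_le.1 hn
  have hlim : ∀ (k : ℤ × ℤ) (t : ℝ), ∃ z, 0 ≤ t → Tendsto (fun n => x n k t) U (𝓝 z) := by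
    intro k t
    by_cases ht : 0 ≤ t
    · obtain ⟨C, hC⟩ := hRD 0
      have h1 : ∀ᶠ n : ℕ in U, x n k t ∈ Metric.closedBall (0 : ℂ) C := by
        filter_upwards [hge t] with n hn
        rw [mem_closedBall_zero_iff]
        have := hC n k t ht hn
        rwa [pow_zero, mul_one] at this
      have h2 : IsCompact (Metric.closedBall (0 : ℂ) C) := isCompact_closedBall _ _
      obtain ⟨z, _, hz⟩ := h2.ultrafilter_le_nhds ((Filter.hyperfilter ℕ).map (fun n => x n k t))
        (by rw [Filter.le_principal_iff]; exact h1)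
      exact ⟨z, fun _ => hz⟩
    · exact ⟨0, fun h => absurd h ht⟩
  choose l hl using hlim
  set a : ℤ × ℤ → ℝ → ℂ := fun k t => if k = 0 then a₀ 0 else l k t with hadef
  have ha0 : ∀ t, a 0 t = a₀ 0 := fun t => by rw [hadef]; simp
  have ha : ∀ k t, k ≠ 0 → 0 ≤ t → Tendsto (fun n => x n k t) U (𝓝 (a k t)) := by
    intro k t hk ht
    have h1 : a k t = l k t := by rw [hadef]; simp [hk]
    rw [h1]
    exact hl k t ht
  have hzero : ∀ k t, k ∉ Γ → 0 ≤ t → a k t = 0 := by
    intro k t hk ht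
    have hk0 : k ≠ 0 := fun h => hk (h ▸ Γ.zero_mem)
    have h1 := ha k t hk0 ht
    have h2 : Tendsto (fun n => x n k t) U (𝓝 0) := by
      refine Tendsto.congr' ?_ (tendsto_const_nhds (x := (0 : ℂ)))
      filter_upwards [hge t] with n hn
      have h3 := ((hGS n).adm t ⟨ht, hn⟩).1 k (fun h => hk (LIM_mem_BB.1 h).2.1)
      exact h3.symm
    exact tendsto_nhds_unique h1 h2
  -- rapid decay
  have hRDa : RD a := by
    intro m
    obtain ⟨C, hC⟩ := hRD m
    refine ⟨max C ‖a₀ 0‖, fun k t ht => ?_⟩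
    by_cases hk : k = 0
    · rw [hk, ha0, Pool.Agent.Work.MP_a2fcf1_an_h64.n1_zero]
      simp
    · refine le_trans ?_ (le_max_left _ _)
      have h1 : Tendsto (fun n => ‖x n k t‖ * (1 + (n1 k : ℝ)) ^ m) U
          (𝓝 (‖a k t‖ * (1 + (n1 k : ℝ)) ^ m)) := (ha k t hk ht).norm.mul_const _
      refine le_of_tendsto h1 ?_
      filter_upwards [hge t] with n hn
      exact hC n k t ht hn
  have hsyma : ∀ (k : ℤ × ℤ) (t : ℝ), 0 ≤ t → a (-k) t = (starRingEnd ℂ) (a k t) := by
    intro k t ht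
    by_cases hk : k = 0
    · rw [hk, neg_zero, ha0, ← hsym, neg_zero]
    · have hk' : -k ≠ 0 := neg_ne_zero.2 hk
      have h1 := ha (-k) t hk' ht
      have h2 : Tendsto (fun n => (starRingEnd ℂ) (x n k t)) U (𝓝 ((starRingEnd ℂ) (a k t))) :=
        (Complex.continuous_conj.tendsto _).comp (ha k t hk ht)
      refine tendsto_nhds_unique (h1.congr' ?_) h2
      filter_upwards [hge t] with n hn
      exact ((hGS n).adm t ⟨ht, hn⟩).2 k
  refine ⟨a, hRDa, ?_, hsyma, ?_⟩
  · -- initial value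
    intro k
    by_cases hk : k = 0
    · rw [hk, ha0]
    · by_cases hkΓ : k ∈ Γ
      · have h1 := ha k 0 hk le_rfl
        refine tendsto_nhds_unique h1 (Tendsto.congr' ?_ (tendsto_const_nhds (x := a₀ k)))
        filter_upwards [(LIM_ev Γ hkΓ hk).filter_mono hU] with n hn
        exact (hinit n k hn).symm
      · rw [hzero k 0 hkΓ le_rfl]
        by_contra hne
        exact hkΓ (hΓ k (Ne.symm hne))
  · intro k s hs
    by_cases hk : k = 0
    · -- k = 0
      subst hk
      have h1 : (-(((κ * eu 0 ^ (2 * α) : ℝ) : ℂ) * a 0 s) -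
          ∑' j, ((sc j (0 - j) : ℝ) : ℂ) * (a j s * a (0 - j) s)) = 0 := by
        have h2 : ∀ j : ℤ × ℤ, ((sc j (0 - j) : ℝ) : ℂ) * (a j s * a (0 - j) s) = 0 := by
          intro j
          rw [Pool.Agent.Work.MP_a2fcf1_an_h64.sc_zero_sub]
          simp
        rw [tsum_congr h2, tsum_zero, Pool.Agent.Work.MP_a2fcf1_an_h64.eu_zero,
          Real.zero_rpow (by positivity)]
        simp
      rw [h1]
      have h3 : a 0 = fun _ => a₀ 0 := funext fun t => ha0 t
      rw [h3]
      exact hasDerivWithinAt_const _ _ _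
    · by_cases hkΓ : k ∈ Γ
      · obtain ⟨L, hL⟩ := hLIQ κ α (BB Γ) x hκ hα hα' hGS hRD k
        -- the quadratic term
        have hN : Tendsto (fun n => NB (BB Γ n) (fun j => x n j s) k) U
            (𝓝 (∑' j, ((sc j (k - j) : ℝ) : ℂ) * (a j s * a (k - j) s))) := by
          obtain ⟨C0, hC0⟩ := hRD 0
          obtain ⟨C4, hC4⟩ := hRD 4
          have h1 : Tendsto (fun n => ∑' j, ((sc j (k - j) : ℝ) : ℂ) * (x n j s * x n (k - j) s)) U
              (𝓝 (∑' j, ((sc j (k - j) : ℝ) : ℂ) * (a j s * a (k - j) s))) := by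
            refine tendsto_tsum_of_dominated_convergence
              (bound := fun j => (eu k * |C0| * |C4|) * ((1 + (n1 j : ℝ)) ^ 4)⁻¹)
              (LIM_sum.mul_left _) ?_ ?_
            · intro j
              by_cases hj : j = 0
              · rw [hj]
                simp
              · by_cases hkj : k - j = 0
                · rw [hkj]
                  simp
                · exact ((ha j s hj hs).mul (ha (k - j) s hkj hs)).const_mul _
            · filter_upwards [hge s] with n hn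
              intro j
              have h2 : |sc j (k - j)| ≤ eu k := by
                have := Pool.Agent.Work.MP_a2fcf1_an_h64.abs_sc_le_eu j (k - j)
                rwa [add_sub_cancel] at this
              have h3 : ‖x n (k - j) s‖ ≤ |C0| := by
                have := hC0 n (k - j) s hs hn
                rw [pow_zero, mul_one] at this
                exact this.trans (le_abs_self _)
              have h4 : ‖x n j s‖ ≤ |C4| * ((1 + (n1 j : ℝ)) ^ 4)⁻¹ := by
                have h5 := (hC4 n j s hs hn).trans (le_abs_self _)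
                rw [← div_eq_mul_inv, le_div_iff₀ (by positivity)]
                exact h5
              rw [norm_mul, norm_mul, Complex.norm_real, Real.norm_eq_abs]
              calc |sc j (k - j)| * (‖x n j s‖ * ‖x n (k - j) s‖)
                  ≤ eu k * ((|C4| * ((1 + (n1 j : ℝ)) ^ 4)⁻¹) * |C0|) := by
                    have h6 := Pool.Agent.Work.MP_a2fcf1_an_h64.eu_nonneg k
                    refine mul_le_mul h2 (mul_le_mul h4 h3 (norm_nonneg _) (by positivity))
                      (by positivity) h6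
                _ = _ := by ring
          refine h1.congr' ?_
          filter_upwards [hge s] with n hn
          unfold NB
          refine tsum_eq_sum fun j hj => ?_
          have h2 : x n j s = 0 := ((hGS n).adm s ⟨hs, hn⟩).1 j hj
          rw [h2]
          simp
        refine LIM_deriv (L := L) fun t ht => ?_
        have h1 : Tendsto (fun n => ‖x n k t - x n k s - ((t - s : ℝ) : ℂ) *
            (-(((κ * eu k ^ (2 * α) : ℝ) : ℂ) * x n k s) - NB (BB Γ n) (fun j => x n j s) k)‖) U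
            (𝓝 ‖a k t - a k s - ((t - s : ℝ) : ℂ) *
            (-(((κ * eu k ^ (2 * α) : ℝ) : ℂ) * a k s) -
              ∑' j, ((sc j (k - j) : ℝ) : ℂ) * (a j s * a (k - j) s))‖) := by
          refine Tendsto.norm ?_
          exact ((ha k t hk ht).sub (ha k s hk hs)).sub
            ((((ha k s hk hs).const_mul _).neg.sub hN).const_mul _)
        refine le_of_tendsto h1 ?_
        filter_upwards [(LIM_ev Γ hkΓ hk).filter_mono hU, hge s, hge t] with n hn1 hn2 hn3
        exact hL n hn1 s t hs hn2 ht hn3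
      · -- k not in the lattice
        have h1 : (-(((κ * eu k ^ (2 * α) : ℝ) : ℂ) * a k s) -
          ∑' j, ((sc j (k - j) : ℝ) : ℂ) * (a j s * a (k - j) s)) = 0 := by
          have h2 : ∀ j : ℤ × ℤ, ((sc j (k - j) : ℝ) : ℂ) * (a j s * a (k - j) s) = 0 := by
            intro j
            by_cases hj : j ∈ Γ
            · have h3 : k - j ∉ Γ := fun h => hkΓ (by
                have := Γ.add_mem h hj
                rwa [sub_add_cancel] at this)
              rw [hzero (k - j) s h3 hs]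
              simp
            · rw [hzero j s hj hs]
              simp
          rw [tsum_congr h2, tsum_zero, hzero k s hkΓ hs]
          simp
        rw [h1]
        refine (hasDerivWithinAt_const s (Ici (0 : ℝ)) (0 : ℂ)).congr ?_ ?_
        · intro t ht
          exact hzero k t hkΓ ht
        · exact hzero k s hkΓ hs

end

end Pool.SQGF
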