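import Pool.Agent.Work.MP_a2fcf1_an_h64.Basic

/-! # Supercritical SQG on the torus: large data near the first shell (MP_a2fcf1_an, helper50)

`x k` are the Fourier coefficients of a real field with frequencies in a finite set `B`, all of
squared length at least `M`. The frequencies of squared length exactly `M` (first shell) may be
large, the others are small. Block `X` lives in `B_X.lean` (import this file, namespace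
`Pool.SQGF`) and proves `theorem p_X (h1 : Stmt_Y) ... : Stmt_X`. -/

set_option autoImplicit false

namespace Pool.SQGF

open Finset Set
open Pool.Agent.Work.MP_a2fcf1_an_h64 (cr sc eu n1 ex fc GloballyRegular)

noncomputable section

/-- The squared Euclidean length. -/
def nq (k : ℤ × ℤ) : ℤ := k.1 ^ 2 + k.2 ^ 2

/-- The quadratic term of the Galerkin system on `B`. -/
def NB (B : Finset (ℤ × ℤ)) (x : ℤ × ℤ → ℂ) (k : ℤ × ℤ) : ℂ :=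
  ∑ j ∈ B, ((sc j (k - j) : ℝ) : ℂ) * (x j * x (k - j))

/-- Symmetric sets of frequencies. -/
def Sym (B : Finset (ℤ × ℤ)) : Prop := ∀ k ∈ B, -k ∈ B

/-- Symmetric sets of frequencies of squared length at least `M`. -/
def Fr (M : ℕ) (B : Finset (ℤ × ℤ)) : Prop := Sym B ∧ ∀ k ∈ B, (M : ℤ) ≤ nq k

/-- Coefficients of a real field with frequencies in `B`. -/
def Adm (B : Finset (ℤ × ℤ)) (x : ℤ × ℤ → ℂ) : Prop :=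
  (∀ k, k ∉ B → x k = 0) ∧ ∀ k, x (-k) = (starRingEnd ℂ) (x k)

/-- The transfer with weight `w`. -/
def Sw (B : Finset (ℤ × ℤ)) (w : ℤ × ℤ → ℝ) (x : ℤ × ℤ → ℂ) : ℝ :=
  ∑ k ∈ B, w k * ((starRingEnd ℂ) (x k) * NB B x k).re

/-- The symmetrised weight of a triad. -/
def Ph (w : ℤ × ℤ → ℝ) (j l : ℤ × ℤ) : ℝ :=
  w (j + l) * (1 / eu j - 1 / eu l) + w j * (1 / eu l - 1 / eu (j + l)) +
    w l * (1 / eu (j + l) - 1 / eu j)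

/-- The Sobolev weight above the first shell. -/
def wt (M : ℕ) (s : ℝ) (k : ℤ × ℤ) : ℝ := if (M : ℤ) < nq k then eu k ^ (2 * s) else 0

/-- The squared Sobolev norm above the first shell. -/
def Y (B : Finset (ℤ × ℤ)) (M : ℕ) (s : ℝ) (x : ℤ × ℤ → ℂ) : ℝ :=
  ∑ k ∈ B, wt M s k * ‖x k‖ ^ 2

/-- The squared `L²` norm. -/
def TT (B : Finset (ℤ × ℤ)) (x : ℤ × ℤ → ℂ) : ℝ := ∑ k ∈ B, ‖x k‖ ^ 2

/-- The gradient at frequencies at most `R`. -/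
def LL (B : Finset (ℤ × ℤ)) (x : ℤ × ℤ → ℂ) (R : ℝ) : ℝ :=
  ∑ j ∈ B, if eu j ≤ R then eu j * ‖x j‖ else 0

/-- The weight of a triad with smallest member `a`. -/
def gg (M : ℕ) (s : ℝ) (a b c : ℤ × ℤ) : ℝ :=
  if eu a ≤ eu b ∧ eu a ≤ eu c ∧ (M : ℤ) < nq b ∧ (M : ℤ) < nq c then
    eu a * eu b ^ s * eu c ^ s else 0

/-- Galerkin solutions on `[0, T]`. -/
structure GS (B : Finset (ℤ × ℤ)) (κ α T : ℝ) (x : ℤ × ℤ → ℝ → ℂ) : Prop where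
  adm : ∀ t ∈ Icc 0 T, Adm B (fun k => x k t)
  ode : ∀ k ∈ B, ∀ t ∈ Icc 0 T, HasDerivWithinAt (x k)
    (-(((κ * eu k ^ (2 * α) : ℝ) : ℂ) * x k t) - NB B (fun j => x j t) k) (Icc 0 T) t

open Classical in
/-- The nonzero frequencies of the lattice `Γ` in a box. -/
def BB (Γ : AddSubgroup (ℤ × ℤ)) (n : ℕ) : Finset (ℤ × ℤ) :=
  ((Finset.Icc (-(n : ℤ)) n) ×ˢ (Finset.Icc (-(n : ℤ)) n)).filter (fun k => k ∈ Γ ∧ k ≠ 0)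

/-- Rapidly decreasing families (uniformly for `t ≥ 0`). -/
def RD (b : ℤ × ℤ → ℝ → ℂ) : Prop :=
  ∀ m : ℕ, ∃ C : ℝ, ∀ (k : ℤ × ℤ) (t : ℝ), 0 ≤ t → ‖b k t‖ * (1 + n1 k) ^ m ≤ C

/-! ## The blocks -/

/-- REW: the transfer as a sum over triads. -/
def Stmt_REW : Prop :=
  ∀ (B : Finset (ℤ × ℤ)) (x : ℤ × ℤ → ℂ) (w : ℤ × ℤ → ℝ), Sym B → Adm B x →
    Sw B w x = ∑ j ∈ B, ∑ l ∈ B, w (j + l) * sc j l * (x j * x l * x (-(j + l))).re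

/-- TRI: symmetrisation. -/
def Stmt_TRI : Prop :=
  ∀ (B : Finset (ℤ × ℤ)) (x : ℤ × ℤ → ℂ) (w : ℤ × ℤ → ℝ), Sym B → Adm B x →
    (∀ k, w (-k) = w k) →
    Sw B w x = 1 / 6 * ∑ j ∈ B, ∑ l ∈ B, (cr j l : ℝ) * Ph w j l * (x j * x l * x (-(j + l))).re

/-- CON: the two conservation laws. -/
def Stmt_CON : Prop :=
  ∀ (B : Finset (ℤ × ℤ)) (x : ℤ × ℤ → ℂ), Sym B → Adm B x →
    Sw B (fun _ => 1) x = 0 ∧ Sw B (fun k => 1 / eu k) x = 0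

/-- PHI: bound of the weight of a triad. -/
def Stmt_PHI : Prop :=
  ∀ (M : ℕ) (s : ℝ) (j l : ℤ × ℤ), 1 ≤ M → 1 / 2 ≤ s → (M : ℤ) ≤ nq j → (M : ℤ) ≤ nq l →
    (M : ℤ) ≤ nq (j + l) →
    |(cr j l : ℝ) * Ph (wt M s) j l| ≤ (2 * s + 2) * 2 ^ s *
      (gg M s j l (j + l) + gg M s l j (j + l) + gg M s (j + l) j l)

/-- SB: bound of the transfer. -/
def Stmt_SB : Prop :=
  ∀ (M : ℕ) (s : ℝ) (B : Finset (ℤ × ℤ)) (x : ℤ × ℤ → ℂ), 1 ≤ M → 1 / 2 ≤ s → Fr M B →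
    Adm B x →
    |Sw B (wt M s) x| ≤ (s + 1) * 2 ^ s * ∑ l ∈ B, wt M s l * ‖x l‖ ^ 2 * LL B x (eu l)

/-- LAT: sums over lattice points. -/
def Stmt_LAT : Prop :=
  (∀ (β R : ℝ) (F : Finset (ℤ × ℤ)), 0 < β → β ≤ 2 → 0 ≤ R → (∀ k ∈ F, k ≠ 0 ∧ eu k ≤ R) →
    ∑ k ∈ F, eu k ^ (β - 2) ≤ 16 / β * R ^ β) ∧
  ∀ F : Finset (ℤ × ℤ), (∀ k ∈ F, k ≠ 0) → ∑ k ∈ F, eu k ^ (-4 : ℝ) ≤ 16

/-- LLA: the gradient in terms of the critical norm. -/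
def Stmt_LLA : Prop :=
  ∀ (M : ℕ) (α A R : ℝ) (B : Finset (ℤ × ℤ)) (x : ℤ × ℤ → ℂ), 1 ≤ M → 0 < α → α ≤ 1 / 2 →
    1 ≤ R → 0 ≤ A → Fr M B → TT B x ≤ A ^ 2 →
    LL B x R ≤ 3 * M * A + 2 / √α * R ^ (2 * α) * √(Y B M (2 - 2 * α) x)

/-- LLB: the gradient in terms of the norm of `H³`. -/
def Stmt_LLB : Prop :=
  ∀ (M : ℕ) (A R : ℝ) (B : Finset (ℤ × ℤ)) (x : ℤ × ℤ → ℂ), 1 ≤ M → 0 ≤ A → Fr M B →
    TT B x ≤ A ^ 2 → LL B x R ≤ 3 * M * A + 4 * √(Y B M 3 x)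

/-- SBA: the transfer and the critical norm. -/
def Stmt_SBA : Prop :=
  ∀ (M : ℕ) (α s A : ℝ) (B : Finset (ℤ × ℤ)) (x : ℤ × ℤ → ℂ), 1 ≤ M → 0 < α → α ≤ 1 / 2 →
    1 / 2 ≤ s → 0 ≤ A → Fr M B → Adm B x → TT B x ≤ A ^ 2 →
    |Sw B (wt M s) x| ≤ (s + 1) * 2 ^ s * (3 * M * A * Y B M s x +
      2 / √α * √(Y B M (2 - 2 * α) x) * Y B M (s + α) x)

/-- SBB: the transfer and the norm of `H³`. -/
def Stmt_SBB : Prop :=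
  ∀ (M : ℕ) (s A : ℝ) (B : Finset (ℤ × ℤ)) (x : ℤ × ℤ → ℂ), 1 ≤ M → 1 / 2 ≤ s → 0 ≤ A →
    Fr M B → Adm B x → TT B x ≤ A ^ 2 →
    |Sw B (wt M s) x| ≤ (s + 1) * 2 ^ s * ((3 * M * A + 4 * √(Y B M 3 x)) * Y B M s x)

/-- EN: the energy identity. -/
def Stmt_EN : Prop :=
  ∀ (B : Finset (ℤ × ℤ)) (κ α T : ℝ) (x : ℤ × ℤ → ℝ → ℂ) (w : ℤ × ℤ → ℝ), GS B κ α T x →
    ∀ t ∈ Icc 0 T, HasDerivWithinAt (fun t => ∑ k ∈ B, w k * ‖x k t‖ ^ 2)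
      (-(2 * κ * ∑ k ∈ B, w k * eu k ^ (2 * α) * ‖x k t‖ ^ 2) -
        2 * Sw B w (fun k => x k t)) (Icc 0 T) t

/-- L2D: decay of the `L²` norm and of the part above the first shell. -/
def Stmt_L2D : Prop :=
  ∀ (M : ℕ) (B : Finset (ℤ × ℤ)) (κ α T : ℝ) (x : ℤ × ℤ → ℝ → ℂ), 1 ≤ M → 0 < κ → 0 < α →
    Fr M B → GS B κ α T x → ∀ t ∈ Icc 0 T,
      TT B (fun k => x k t) ≤ Real.exp (-(2 * κ * t)) * TT B (fun k => x k 0) ∧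
      Y B M 0 (fun k => x k t) ≤
        2 * (M + 1) * Real.exp (-(2 * κ * t)) * Y B M 0 (fun k => x k 0)

/-- GRW: integrating a differential inequality. -/
def Stmt_GRW : Prop :=
  ∀ (f f' : ℝ → ℝ) (κ D T : ℝ), 0 < κ → 0 ≤ D → 0 ≤ T →
    (∀ t ∈ Icc 0 T, HasDerivWithinAt f (f' t) (Icc 0 T) t) →
    (∀ t ∈ Ico 0 T, f' t ≤ D * Real.exp (-(2 * κ * t))) → f T ≤ f 0 + D / (2 * κ)

/-- YNG: interpolation, absorbed form. -/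
def Stmt_YNG : Prop :=
  ∀ (M : ℕ) (α s a G : ℝ) (B : Finset (ℤ × ℤ)) (x : ℤ × ℤ → ℂ), 1 ≤ M → 0 < α → 0 < s →
    0 < a → 0 ≤ G → Fr M B →
    G * Y B M s x ≤ a * Y B M (s + α) x + G * (G / a) ^ (s / α) * Y B M 0 x

/-- INT: the Sobolev norms `s ≤ 3` while the critical norm is small. -/
def Stmt_INT : Prop :=
  ∀ (M : ℕ) (B : Finset (ℤ × ℤ)) (κ α T s A : ℝ) (x : ℤ × ℤ → ℝ → ℂ), 1 ≤ M → 0 < κ →
    0 < α → α < 1 / 2 → 1 / 2 ≤ s → s ≤ 3 → 0 ≤ A → 0 ≤ T → Fr M B → GS B κ α T x →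
    TT B (fun k => x k 0) ≤ A ^ 2 →
    (∀ t ∈ Ico 0 T, Y B M (2 - 2 * α) (fun k => x k t) ≤ α / 16384 * κ ^ 2) →
    Y B M s (fun k => x k T) ≤ Y B M s (fun k => x k 0) +
      (M + 1) * (6 * ((s + 1) * 2 ^ s) * M * A / κ) ^ (1 + s / α) * Y B M 0 (fun k => x k 0)

/-- BST: the critical norm stays small. -/
def Stmt_BST : Prop :=
  ∀ (M : ℕ) (α : ℝ), 1 ≤ M → 0 < α → α < 1 / 2 → ∃ c : ℝ, 0 < c ∧
    ∀ (B : Finset (ℤ × ℤ)) (κ T A : ℝ) (x : ℤ × ℤ → ℝ → ℂ), 0 < κ → 0 ≤ A → 0 ≤ T → Fr M B →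
    GS B κ α T x → TT B (fun k => x k 0) ≤ A ^ 2 →
    Y B M (2 - 2 * α) (fun k => x k 0) ≤ c * κ ^ 2 →
    (1 + A ^ 2 / κ ^ 2) ^ (1 / α - 1 / 2) * Y B M 0 (fun k => x k 0) ≤ c * κ ^ 2 →
    ∀ t ∈ Icc 0 T, Y B M (2 - 2 * α) (fun k => x k t) ≤ α / 16384 * κ ^ 2

/-- APS: all Sobolev norms while the norm of `H³` is bounded. -/
def Stmt_APS : Prop :=
  ∀ (M : ℕ) (B : Finset (ℤ × ℤ)) (κ α T s A Q : ℝ) (x : ℤ × ℤ → ℝ → ℂ), 1 ≤ M → 0 < κ →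
    0 < α → α < 1 / 2 → 1 / 2 ≤ s → 0 ≤ A → 0 ≤ T → Fr M B → GS B κ α T x →
    TT B (fun k => x k 0) ≤ A ^ 2 → (∀ t ∈ Icc 0 T, Y B M 3 (fun k => x k t) ≤ Q) →
    Y B M s (fun k => x k T) ≤ Y B M s (fun k => x k 0) +
      2 * (M + 1) * ((s + 1) * 2 ^ s * (3 * M * A + 4 * √Q) / κ) ^ (1 + s / α) *
        Y B M 0 (fun k => x k 0)

/-- GAL: Galerkin solutions exist for all times. -/
def Stmt_GAL : Prop :=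
  ∀ (B : Finset (ℤ × ℤ)) (κ α T : ℝ) (a : ℤ × ℤ → ℂ), 0 ≤ κ → 0 < α → 0 ≤ T → Sym B →
    (∀ k, a (-k) = (starRingEnd ℂ) (a k)) →
    ∃ x : ℤ × ℤ → ℝ → ℂ, GS B κ α T x ∧ ∀ k ∈ B, x k 0 = a k

/-- LIQ: uniform Taylor bound for rapidly decreasing Galerkin solutions. -/
def Stmt_LIQ : Prop :=
  ∀ (κ α : ℝ) (B : ℕ → Finset (ℤ × ℤ)) (x : ℕ → ℤ × ℤ → ℝ → ℂ), 0 < κ → 0 < α → α < 1 / 2 →
    (∀ n : ℕ, GS (B n) κ α n (x n)) →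
    (∀ m : ℕ, ∃ C : ℝ, ∀ (n : ℕ) (k : ℤ × ℤ) (t : ℝ), 0 ≤ t → t ≤ n → ‖x n k t‖ * (1 + n1 k) ^ m ≤ C) →
    ∀ k, ∃ L : ℝ, ∀ (n : ℕ), k ∈ B n → ∀ s t : ℝ, 0 ≤ s → s ≤ n → 0 ≤ t → t ≤ n →
      ‖x n k t - x n k s - ((t - s : ℝ) : ℂ) *
        (-(((κ * eu k ^ (2 * α) : ℝ) : ℂ) * x n k s) - NB (B n) (fun j => x n j s) k)‖ ≤
          L * (t - s) ^ 2

/-- LIM: passage to the limit. -/
def Stmt_LIM : Prop :=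
  ∀ (κ α : ℝ) (Γ : AddSubgroup (ℤ × ℤ)) (a₀ : ℤ × ℤ → ℂ) (x : ℕ → ℤ × ℤ → ℝ → ℂ), 0 < κ →
    0 < α → α < 1 / 2 → (∀ k, a₀ k ≠ 0 → k ∈ Γ) → (∀ k, a₀ (-k) = (starRingEnd ℂ) (a₀ k)) →
    (∀ n : ℕ, GS (BB Γ n) κ α n (x n)) → (∀ n : ℕ, ∀ k ∈ BB Γ n, x n k 0 = a₀ k) →
    (∀ m : ℕ, ∃ C : ℝ, ∀ (n : ℕ) (k : ℤ × ℤ) (t : ℝ), 0 ≤ t → t ≤ n → ‖x n k t‖ * (1 + n1 k) ^ m ≤ C) →
    ∃ a : ℤ × ℤ → ℝ → ℂ, RD a ∧ (∀ k, a k 0 = a₀ k) ∧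
      (∀ (k : ℤ × ℤ) (t : ℝ), 0 ≤ t → a (-k) t = (starRingEnd ℂ) (a k t)) ∧
      ∀ (k : ℤ × ℤ) (t : ℝ), 0 ≤ t → HasDerivWithinAt (a k)
        (-(((κ * eu k ^ (2 * α) : ℝ) : ℂ) * a k t) -
          ∑' j, ((sc j (k - j) : ℝ) : ℂ) * (a j t * a (k - j) t)) (Ici 0) t

/-- BRI: rapidly decreasing solutions of the coefficient system are smooth solutions. -/
def Stmt_BRI : Prop :=
  ∀ (κ α : ℝ) (a : ℤ × ℤ → ℝ → ℂ) (θ₀ : ℝ × ℝ → ℝ), 0 ≤ κ → 0 < α → α ≤ 1 / 2 → RD a →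
    (∀ (k : ℤ × ℤ) (t : ℝ), 0 ≤ t → a (-k) t = (starRingEnd ℂ) (a k t)) →
    (∀ (k : ℤ × ℤ) (t : ℝ), 0 ≤ t → HasDerivWithinAt (a k)
        (-(((κ * eu k ^ (2 * α) : ℝ) : ℂ) * a k t) -
          ∑' j, ((sc j (k - j) : ℝ) : ℂ) * (a j t * a (k - j) t)) (Ici 0) t) →
    (∀ x, ((θ₀ x : ℝ) : ℂ) = ∑' k, a k 0 * ex k x) → GloballyRegular κ α θ₀

/-- SYM: real data have symmetric coefficients. -/
def Stmt_SYM : Prop :=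
  ∀ (a : ℤ × ℤ → ℂ) (θ₀ : ℝ × ℝ → ℝ), (Summable fun k => ‖a k‖) →
    (∀ x, ((θ₀ x : ℝ) : ℂ) = ∑' k, a k * ex k x) → ∀ k, a (-k) = (starRingEnd ℂ) (a k)

/-- PTW: uniform pointwise decay from the Sobolev norms. -/
def Stmt_PTW : Prop :=
  ∀ (M : ℕ) (A : ℝ) (Q : ℕ → ℝ) (m : ℕ), 1 ≤ M → 0 ≤ A → ∃ C : ℝ,
    ∀ (B : Finset (ℤ × ℤ)) (x : ℤ × ℤ → ℂ), Fr M B → Adm B x → TT B x ≤ A ^ 2 →
      (∀ p : ℕ, 1 ≤ p → Y B M p x ≤ Q p) → ∀ k, ‖x k‖ * (1 + n1 k) ^ m ≤ C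

/-- DAT: the norms of the truncated data. -/
def Stmt_DAT : Prop :=
  ∀ (M : ℕ) (Γ : AddSubgroup (ℤ × ℤ)) (a : ℤ × ℤ → ℂ), 1 ≤ M →
    (∀ k ∈ Γ, k ≠ 0 → (M : ℤ) ≤ nq k) →
    (∀ m : ℕ, Summable fun k => (1 + eu k) ^ m * ‖a k‖) →
    (∀ n, Fr M (BB Γ n)) ∧
    (∀ n, TT (BB Γ n) a ≤ ∑' k, if k = 0 then 0 else ‖a k‖ ^ 2) ∧
    (∀ n (s : ℝ), 0 ≤ s → Y (BB Γ n) M s a ≤ ∑' k, wt M s k * ‖a k‖ ^ 2)

/-! ## Assembly -/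

/-- The theorem on coefficients. -/
theorem main (h1 : Stmt_INT) (h2 : Stmt_BST) (h3 : Stmt_APS) (h4 : Stmt_GAL) (h5 : Stmt_LIM)
    (h6 : Stmt_BRI) (h7 : Stmt_SYM) (h8 : Stmt_PTW) (h9 : Stmt_DAT) (h10 : Stmt_L2D)
    (α : ℝ) (M : ℕ) (hα : 0 < α) (hα' : α < 1 / 2) (hM : 1 ≤ M) :
    ∃ c : ℝ, 0 < c ∧ ∀ (κ : ℝ) (Γ : AddSubgroup (ℤ × ℤ)) (a : ℤ × ℤ → ℂ) (θ₀ : ℝ × ℝ → ℝ),
      0 < κ → (∀ k ∈ Γ, k ≠ 0 → (M : ℤ) ≤ nq k) → (∀ k, a k ≠ 0 → k ∈ Γ) →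
      (∀ m : ℕ, Summable fun k => (1 + eu k) ^ m * ‖a k‖) →
      (∀ x, ((θ₀ x : ℝ) : ℂ) = ∑' k, a k * ex k x) →
      ∑' k, wt M (2 - 2 * α) k * ‖a k‖ ^ 2 ≤ c * κ ^ 2 →
      (1 + (∑' k, if k = 0 then 0 else ‖a k‖ ^ 2) / κ ^ 2) ^ (1 / α - 1 / 2) *
        ∑' k, wt M 0 k * ‖a k‖ ^ 2 ≤ c * κ ^ 2 →
      GloballyRegular κ α θ₀ := by
  obtain ⟨c, hc, hB⟩ := h2 M α hM hα hα'
  refine ⟨c, hc, fun κ Γ a θ₀ hκ hΓ ha hs hθ hcrit hlow => ?_⟩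
  obtain ⟨hFr, hT, hY⟩ := h9 M Γ a hM hΓ hs
  have hsum : Summable fun k => ‖a k‖ := by
    have := hs 0
    simpa using this
  have hsym := h7 a θ₀ hsum hθ
  set E : ℝ := ∑' k, if k = 0 then 0 else ‖a k‖ ^ 2 with hE
  have hE0 : 0 ≤ E := tsum_nonneg fun k => by split_ifs <;> positivity
  set A : ℝ := √E with hA
  have hA2 : A ^ 2 = E := Real.sq_sqrt hE0
  have hA0 : 0 ≤ A := Real.sqrt_nonneg _
  choose x hx hx0 using fun n : ℕ => h4 (BB Γ n) κ α n a hκ.le hα (Nat.cast_nonneg n)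
    (hFr n).1 hsym
  -- truncated data
  have hTT0 : ∀ n, TT (BB Γ n) (fun k => x n k 0) = TT (BB Γ n) a := by
    intro n
    unfold TT
    exact Finset.sum_congr rfl fun k hk => by simp only [hx0 n k hk]
  have hY0 : ∀ n s, Y (BB Γ n) M s (fun k => x n k 0) = Y (BB Γ n) M s a := by
    intro n s
    unfold Y
    exact Finset.sum_congr rfl fun k hk => by simp only [hx0 n k hk]
  have hTTA : ∀ n, TT (BB Γ n) (fun k => x n k 0) ≤ A ^ 2 := by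
    intro n
    rw [hTT0, hA2]
    exact hT n
  -- the critical norm stays small
  have hcr : ∀ n : ℕ, ∀ t ∈ Icc (0 : ℝ) n,
      Y (BB Γ n) M (2 - 2 * α) (fun k => x n k t) ≤ α / 16384 * κ ^ 2 := by
    intro n
    apply hB (BB Γ n) κ n A (x n) hκ hA0 (Nat.cast_nonneg n) (hFr n) (hx n) (hTTA n)
    · rw [hY0]
      exact (hY n _ (by linarith)).trans hcrit
    · rw [hY0, hA2]
      refine (mul_le_mul_of_nonneg_left (hY n 0 le_rfl) ?_).trans hlow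
      positivity
  -- restriction of Galerkin solutions
  have hres : ∀ n : ℕ, ∀ t ∈ Icc (0 : ℝ) n, GS (BB Γ n) κ α t (x n) := by
    intro n t ht
    refine ⟨fun s hs => (hx n).adm s ⟨hs.1, hs.2.trans ht.2⟩, fun k hk s hs => ?_⟩
    exact ((hx n).ode k hk s ⟨hs.1, hs.2.trans ht.2⟩).mono (Icc_subset_Icc le_rfl ht.2)
  have hY3 : ∃ Q3 : ℝ, ∀ n : ℕ, ∀ t ∈ Icc (0 : ℝ) n, Y (BB Γ n) M 3 (fun k => x n k t) ≤ Q3 := by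
    refine ⟨(∑' k, wt M 3 k * ‖a k‖ ^ 2) + (M + 1) *
      (6 * ((3 + 1) * 2 ^ (3 : ℝ)) * M * A / κ) ^ (1 + 3 / α) *
        (∑' k, wt M 0 k * ‖a k‖ ^ 2), fun n t ht => ?_⟩
    have h := h1 M (BB Γ n) κ α t 3 A (x n) hM hκ hα hα' (by norm_num) le_rfl hA0 ht.1 (hFr n)
      (hres n t ht) (hTTA n) (fun s hs => hcr n s ⟨hs.1, hs.2.le.trans ht.2⟩)
    rw [hY0, hY0] at h
    refine h.trans (add_le_add (hY n 3 (by norm_num)) ?_)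
    exact mul_le_mul_of_nonneg_left (hY n 0 le_rfl) (by positivity)
  obtain ⟨Q3, hQ3⟩ := hY3
  have hYs : ∃ Q : ℕ → ℝ, ∀ n : ℕ, ∀ t ∈ Icc (0 : ℝ) n, ∀ p : ℕ, 1 ≤ p →
      Y (BB Γ n) M p (fun k => x n k t) ≤ Q p := by
    refine ⟨fun p => (∑' k, wt M p k * ‖a k‖ ^ 2) + 2 * (M + 1) *
      (((p : ℝ) + 1) * 2 ^ (p : ℝ) * (3 * M * A + 4 * √Q3) / κ) ^ (1 + p / α) *
        (∑' k, wt M 0 k * ‖a k‖ ^ 2), fun n t ht p hp => ?_⟩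
    have hp' : (1 : ℝ) ≤ p := by exact_mod_cast hp
    have h := h3 M (BB Γ n) κ α t p A Q3 (x n) hM hκ hα hα' (by linarith) hA0 ht.1 (hFr n)
      (hres n t ht) (hTTA n) (fun s hs => hQ3 n s ⟨hs.1, hs.2.trans ht.2⟩)
    rw [hY0, hY0] at h
    refine h.trans (add_le_add (hY n p (by linarith)) ?_)
    exact mul_le_mul_of_nonneg_left (hY n 0 le_rfl) (by positivity)
  obtain ⟨Q, hQ⟩ := hYs
  have hdec : ∀ m : ℕ, ∃ C : ℝ, ∀ (n : ℕ) (k : ℤ × ℤ) (t : ℝ), 0 ≤ t → t ≤ n →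
      ‖x n k t‖ * (1 + n1 k) ^ m ≤ C := by
    intro m
    obtain ⟨C, hC⟩ := h8 M A Q m hM hA0
    refine ⟨C, fun n k t ht0 htn => ?_⟩
    refine hC (BB Γ n) (fun k => x n k t) (hFr n) ((hx n).adm t ⟨ht0, htn⟩) ?_
      (hQ n t ⟨ht0, htn⟩) k
    have h := (h10 M (BB Γ n) κ α n (x n) hM hκ hα (hFr n) (hx n) t ⟨ht0, htn⟩).1
    have h2 : Real.exp (-(2 * κ * t)) ≤ 1 := by
      rw [Real.exp_le_one_iff]
      have : 0 ≤ 2 * κ * t := by positivity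
      linarith
    have h3 : 0 ≤ TT (BB Γ n) (fun k => x n k 0) := by
      unfold TT
      positivity
    calc TT (BB Γ n) (fun k => x n k t)
        ≤ Real.exp (-(2 * κ * t)) * TT (BB Γ n) (fun k => x n k 0) := h
      _ ≤ 1 * TT (BB Γ n) (fun k => x n k 0) := mul_le_mul_of_nonneg_right h2 h3
      _ = TT (BB Γ n) (fun k => x n k 0) := one_mul _
      _ ≤ A ^ 2 := hTTA n
  obtain ⟨b, hb, hb0, hbs, hbo⟩ := h5 κ α Γ a x hκ hα hα' ha hsym hx hx0 hdec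
  refine h6 κ α b θ₀ hκ.le hα hα'.le hb hbs hbo ?_
  intro y
  rw [hθ y]
  exact tsum_congr fun k => by rw [hb0]

end

end Pool.SQGF
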